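import Mathlib

/-!
# Module `Bern` : `B_{1,χ} ≠ 0` for primitive odd `χ`
-/

set_option autoImplicit false

open Finset

namespace Fermat950

private lemma bern_geom (z : ℂ) (n : ℕ) :
    (∑ j ∈ range n, (j : ℂ) * z ^ j) * (z - 1) = n * z ^ n - z * ∑ j ∈ range n, z ^ j := by
  induction n with
  | zero => simp
  | succ n ih =>
    rw [sum_range_succ, sum_range_succ, add_mul, ih, pow_succ]
    push_cast
    ring

private lemma bern_sum {z : ℂ} {N : ℕ} (hz : z ^ N = 1) (hz1 : z ≠ 1) :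
    ∑ j ∈ range N, (j : ℂ) * z ^ j = N / (z - 1) := by
  have h1 : z - 1 ≠ 0 := sub_ne_zero.mpr hz1
  have h2 : ∑ j ∈ range N, z ^ j = 0 := by
    have := geom_sum_mul z N
    rw [hz, sub_self] at this
    exact (mul_eq_zero.mp this).resolve_right h1
  rw [eq_div_iff h1, bern_geom, hz, h2]
  ring

private lemma bern_zmod {N : ℕ} [NeZero N] (F : ℕ → ℂ) :
    ∑ j : ZMod N, F j.val = ∑ j ∈ range N, F j := by
  refine Finset.sum_nbij' (fun j => j.val) (fun k => (k : ZMod N)) ?_ ?_ ?_ ?_ ?_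
  · intro j _
    exact mem_range.mpr (ZMod.val_lt j)
  · intro k _
    exact mem_univ _
  · intro j _
    exact ZMod.natCast_zmod_val j
  · intro k hk
    exact ZMod.val_cast_of_lt (mem_range.mp hk)
  · intro j _
    rfl

private lemma bern_std {N : ℕ} [NeZero N] (a j : ZMod N) :
    ZMod.stdAddChar (a * j) = (ZMod.stdAddChar a) ^ j.val := by
  rw [← AddChar.map_nsmul_eq_pow]
  congr 1
  rw [nsmul_eq_mul, ZMod.natCast_zmod_val, mul_comm]

private lemma bern_cot {N : ℕ} [NeZero N] {a : ZMod N} (ha : a ≠ 0) :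
    Complex.cot (Real.pi * (a.val : ℂ) / N) =
      Complex.I * (1 + 2 / N * ∑ j : ZMod N, (j.val : ℂ) * ZMod.stdAddChar (a * j)) := by
  have hN : (N : ℂ) ≠ 0 := Nat.cast_ne_zero.mpr (NeZero.ne N)
  have hz1 : (ZMod.stdAddChar a : ℂ) ≠ 1 := by
    intro h
    rw [← (ZMod.stdAddChar (N := N)).map_zero_eq_one] at h
    exact ha (ZMod.injective_stdAddChar h)
  have hzN : (ZMod.stdAddChar a : ℂ) ^ N = 1 := by
    rw [← AddChar.map_nsmul_eq_pow]
    simp
  have h1 : ∑ j : ZMod N, (j.val : ℂ) * ZMod.stdAddChar (a * j) = N / (ZMod.stdAddChar a - 1) := by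
    rw [← bern_sum hzN hz1, ← bern_zmod (fun j => (j : ℂ) * (ZMod.stdAddChar a : ℂ) ^ j)]
    exact sum_congr rfl fun j _ => by rw [bern_std]
  have h2 : Complex.exp (2 * Real.pi * Complex.I * ((a.val : ℂ) / N)) = ZMod.stdAddChar a := by
    have := ZMod.stdAddChar_coe (N := N) (a.val : ℤ)
    rw [Int.cast_natCast, ZMod.natCast_zmod_val] at this
    rw [this]
    push_cast
    ring_nf
  rw [h1, mul_div_assoc, Complex.cot_pi_eq_exp_ratio, h2]
  have h3 : (ZMod.stdAddChar a : ℂ) - 1 ≠ 0 := sub_ne_zero.mpr hz1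
  have h4 : 1 - (ZMod.stdAddChar a : ℂ) ≠ 0 := sub_ne_zero.mpr (Ne.symm hz1)
  rw [div_mul_div_comm, mul_comm (2 : ℂ), mul_div_mul_left _ _ hN, div_eq_iff
    (mul_ne_zero Complex.I_ne_zero h4)]
  field_simp
  linear_combination ((ZMod.stdAddChar a : ℂ) ^ 2 - 1) * Complex.I_sq

/-- `B_{1,χ} ≠ 0`, from the formula for `L(1, χ⁻¹)`. -/
theorem sum_val_ne_zero_of {N : ℕ} [NeZero N] (χ : DirichletCharacter ℂ N) (hodd : χ.Odd)
    (hprim : χ.IsPrimitive)
    (hcot : 1 < N → (χ⁻¹).Odd → DirichletCharacter.LFunction χ⁻¹ 1 =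
      (Real.pi : ℂ) / (2 * N) * ∑ j : ZMod N, χ⁻¹ j * Complex.cot (Real.pi * (j.val : ℂ) / N)) :
    ∑ j : ZMod N, χ j * (j.val : ℂ) ≠ 0 := by
  have hN1 : 1 < N := by
    rcases Nat.lt_or_ge 1 N with h | h
    · exact h
    · exfalso
      have h1 : N = 1 := le_antisymm h (Nat.one_le_iff_ne_zero.mpr (NeZero.ne N))
      subst h1
      have h2 : χ (-1) = 1 := by
        have : (-1 : ZMod 1) = 1 := Subsingleton.elim _ _
        rw [this, map_one]
      rw [DirichletCharacter.Odd, h2] at hodd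
      norm_num at hodd
  have hfact : Fact (1 < N) := ⟨hN1⟩
  have hodd' : (χ⁻¹).Odd := by
    rw [DirichletCharacter.Odd, MulChar.inv_apply_eq_inv', hodd]
    norm_num
  have hne : χ⁻¹ ≠ 1 := by
    intro h
    rw [h, DirichletCharacter.Odd] at hodd'
    rw [MulChar.one_apply isUnit_one.neg] at hodd'
    norm_num at hodd'
  have hprim' : (χ⁻¹).IsPrimitive := by
    rw [DirichletCharacter.isPrimitive_def, DirichletCharacter.conductor_inv]
    exact hprim
  have hL := DirichletCharacter.LFunction_apply_one_ne_zero hne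
  rw [hcot hN1 hodd'] at hL
  intro h0
  apply hL
  have key : ∑ j : ZMod N, χ⁻¹ j * Complex.cot (Real.pi * (j.val : ℂ) / N) =
      Complex.I * ∑ a : ZMod N, χ⁻¹ a + Complex.I * (2 / N) *
        (gaussSum χ⁻¹ ZMod.stdAddChar * ∑ j : ZMod N, χ j * (j.val : ℂ)) := by
    have h1 : ∀ a : ZMod N, χ⁻¹ a * Complex.cot (Real.pi * (a.val : ℂ) / N) =
        Complex.I * χ⁻¹ a + Complex.I * (2 / N) *
          ∑ j : ZMod N, (j.val : ℂ) * (χ⁻¹ a * ZMod.stdAddChar (j * a)) := by
      intro a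
      by_cases ha : a = 0
      · rw [ha, MulChar.map_nonunit _ not_isUnit_zero]
        simp
      · rw [bern_cot ha]
        have : ∑ j : ZMod N, (j.val : ℂ) * (χ⁻¹ a * ZMod.stdAddChar (j * a)) =
            χ⁻¹ a * ∑ j : ZMod N, (j.val : ℂ) * ZMod.stdAddChar (a * j) := by
          rw [mul_sum]
          exact sum_congr rfl fun j _ => by rw [mul_comm j a]; ring
        rw [this]
        ring
    rw [sum_congr rfl fun a _ => h1 a, sum_add_distrib, ← mul_sum, ← mul_sum, sum_comm]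
    congr 2
    rw [mul_sum]
    refine sum_congr rfl fun j _ => ?_
    rw [← mul_sum]
    have h2 := gaussSum_mulShift_of_isPrimitive (ZMod.stdAddChar (N := N)) hprim' j
    rw [inv_inv] at h2
    have h3 : gaussSum χ⁻¹ (ZMod.stdAddChar.mulShift j) =
        ∑ a : ZMod N, χ⁻¹ a * ZMod.stdAddChar (j * a) := by
      simp only [gaussSum, AddChar.mulShift_apply]
    rw [← h3, h2]
    ring
  rw [key, h0, MulChar.sum_eq_zero_of_ne_one hne]
  ring

/-- the statement of the module `Bern`, from the statement of the module `Cot` -/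
theorem sum_val_ne_zero_of_cot
    (hcot : ∀ (N : ℕ) [NeZero N], 1 < N → ∀ χ : DirichletCharacter ℂ N, χ.Odd →
      DirichletCharacter.LFunction χ 1 =
        (Real.pi : ℂ) / (2 * N) * ∑ j : ZMod N, χ j * Complex.cot (Real.pi * (j.val : ℂ) / N))
    {N : ℕ} [NeZero N] (χ : DirichletCharacter ℂ N) (hodd : χ.Odd)
    (hprim : χ.IsPrimitive) : ∑ j : ZMod N, χ j * (j.val : ℂ) ≠ 0 :=
  sum_val_ne_zero_of χ hodd hprim fun h1 h2 => hcot N h1 χ⁻¹ h2

end Fermat950
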