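import Mathlib

/-!
# Nonvanishing of the first Bernoulli sum for odd characters of prime power modulus
(module `BernPP`; the primitive case, module `Bern`, is a hypothesis here)
-/

open Finset

namespace Fermat950

theorem bernpp_sum_val {M : Type} [AddCommMonoid M] (N : ℕ) [NeZero N] (h : ℕ → M) :
    ∑ x : ZMod N, h x.val = ∑ i ∈ range N, h i := by
  refine Finset.sum_nbij' (fun x => x.val) (fun i => (i : ZMod N)) ?_ ?_ ?_ ?_ ?_
  · intro x _
    exact mem_range.2 (ZMod.val_lt x)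
  · intro i _
    exact mem_univ _
  · intro x _
    exact ZMod.natCast_zmod_val x
  · intro i hi
    exact ZMod.val_natCast_of_lt (mem_range.1 hi)
  · intro x _
    rfl

theorem bernpp_range (g : ℕ → ℂ) (f : ℕ) (hper : ∀ b t, g (f * t + b) = g b)
    (h0 : ∑ b ∈ range f, g b = 0) (T : ℕ) :
    ∑ i ∈ range (f * T), g i * (i : ℂ) = T * ∑ b ∈ range f, g b * (b : ℂ) := by
  induction T with
  | zero => simp
  | succ T ih =>
    rw [Nat.mul_succ, Finset.sum_range_add, ih]
    have h1 : ∑ x ∈ range f, g (f * T + x) * ((f * T + x : ℕ) : ℂ)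
        = (f * T : ℂ) * ∑ b ∈ range f, g b + ∑ b ∈ range f, g b * (b : ℂ) := by
      rw [mul_sum, ← sum_add_distrib]
      refine Finset.sum_congr rfl fun x _ => ?_
      rw [hper]
      push_cast
      ring
    rw [h1, h0]
    push_cast
    ring

/-- Nonvanishing for all odd characters of prime power modulus, given the primitive case. -/
theorem sum_val_ne_zero_pow_of
    (hB : ∀ (N : ℕ) [NeZero N] (χ : DirichletCharacter ℂ N), χ.Odd → χ.IsPrimitive →
      ∑ j : ZMod N, χ j * (j.val : ℂ) ≠ 0)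
    (l e : ℕ) [Fact l.Prime] (he : 0 < e)
    (χ : DirichletCharacter ℂ (l ^ e)) (hodd : χ.Odd) :
    ∑ j : ZMod (l ^ e), χ j * (j.val : ℂ) ≠ 0 := by
  have hl : l.Prime := Fact.out
  have : NeZero (l ^ e) := ⟨(pow_pos hl.pos e).ne'⟩
  set f := χ.conductor with hf
  have hfd : f ∣ l ^ e := χ.conductor_dvd_level
  have hf0 : f ≠ 0 := χ.conductor_ne_zero
  have : NeZero f := ⟨hf0⟩
  have hχ1 : χ ≠ 1 := by
    intro h
    have h1 : χ (-1) = -1 := hodd
    rw [h, MulChar.one_apply isUnit_one.neg] at h1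
    norm_num at h1
  have hf1 : f ≠ 1 := fun h => hχ1 ((χ.eq_one_iff_conductor_eq_one).2 h)
  obtain ⟨m, -, hm⟩ := (Nat.dvd_prime_pow hl).1 hfd
  have hm0 : m ≠ 0 := by
    rintro rfl
    exact hf1 (by rw [hm, pow_zero])
  have hlf : l ∣ f := by rw [hm]; exact dvd_pow_self l hm0
  set χ₀ := χ.primitiveCharacter with hχ₀
  -- values
  have hval : ∀ i : ℕ, χ (i : ZMod (l ^ e)) = χ₀ (i : ZMod f) := by
    intro i
    by_cases hi : Nat.Coprime i l
    · have hc : IsCoprime (i : ℤ) ((l ^ e : ℕ) : ℤ) := by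
        rw [Nat.isCoprime_iff_coprime]
        exact Nat.Coprime.pow_right e hi
      have h1 := χ.primitiveCharacter_apply_of_isCoprime hc
      push_cast at h1
      exact h1.symm
    · have h1 : ¬ IsUnit ((i : ℕ) : ZMod (l ^ e)) := by
        rw [ZMod.isUnit_iff_coprime]
        intro h
        exact hi ((Nat.coprime_pow_right_iff he i l).1 h)
      have h2 : ¬ IsUnit ((i : ℕ) : ZMod f) := by
        rw [ZMod.isUnit_iff_coprime]
        intro h
        exact hi (Nat.Coprime.coprime_dvd_right hlf h)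
      rw [MulChar.map_nonunit _ h1, MulChar.map_nonunit _ h2]
  have hodd₀ : χ₀.Odd := by
    have h1 : IsCoprime (-1 : ℤ) ((l ^ e : ℕ) : ℤ) := (isCoprime_one_left).neg_left
    have h2 := χ.primitiveCharacter_apply_of_isCoprime h1
    push_cast at h2
    show χ₀ (-1) = -1
    rw [hχ₀, h2]
    exact hodd
  have hχ₀1 : χ₀ ≠ 1 := by
    intro h
    have h1 : χ₀ (-1) = -1 := hodd₀
    rw [h, MulChar.one_apply isUnit_one.neg] at h1
    norm_num at h1
  have hne := hB f χ₀ hodd₀ χ.primitiveCharacter_isPrimitive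
  obtain ⟨T, hT⟩ := hfd
  have hT0 : T ≠ 0 := by
    rintro rfl
    rw [mul_zero] at hT
    exact (pow_pos hl.pos e).ne' hT
  set g : ℕ → ℂ := fun i => χ₀ (i : ZMod f) with hg
  have e1 : ∑ j : ZMod (l ^ e), χ j * (j.val : ℂ) = ∑ i ∈ range (l ^ e), g i * (i : ℂ) := by
    rw [← bernpp_sum_val (l ^ e) (fun i => g i * (i : ℂ))]
    refine Finset.sum_congr rfl fun x _ => ?_
    rw [hg]
    simp only
    rw [← hval x.val, ZMod.natCast_zmod_val]
  have e2 : ∑ j : ZMod f, χ₀ j * (j.val : ℂ) = ∑ i ∈ range f, g i * (i : ℂ) := by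
    rw [← bernpp_sum_val f (fun i => g i * (i : ℂ))]
    refine Finset.sum_congr rfl fun x _ => ?_
    rw [hg]
    simp only
    rw [ZMod.natCast_zmod_val]
  have e3 : ∑ i ∈ range f, g i = 0 := by
    rw [← MulChar.sum_eq_zero_of_ne_one hχ₀1, ← bernpp_sum_val f (fun i => g i)]
    refine Finset.sum_congr rfl fun x _ => ?_
    rw [hg]
    simp only
    rw [ZMod.natCast_zmod_val]
  rw [e1, hT, bernpp_range g f ?_ e3 T, ← e2]
  · exact mul_ne_zero (Nat.cast_ne_zero.2 hT0) hne
  · intro b t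
    rw [hg]
    simp

end Fermat950
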