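import Mathlib

/-!
# Characters of Fermat varieties over finite fields (MP_950c68_ag)

Notation.  `k` is a finite field with `q` elements, `χ : k → ℂ` a multiplicative character of
exact order `m` (so `m ∣ q - 1`), `ψ` a nontrivial additive character.  The primitive cohomology
`H^r` of the Fermat variety `X^r_m : X_0^m + ... + X_{r+1}^m = 0` is the direct sum of
one-dimensional eigenspaces `V(a)` of the group `μ_m^{r+2}`, indexed by the
`a = (a_0, ..., a_{r+1})` with `a_i ∈ ℤ/m` nonzero and `∑ a_i = 0`.  Up to permutation of the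
coordinates `a` is a multiset.
-/

namespace Fermat950

variable {k : Type} [Field k] [Fintype k]

/-- The product of the Gauss sums `g(χ^{a_i})`. -/
noncomputable def gaussProd {m : ℕ} {R : Type} [CommRing R] (χ : MulChar k R) (ψ : AddChar k R)
    (a : Multiset (ZMod m)) : R :=
  (a.map fun x => gaussSum (χ ^ x.val) ψ).prod

/-- Weil's formula for the eigenvalue of the `q`-power Frobenius on `V(a) ⊂ H^r(X^r_m)`,
`r = |a| - 2`: it is the Jacobi sum `(-1)^r q⁻¹ ∏ g(χ^{a_i})`. -/
noncomputable def frobEig {m : ℕ} (χ : MulChar k ℂ) (ψ : AddChar k ℂ) (a : Multiset (ZMod m)) : ℂ :=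
  (-1) ^ (Multiset.card a) * (Fintype.card k : ℂ)⁻¹ * gaussProd χ ψ a

/-- `V(a) ⊂ H^{2j}(X^{2j}_m)`, `2j = |a| - 2`, consists of Tate classes over some finite
extension of `k`: a power `F^n` of the Frobenius acts on it as `q^{nj}`. -/
def TateChar {m : ℕ} (χ : MulChar k ℂ) (ψ : AddChar k ℂ) (a : Multiset (ZMod m)) : Prop :=
  ∃ n : ℕ, 0 < n ∧
    frobEig χ ψ a ^ n = (Fintype.card k : ℂ) ^ (n * (Multiset.card a / 2 - 1))

/-- The standard characters of Aoki and Shioda: `(c, c+m/d, ..., c+(d-1)m/d, -dc)`, with `m/2`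
added if `d = 2`. -/
def stdChar {m : ℕ} (d : ℕ) (c : ZMod m) : Multiset (ZMod m) :=
  (-((d : ZMod m) * c)) ::ₘ
    ((Multiset.range d).map (fun i : ℕ => c + (i : ZMod m) * ((m / d : ℕ) : ZMod m)) +
      (if d = 2 then {((m / 2 : ℕ) : ZMod m)} else 0))

/-- The characters `a` obtained from explicit algebraic classes by the inductive structure of
Fermat varieties. -/
inductive Alg {m : ℕ} (χ : MulChar k ℂ) (ψ : AddChar k ℂ) : Multiset (ZMod m) → Prop
  /-- points on `X^0_m` (linear subspaces) -/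
  | pair (c : ZMod m) : c ≠ 0 → Alg χ ψ {c, -c}
  /-- divisors on the square of the Fermat curve (Tate 1966) -/
  | curves (a b : Multiset (ZMod m)) : Multiset.card a = 3 → Multiset.card b = 3 →
      0 ∉ a → 0 ∉ b → a.sum = 0 → b.sum = 0 → TateChar χ ψ (a + b) → Alg χ ψ (a + b)
  /-- the standard cycles of Aoki and Shioda -/
  | dist (d : ℕ) (c : ZMod m) : d.Prime → d ∣ m → (d : ZMod m) * c ≠ 0 → Alg χ ψ (stdChar d c)
  /-- `V(a) ⊗ V(b)(-1) ≅ V(a+b)` (Shioda-Katsura) -/
  | join (a b : Multiset (ZMod m)) : Alg χ ψ a → Alg χ ψ b → Alg χ ψ (a + b)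
  /-- the same isomorphism for `X^0`, in the other direction -/
  | cancel (c : ZMod m) (a : Multiset (ZMod m)) : c ≠ 0 → a ≠ 0 → Alg χ ψ ({c, -c} + a) →
      Alg χ ψ a

end Fermat950
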