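import Mathlib
import Pool.Agent.Lib.MP_950c68_ag.F.Defs

open Finset

namespace Fermat950

variable {k : Type} [Field k] [Fintype k] {m : ℕ}

section prod
variable {R : Type} [CommRing R] (χ : MulChar k R) (ψ : AddChar k R)

theorem gaussProd_zero : gaussProd χ ψ (0 : Multiset (ZMod m)) = 1 := by
  simp [gaussProd]

theorem gaussProd_add (a b : Multiset (ZMod m)) :
    gaussProd χ ψ (a + b) = gaussProd χ ψ a * gaussProd χ ψ b := by
  simp [gaussProd]

theorem gaussProd_cons (x : ZMod m) (b : Multiset (ZMod m)) :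
    gaussProd χ ψ (x ::ₘ b) = gaussSum (χ ^ x.val) ψ * gaussProd χ ψ b := by
  simp [gaussProd]

theorem gaussProd_singleton (x : ZMod m) :
    gaussProd χ ψ {x} = gaussSum (χ ^ x.val) ψ := by
  simp [gaussProd]

end prod

variable (χ : MulChar k ℂ) (ψ : AddChar k ℂ)

/-- The product of Gauss sums is pure. -/
def Pure (a : Multiset (ZMod m)) : Prop :=
  ∃ N : ℕ, 0 < N ∧ gaussProd χ ψ a ^ (2 * N) = (Fintype.card k : ℂ) ^ (N * Multiset.card a)

variable {χ ψ}

theorem card_ne_zero' : (Fintype.card k : ℂ) ≠ 0 := by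
  exact_mod_cast Fintype.card_ne_zero

theorem Pure.zero : Pure χ ψ (0 : Multiset (ZMod m)) := ⟨1, one_pos, by simp [gaussProd_zero]⟩

theorem Pure.add {a b : Multiset (ZMod m)} (ha : Pure χ ψ a) (hb : Pure χ ψ b) :
    Pure χ ψ (a + b) := by
  obtain ⟨N, hN, h1⟩ := ha
  obtain ⟨M, hM, h2⟩ := hb
  refine ⟨N * M, Nat.mul_pos hN hM, ?_⟩
  calc gaussProd χ ψ (a + b) ^ (2 * (N * M))
      = (gaussProd χ ψ a ^ (2 * N)) ^ M * (gaussProd χ ψ b ^ (2 * M)) ^ N := by
        rw [gaussProd_add]; ring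
    _ = _ := by rw [h1, h2, Multiset.card_add]; ring

theorem tateChar_iff_pure {a : Multiset (ZMod m)} (ha : a ≠ 0) (hev : Even (Multiset.card a)) :
    TateChar χ ψ a ↔ Pure χ ψ a := by
  have hq : (Fintype.card k : ℂ) ≠ 0 := card_ne_zero'
  obtain ⟨j, hj⟩ := hev
  have hj0 : 0 < j := by
    rcases Nat.eq_zero_or_pos j with h | h
    · exact absurd (Multiset.card_eq_zero.1 (by omega)) ha
    · exact h
  obtain ⟨i, rfl⟩ : ∃ i, j = i + 1 := ⟨j - 1, by omega⟩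
  have hc2 : Multiset.card a / 2 - 1 = i := by omega
  have hf : frobEig χ ψ a = (Fintype.card k : ℂ)⁻¹ * gaussProd χ ψ a := by
    rw [frobEig, Even.neg_one_pow ⟨i + 1, hj⟩, one_mul]
  constructor
  · rintro ⟨n, hn, h⟩
    refine ⟨n, hn, ?_⟩
    rw [hf, hc2, mul_pow, inv_pow, inv_mul_eq_iff_eq_mul₀ (pow_ne_zero _ hq), ← pow_add] at h
    rw [mul_comm 2 n, pow_mul, h, ← pow_mul, hj]
    congr 1
    ring
  · rintro ⟨N, hN, h⟩
    refine ⟨2 * N, by omega, ?_⟩
    rw [hf, hc2, mul_pow, inv_pow, inv_mul_eq_iff_eq_mul₀ (pow_ne_zero _ hq), ← pow_add, h, hj]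
    congr 1
    ring

section order
set_option linter.unusedSectionVars false
variable (hχ : orderOf χ = m) (hψ : ψ ≠ 1)
include hχ

theorem chi_pow_mod (r : ℕ) : χ ^ r = χ ^ (r % m) := by
  rw [← hχ, pow_mod_orderOf]

theorem chi_pow_ne_one [NeZero m] {x : ZMod m} (hx : x ≠ 0) : χ ^ x.val ≠ 1 := by
  intro h
  have h1 := orderOf_dvd_of_pow_eq_one h
  rw [hχ] at h1
  have h2 := Nat.eq_zero_of_dvd_of_lt h1 (ZMod.val_lt x)
  exact hx ((ZMod.val_eq_zero x).1 h2)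

theorem chi_pow_neg [NeZero m] (x : ZMod m) : χ ^ (-x).val = (χ ^ x.val)⁻¹ := by
  rw [eq_inv_iff_mul_eq_one, ← pow_add]
  have : m ∣ (-x).val + x.val := by
    rw [← ZMod.natCast_eq_zero_iff]
    push_cast
    simp
  obtain ⟨c, hc⟩ := this
  rw [hc, pow_mul, ← hχ, pow_orderOf_eq_one, one_pow]

theorem chi_pow_mul [NeZero m] (r : ℕ) (x : ZMod m) :
    χ ^ ((r : ZMod m) * x).val = (χ ^ x.val) ^ r := by
  rw [← pow_mul, ZMod.val_mul, ← chi_pow_mod hχ, ZMod.val_natCast]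
  rw [chi_pow_mod hχ (x.val * r), chi_pow_mod hχ (r % m * x.val)]
  congr 1
  rw [Nat.mod_mul_mod, mul_comm]

include hψ

theorem gauss_mul_neg [NeZero m] {x : ZMod m} (hx : x ≠ 0) :
    (gaussSum (χ ^ x.val) ψ * gaussSum (χ ^ (-x).val) ψ) ^ 2 = (Fintype.card k : ℂ) ^ 2 := by
  have hprim : ψ.IsPrimitive := AddChar.IsPrimitive.of_ne_one hψ
  have h1 := gaussSum_mul_gaussSum_eq_card (chi_pow_ne_one hχ hx) hprim
  have h2 := mul_gaussSum_inv_eq_gaussSum (χ ^ x.val)⁻¹ ψ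
  rw [chi_pow_neg hχ, ← h2]
  have h3 : ((χ ^ x.val)⁻¹ (-1)) ^ 2 = 1 := by
    rw [← map_pow]; simp
  calc (gaussSum (χ ^ x.val) ψ * ((χ ^ x.val)⁻¹ (-1) * gaussSum (χ ^ x.val)⁻¹ ψ⁻¹)) ^ 2
      = ((χ ^ x.val)⁻¹ (-1)) ^ 2 *
        (gaussSum (χ ^ x.val) ψ * gaussSum (χ ^ x.val)⁻¹ ψ⁻¹) ^ 2 := by ring
    _ = _ := by rw [h3, h1, one_mul]

theorem gauss_ne_zero [NeZero m] {x : ZMod m} (hx : x ≠ 0) : gaussSum (χ ^ x.val) ψ ≠ 0 := by
  intro h
  have := gauss_mul_neg hχ hψ hx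
  rw [h, zero_mul, zero_pow two_ne_zero] at this
  exact pow_ne_zero 2 card_ne_zero' this.symm

/-- invariance of the Gauss sums (up to roots of unity) under the Frobenius -/
theorem gauss_frob [NeZero m] (p : ℕ) [Fact p.Prime] [CharP k p] (x : ZMod m) :
    gaussSum (χ ^ ((p : ZMod m) * x).val) ψ ^ m = gaussSum (χ ^ x.val) ψ ^ m := by
  classical
  have hprim : ψ.IsPrimitive := AddChar.IsPrimitive.of_ne_one hψ
  rw [chi_pow_mul hχ]
  set φ := χ ^ x.val with hφ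
  -- the Frobenius automorphism
  let σ : k ≃+* k := RingEquiv.ofBijective (frobenius k p)
    ⟨(frobenius k p).injective, Finite.surjective_of_injective (frobenius k p).injective⟩
  have hσ : ∀ y, σ y = y ^ p := fun y => rfl
  let ψ' : AddChar k ℂ := ψ.compAddMonoidHom (σ.symm : k →+* k).toAddMonoidHom
  have hψ' : ∀ y, ψ' y = ψ (σ.symm y) := fun y => rfl
  have h1 : gaussSum (φ ^ p) ψ = gaussSum φ ψ' := by
    unfold gaussSum
    refine Fintype.sum_equiv σ.toEquiv _ _ fun y => ?_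
    have : (σ.toEquiv y) = σ y := rfl
    rw [this, hψ', RingEquiv.symm_apply_apply, hσ, map_pow, MulChar.pow_apply' _ (Fact.out : p.Prime).ne_zero]
  obtain ⟨b, hb⟩ : ∃ b : k, ψ.mulShift b = ψ' := by
    have hinj : Function.Injective (fun b : k => ψ.mulShift b) :=
      AddChar.to_mulShift_inj_of_isPrimitive hprim
    have hc : Fintype.card k = Fintype.card (AddChar k ℂ) := (AddChar.card_eq).symm
    exact ((Fintype.bijective_iff_injective_and_card _).2 ⟨hinj, hc⟩).2 ψ'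
  have hb0 : b ≠ 0 := by
    rintro rfl
    apply hψ
    ext y
    have h3 := DFunLike.congr_fun hb (σ y)
    rw [hψ', RingEquiv.symm_apply_apply] at h3
    rw [← h3]
    simp [AddChar.mulShift_apply]
  rw [h1, ← hb]
  have h4 := gaussSum_mulShift_eq φ ψ (Units.mk0 b hb0)
  rw [Units.val_mk0] at h4
  rw [h4, mul_pow]
  have h5 : (φ⁻¹ b) ^ m = 1 := by
    have h6 : χ ^ m = 1 := by rw [← hχ, pow_orderOf_eq_one]
    rw [← MulChar.pow_apply' _ (NeZero.ne m), inv_pow, hφ, ← pow_mul, mul_comm, pow_mul, h6,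
      one_pow, inv_one]
    exact MulChar.one_apply (by simpa using hb0)
  rw [h5, one_mul]

theorem gauss_frob_pow [NeZero m] (p : ℕ) [Fact p.Prime] [CharP k p] (i : ℕ) (x : ZMod m) :
    gaussSum (χ ^ ((p : ZMod m) ^ i * x).val) ψ ^ m = gaussSum (χ ^ x.val) ψ ^ m := by
  induction i with
  | zero => simp
  | succ i ih =>
    rw [pow_succ', mul_assoc, gauss_frob hχ hψ, ih]

theorem pure_pair [NeZero m] (p : ℕ) [Fact p.Prime] [CharP k p] (i : ℕ) {x : ZMod m}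
    (hx : x ≠ 0) : Pure χ ψ {x, -((p : ZMod m) ^ i * x)} := by
  refine ⟨m, NeZero.pos m, ?_⟩
  have h0 : gaussProd χ ψ {x, -((p : ZMod m) ^ i * x)} =
      gaussSum (χ ^ x.val) ψ * gaussSum (χ ^ (-((p : ZMod m) ^ i * x)).val) ψ := by
    simp [gaussProd]
  have h1 : -((p : ZMod m) ^ i * x) = (p : ZMod m) ^ i * (-x) := by ring
  rw [h0, h1, mul_comm 2 m, pow_mul, mul_pow, gauss_frob_pow hχ hψ, ← mul_pow, ← pow_mul,
    mul_comm m 2, pow_mul, gauss_mul_neg hχ hψ hx, ← pow_mul]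
  congr 1
  simp [mul_comm]

theorem pure_single [NeZero m] (p : ℕ) [Fact p.Prime] [CharP k p] (i : ℕ)
    (hi : (p : ZMod m) ^ i = -1) {x : ZMod m} (hx : x ≠ 0) : Pure χ ψ {x} := by
  refine ⟨2 * m, by have := NeZero.pos m; omega, ?_⟩
  have h1 := gauss_frob_pow hχ hψ p i x
  rw [hi, neg_one_mul] at h1
  have h2 := gauss_mul_neg hχ hψ hx
  have h3 : (gaussSum (χ ^ x.val) ψ * gaussSum (χ ^ (-x).val) ψ) ^ m
      = gaussSum (χ ^ x.val) ψ ^ (2 * m) := by
    rw [mul_pow, h1]; ring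
  rw [gaussProd_singleton, Multiset.card_singleton, mul_one]
  calc gaussSum (χ ^ x.val) ψ ^ (2 * (2 * m)) = (gaussSum (χ ^ x.val) ψ ^ (2 * m)) ^ 2 := by
        rw [← pow_mul]; congr 1; ring
    _ = ((gaussSum (χ ^ x.val) ψ * gaussSum (χ ^ (-x).val) ψ) ^ 2) ^ m := by
        rw [← h3]; ring
    _ = _ := by rw [h2]; ring

theorem pure_neg [NeZero m] {a : Multiset (ZMod m)} (h0 : 0 ∉ a) (ha : Pure χ ψ a) :
    Pure χ ψ (a.map Neg.neg) := by
  have key : ∀ b : Multiset (ZMod m), 0 ∉ b → (gaussProd χ ψ b * gaussProd χ ψ (b.map Neg.neg)) ^ 2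
      = (Fintype.card k : ℂ) ^ (2 * Multiset.card b) := by
    intro b
    induction b using Multiset.induction_on with
    | empty => intro _; simp [gaussProd_zero]
    | cons x b ih =>
      intro hb
      have hx : x ≠ 0 := fun h => hb (by simp [h])
      have hb' : 0 ∉ b := fun h => hb (by simp [h])
      rw [Multiset.map_cons, gaussProd_cons, gaussProd_cons, Multiset.card_cons]
      have := gauss_mul_neg hχ hψ hx
      calc _ = (gaussSum (χ ^ x.val) ψ * gaussSum (χ ^ (-x).val) ψ) ^ 2 *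
            (gaussProd χ ψ b * gaussProd χ ψ (b.map Neg.neg)) ^ 2 := by ring
        _ = _ := by rw [this, ih hb', ← pow_add]; congr 1; ring
  obtain ⟨N, hN, h⟩ := ha
  refine ⟨N, hN, ?_⟩
  have h2 := key a h0
  have h3 : (gaussProd χ ψ a) ^ (2 * N) * gaussProd χ ψ (a.map Neg.neg) ^ (2 * N) =
      (Fintype.card k : ℂ) ^ (N * Multiset.card a) * (Fintype.card k : ℂ) ^ (N * Multiset.card a) := by
    calc _ = ((gaussProd χ ψ a * gaussProd χ ψ (a.map Neg.neg)) ^ 2) ^ N := by ring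
      _ = _ := by rw [h2]; ring
  rw [h] at h3
  rw [Multiset.card_map]
  exact mul_left_cancel₀ (pow_ne_zero _ card_ne_zero') h3

end order

end Fermat950
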