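import Mathlib
import Pool.Agent.Lib.MP_950c68_ag.F.Defs

open Finset

namespace Fermat950

section fiber
variable {m d : ℕ} [NeZero m]

/-- the arithmetic progression `c + i m/d` is the fibre of multiplication by `d` -/
theorem fiber_eq (hd : d ∣ m) (c : ZMod m) :
    (Multiset.range d).map (fun i : ℕ => c + (i : ZMod m) * ((m / d : ℕ) : ZMod m)) =
      (univ.filter (fun y : ZMod m => (d : ZMod m) * y = (d : ZMod m) * c)).val := by
  classical
  have hm : 0 < m := NeZero.pos m
  obtain ⟨r, hr⟩ := hd
  have hd0 : 0 < d := by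
    rcases Nat.eq_zero_or_pos d with h | h
    · subst h; omega
    · exact h
  have hr0 : 0 < r := by
    rcases Nat.eq_zero_or_pos r with h | h
    · subst h; omega
    · exact h
  have hmd : m / d = r := by rw [hr]; exact Nat.mul_div_cancel_left r hd0
  rw [hmd]
  have hinj : Set.InjOn (fun i : ℕ => c + (i : ZMod m) * ((r : ℕ) : ZMod m)) (range d : Set ℕ) := by
    intro i hi j hj hij
    simp only [coe_range, Set.mem_Iio] at hi hj
    have h1 : ((i * r : ℕ) : ZMod m) = ((j * r : ℕ) : ZMod m) := by
      push_cast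
      exact add_left_cancel hij
    rw [ZMod.natCast_eq_natCast_iff'] at h1
    have hi' : i * r < m := by rw [hr]; exact Nat.mul_lt_mul_of_pos_right hi hr0
    have hj' : j * r < m := by rw [hr]; exact Nat.mul_lt_mul_of_pos_right hj hr0
    rw [Nat.mod_eq_of_lt hi', Nat.mod_eq_of_lt hj'] at h1
    exact Nat.eq_of_mul_eq_mul_right hr0 h1
  have himg : (range d).image (fun i : ℕ => c + (i : ZMod m) * ((r : ℕ) : ZMod m)) =
      univ.filter (fun y : ZMod m => (d : ZMod m) * y = (d : ZMod m) * c) := by
    ext y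
    simp only [mem_image, mem_range, mem_filter, mem_univ, true_and]
    constructor
    · rintro ⟨i, _, rfl⟩
      have : (d : ZMod m) * ((i : ZMod m) * (r : ZMod m)) = 0 := by
        have h0 : ((d * (i * r) : ℕ) : ZMod m) = 0 := by
          rw [ZMod.natCast_eq_zero_iff]
          exact ⟨i, by rw [hr]; ring⟩
        rw [← h0]; push_cast; ring
      rw [mul_add, this, add_zero]
    · intro h
      have h1 : (d : ZMod m) * (y - c) = 0 := by rw [mul_sub, h, sub_self]
      set z := y - c with hz
      have h2 : ((d * z.val : ℕ) : ZMod m) = 0 := by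
        push_cast; rw [ZMod.natCast_zmod_val]; exact h1
      rw [ZMod.natCast_eq_zero_iff] at h2
      have h3 : r ∣ z.val := by
        have h2' : d * r ∣ d * z.val := by rw [← hr]; exact h2
        exact Nat.dvd_of_mul_dvd_mul_left hd0 h2'
      obtain ⟨i, hi⟩ := h3
      refine ⟨i, ?_, ?_⟩
      · have h4 := ZMod.val_lt z
        have h4' : i * r < d * r := by rw [← hr, mul_comm i r, ← hi]; exact h4
        exact lt_of_mul_lt_mul_right h4' (Nat.zero_le r)
      · have h5 : (z : ZMod m) = ((z.val : ℕ) : ZMod m) := (ZMod.natCast_zmod_val z).symm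
        rw [hi] at h5
        push_cast at h5
        have : y = c + z := by rw [hz]; ring
        rw [this, h5]; ring
  rw [← himg, Finset.image_val_of_injOn hinj]
  rfl

theorem fiber_mul (c : ZMod m) (t : (ZMod m)ˣ) (f : ZMod m → ℕ) :
    ∑ y ∈ univ.filter (fun y : ZMod m => (d : ZMod m) * y = (d : ZMod m) * c), f (t * y) =
      ∑ y ∈ univ.filter (fun y : ZMod m => (d : ZMod m) * y = (d : ZMod m) * (t * c)), f y := by
  classical
  refine Finset.sum_bij' (fun y _ => (t : ZMod m) * y) (fun y _ => ((t⁻¹ : (ZMod m)ˣ) : ZMod m) * y)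
    ?_ ?_ ?_ ?_ ?_
  · intro y hy
    simp only [mem_filter, mem_univ, true_and] at hy ⊢
    rw [mul_left_comm, hy]; ring
  · intro y hy
    simp only [mem_filter, mem_univ, true_and] at hy ⊢
    rw [mul_left_comm, hy]
    rw [← mul_assoc, mul_left_comm, ← mul_assoc, ← mul_assoc]
    simp
  · intro y _; simp
  · intro y _; simp
  · intro y _; rfl

/-- the distribution relation -/
theorem fiber_val_sum (hd : d ∣ m) (c : ZMod m) :
    2 * ∑ y ∈ univ.filter (fun y : ZMod m => (d : ZMod m) * y = (d : ZMod m) * c), y.val + m =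
      2 * ((d : ZMod m) * c).val + m * d := by
  classical
  have hm : 0 < m := NeZero.pos m
  obtain ⟨r, hr⟩ := hd
  have hd0 : 0 < d := by
    rcases Nat.eq_zero_or_pos d with h | h
    · subst h; omega
    · exact h
  have hr0 : 0 < r := by
    rcases Nat.eq_zero_or_pos r with h | h
    · subst h; omega
    · exact h
  have hmd : m / d = r := by rw [hr]; exact Nat.mul_div_cancel_left r hd0
  -- a representative of the fibre in [0, r)
  let s : ℕ := c.val % r
  have hs : s < r := Nat.mod_lt _ hr0
  have hsc : (d : ZMod m) * ((s : ℕ) : ZMod m) = (d : ZMod m) * c := by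
    have h1 : c = ((c.val : ℕ) : ZMod m) := (ZMod.natCast_zmod_val c).symm
    have h2 : c.val = s + r * (c.val / r) := (Nat.mod_add_div _ _).symm
    have h3 : (d : ZMod m) * (r : ZMod m) = 0 := by
      rw [← Nat.cast_mul, ← hr]; simp
    calc (d : ZMod m) * ((s : ℕ) : ZMod m)
        = (d : ZMod m) * ((s : ℕ) : ZMod m) + ((d : ZMod m) * (r : ZMod m)) * ((c.val / r : ℕ) : ZMod m) := by
          rw [h3]; ring
      _ = (d : ZMod m) * ((s + r * (c.val / r) : ℕ) : ZMod m) := by push_cast; ring
      _ = _ := by rw [← h2, ZMod.natCast_zmod_val]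
  have hval : ((d : ZMod m) * c).val = d * s := by
    rw [← hsc, ← Nat.cast_mul, ZMod.val_natCast]
    exact Nat.mod_eq_of_lt (by rw [hr]; exact Nat.mul_lt_mul_of_pos_left hs hd0)
  have h4 : ∑ y ∈ univ.filter (fun y : ZMod m => (d : ZMod m) * y = (d : ZMod m) * c), y.val =
      ∑ i ∈ range d, (s + i * r) := by
    have h5 := fiber_eq (m := m) (d := d) ⟨r, hr⟩ ((s : ℕ) : ZMod m)
    rw [hsc] at h5
    have h6 : ∑ y ∈ univ.filter (fun y : ZMod m => (d : ZMod m) * y = (d : ZMod m) * c), y.val =
        (((univ.filter (fun y : ZMod m => (d : ZMod m) * y = (d : ZMod m) * c)).val).map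
          (fun y : ZMod m => y.val)).sum := rfl
    have h7 : ∑ i ∈ range d, (s + i * r) = ((Multiset.range d).map (fun i : ℕ => s + i * r)).sum :=
      rfl
    rw [h6, h7, ← h5, Multiset.map_map, hmd]
    congr 1
    refine Multiset.map_congr rfl fun i hi => ?_
    rw [Multiset.mem_range] at hi
    simp only [Function.comp_apply]
    rw [← Nat.cast_mul, ← Nat.cast_add, ZMod.val_natCast]
    apply Nat.mod_eq_of_lt
    calc s + i * r < r + i * r := by omega
      _ = (i + 1) * r := by ring
      _ ≤ d * r := Nat.mul_le_mul_right r hi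
      _ = m := hr.symm
  rw [h4, hval, Finset.sum_add_distrib, Finset.sum_const, card_range, smul_eq_mul,
    ← Finset.sum_mul]
  have h6 := Finset.sum_range_id_mul_two d
  have h7 : 2 * (d * s + (∑ i ∈ range d, i) * r) + m = 2 * (d * s) + ((∑ i ∈ range d, i) * 2 * r + d * r) := by
    rw [hr]; ring
  rw [h7, h6]
  have h8 : d * (d - 1) + d = d * d := by
    obtain ⟨d', rfl⟩ : ∃ d', d = d' + 1 := ⟨d - 1, by omega⟩
    simp; ring
  have h9 : d * (d - 1) * r + d * r = d * d * r := by rw [← h8]; ring
  rw [h9, hr]; ring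

end fiber

end Fermat950
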