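import Mathlib
import Pool.Agent.Lib.MP_950c68_ag.F.Easy
import Pool.Agent.Lib.MP_950c68_ag.F.Lift

open Finset

namespace Fermat950

variable {k : Type} [Field k] [Fintype k] {m : ℕ} {χ : MulChar k ℂ} {ψ : AddChar k ℂ}

theorem Alg.zero_notMem [NeZero m] {a : Multiset (ZMod m)} (h : Alg χ ψ a) : 0 ∉ a := by
  induction h with
  | pair c hc => simp [hc, hc.symm]
  | curves a b _ _ h0a h0b _ _ _ => simp [h0a, h0b]
  | dist d c hd hdm hc =>
    intro h
    rw [stdChar, Multiset.mem_cons, Multiset.mem_add] at h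
    rcases h with h | h | h
    · exact hc (by rw [← neg_eq_zero]; exact h.symm)
    · rw [fiber_eq hdm c] at h
      simp only [mem_val, mem_filter, mem_univ, true_and, mul_zero] at h
      exact hc h.symm
    · split_ifs at h with h2
      · rw [Multiset.mem_singleton] at h
        have hm : 0 < m := NeZero.pos m
        subst h2
        have h3 := h.symm
        rw [ZMod.natCast_eq_zero_iff] at h3
        obtain ⟨r, hr⟩ := hdm
        have h4 : m / 2 = r := by omega
        have h5 := Nat.le_of_dvd (by omega) h3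
        omega
      · simp at h
  | join a b _ _ iha ihb => simp [iha, ihb]
  | cancel c a _ _ _ ih =>
    intro h
    exact ih (by rw [Multiset.mem_add]; exact Or.inr h)

theorem half_neg [NeZero m] (h : 2 ∣ m) : -((m / 2 : ℕ) : ZMod m) = ((m / 2 : ℕ) : ZMod m) := by
  rw [neg_eq_iff_add_eq_zero, ← Nat.cast_add, ZMod.natCast_eq_zero_iff]
  obtain ⟨r, hr⟩ := h
  exact ⟨1, by omega⟩

theorem stdChar_neg [NeZero m] {d : ℕ} (hd : d ∣ m) (c : ZMod m) :
    (stdChar d c).map Neg.neg = stdChar d (-c) := by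
  classical
  unfold stdChar
  rw [Multiset.map_cons, Multiset.map_add]
  have h1 : -(-((d : ZMod m) * c)) = -((d : ZMod m) * (-c)) := by ring
  rw [h1, fiber_eq hd, fiber_eq hd]
  congr 1
  congr 1
  · have h2 : (univ.filter (fun y : ZMod m => (d : ZMod m) * y = (d : ZMod m) * -c)) =
        (univ.filter (fun y : ZMod m => (d : ZMod m) * y = (d : ZMod m) * c)).map
          ⟨Neg.neg, neg_injective⟩ := by
      ext y
      simp only [mem_filter, mem_univ, true_and, mem_map, Function.Embedding.coeFn_mk]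
      constructor
      · intro h
        exact ⟨-y, by rw [mul_neg, h]; ring, neg_neg y⟩
      · rintro ⟨z, hz, rfl⟩
        rw [mul_neg, hz]; ring
    rw [h2]
    rfl
  · split_ifs with h
    · rw [Multiset.map_singleton, half_neg (h ▸ hd)]
    · rfl

section neg
variable [NeZero m] (hχ : orderOf χ = m) (hψ : ψ ≠ 1)
include hχ hψ

theorem Alg.neg {a : Multiset (ZMod m)} (h : Alg χ ψ a) : Alg χ ψ (a.map Neg.neg) := by
  induction h with
  | pair c hc =>
    have : (({c, -c} : Multiset (ZMod m)).map Neg.neg) = {-c, -(-c)} := by simp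
    rw [this]
    exact Alg.pair (-c) (neg_ne_zero.2 hc)
  | curves a b ha hb h0a h0b sa sb ht =>
    rw [Multiset.map_add]
    have hab : a + b ≠ 0 := by
      intro h
      have := congrArg Multiset.card h
      rw [Multiset.card_add, ha, hb] at this
      simp at this
    have hev : Even (Multiset.card (a + b)) := by rw [Multiset.card_add, ha, hb]; exact ⟨3, rfl⟩
    have hneg0 : ∀ s : Multiset (ZMod m), 0 ∉ s → 0 ∉ s.map Neg.neg := by
      intro s hs h
      rw [Multiset.mem_map] at h
      obtain ⟨x, hx, hx0⟩ := h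
      exact hs (by rwa [← neg_eq_zero.1 hx0])
    have hnegs : ∀ s : Multiset (ZMod m), s.sum = 0 → (s.map Neg.neg).sum = 0 := by
      intro s hs
      rw [Multiset.sum_map_neg', hs, neg_zero]
    refine Alg.curves _ _ (by rw [Multiset.card_map, ha]) (by rw [Multiset.card_map, hb])
      (hneg0 _ h0a) (hneg0 _ h0b) (hnegs _ sa) (hnegs _ sb) ?_
    rw [← Multiset.map_add, tateChar_iff_pure]
    · exact pure_neg hχ hψ (by simp [h0a, h0b]) ((tateChar_iff_pure hab hev).1 ht)
    · intro h; exact hab (Multiset.map_eq_zero.1 h)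
    · rw [Multiset.card_map]; exact hev
  | dist d c hd hdm hc =>
    rw [stdChar_neg hdm]
    exact Alg.dist d (-c) hd hdm (by rw [mul_neg]; exact neg_ne_zero.2 hc)
  | join a b _ _ iha ihb => rw [Multiset.map_add]; exact Alg.join _ _ iha ihb
  | cancel c a hc ha _ ih =>
    refine Alg.cancel (-c) _ (neg_ne_zero.2 hc) (fun h => ha (Multiset.map_eq_zero.1 h)) ?_
    have : (({c, -c} : Multiset (ZMod m)) + a).map Neg.neg = {-c, -(-c)} + a.map Neg.neg := by
      rw [Multiset.map_add]; simp
    rwa [this] at ih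

omit hχ hψ in
theorem cancel_neg (b : Multiset (ZMod m)) (hb : 0 ∉ b) (a : Multiset (ZMod m)) (ha : a ≠ 0)
    (h : Alg χ ψ (a + (b + b.map Neg.neg))) : Alg χ ψ a := by
  induction b using Multiset.induction_on with
  | empty => simpa using h
  | cons x b ih =>
    have hx : x ≠ 0 := fun h => hb (by simp [h])
    have hb' : 0 ∉ b := fun h => hb (by simp [h])
    apply ih hb'
    apply Alg.cancel x _ hx
    · intro h0
      apply ha
      have := congrArg Multiset.card h0
      rw [Multiset.card_add, Multiset.card_zero] at this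
      exact Multiset.card_eq_zero.1 (by omega)
    · have : ({x, -x} : Multiset (ZMod m)) + (a + (b + b.map Neg.neg)) =
          a + ((x ::ₘ b) + (x ::ₘ b).map Neg.neg) := by
        rw [Multiset.map_cons, ← Multiset.singleton_add x b, ← Multiset.singleton_add (-x)]
        have : ({x, -x} : Multiset (ZMod m)) = {x} + {-x} := rfl
        rw [this]
        abel
      rw [this]; exact h

theorem alg_cancel {a b : Multiset (ZMod m)} (ha : a ≠ 0) (h1 : Alg χ ψ (a + b))
    (h2 : Alg χ ψ b) : Alg χ ψ a := by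
  apply cancel_neg b h2.zero_notMem a ha
  rw [← add_assoc]
  exact Alg.join _ _ h1 (h2.neg hχ hψ)

end neg

/-- the counting function -/
def cnt (a : Multiset (ZMod m)) : ZMod m → ℤ := fun x => (a.count x : ℤ)

theorem cnt_add (a b : Multiset (ZMod m)) : cnt (a + b) = cnt a + cnt b := by
  funext x; simp [cnt]

theorem cnt_zero : cnt (0 : Multiset (ZMod m)) = 0 := by
  funext x; simp [cnt]

theorem cnt_inj {a b : Multiset (ZMod m)} (h : cnt a = cnt b) : a = b := by
  ext x
  have := congrFun h x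
  unfold cnt at this
  exact_mod_cast this

variable (χ ψ) in
/-- the subgroup of relations -/
def relS : AddSubgroup (ZMod m → ℤ) :=
  AddSubgroup.closure ({v | ∃ b, Alg χ ψ b ∧ v = cnt b} ∪ {cnt {0}})

section mem
variable [NeZero m] (hχ : orderOf χ = m) (hψ : ψ ≠ 1)

theorem mem_relS {v : ZMod m → ℤ} (hv : v ∈ relS χ ψ) :
    ∃ (b c : Multiset (ZMod m)) (r : ℤ), (b = 0 ∨ Alg χ ψ b) ∧ (c = 0 ∨ Alg χ ψ c) ∧
      v = cnt b - cnt c + r • cnt {0} := by
  have hj : ∀ b c : Multiset (ZMod m), (b = 0 ∨ Alg χ ψ b) → (c = 0 ∨ Alg χ ψ c) →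
      (b + c = 0 ∨ Alg χ ψ (b + c)) := by
    rintro b c (rfl | hb) (rfl | hc)
    · simp
    · right; simpa using hc
    · right; simpa using hb
    · right; exact Alg.join _ _ hb hc
  induction hv using AddSubgroup.closure_induction with
  | mem x hx =>
    rcases hx with ⟨b, hb, rfl⟩ | hx
    · exact ⟨b, 0, 0, Or.inr hb, Or.inl rfl, by simp [cnt_zero]⟩
    · rw [Set.mem_singleton_iff] at hx
      exact ⟨0, 0, 1, Or.inl rfl, Or.inl rfl, by simp [hx, cnt_zero]⟩
  | zero => exact ⟨0, 0, 0, Or.inl rfl, Or.inl rfl, by simp⟩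
  | add x y _ _ hx hy =>
    obtain ⟨b, c, r, hb, hc, rfl⟩ := hx
    obtain ⟨b', c', r', hb', hc', rfl⟩ := hy
    refine ⟨b + b', c + c', r + r', hj _ _ hb hb', hj _ _ hc hc', ?_⟩
    rw [cnt_add, cnt_add, add_smul]; abel
  | neg x _ hx =>
    obtain ⟨b, c, r, hb, hc, rfl⟩ := hx
    refine ⟨c, b, -r, hc, hb, ?_⟩
    rw [neg_smul]; abel

include hχ hψ in
theorem alg_of_mem {a : Multiset (ZMod m)} (ha : a ≠ 0) (h0 : 0 ∉ a) (hv : cnt a ∈ relS χ ψ) :
    Alg χ ψ a := by
  obtain ⟨b, c, r, hb, hc, h⟩ := mem_relS hv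
  have hb0 : 0 ∉ b := by
    rcases hb with rfl | hb
    · simp
    · exact hb.zero_notMem
  have hc0 : 0 ∉ c := by
    rcases hc with rfl | hc
    · simp
    · exact hc.zero_notMem
  have hr : r = 0 := by
    have := congrFun h 0
    simp only [cnt, Pi.add_apply, Pi.sub_apply, Pi.smul_apply, Multiset.count_eq_zero_of_notMem h0,
      Multiset.count_eq_zero_of_notMem hb0, Multiset.count_eq_zero_of_notMem hc0,
      Multiset.count_singleton_self] at this
    simpa using this.symm
  rw [hr, zero_smul, add_zero, eq_sub_iff_add_eq, ← cnt_add] at h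
  have h2 : a + c = b := cnt_inj h
  have hb' : Alg χ ψ b := by
    rcases hb with rfl | hb
    · exfalso
      apply ha
      have := congrArg Multiset.card h2
      rw [Multiset.card_add, Multiset.card_zero] at this
      exact Multiset.card_eq_zero.1 (by omega)
    · exact hb
  rcases hc with rfl | hc
  · rw [add_zero] at h2
    rw [h2]; exact hb'
  · exact alg_cancel hχ hψ ha (by rw [h2]; exact hb') hc

variable (χ ψ) in
/-- the class of an element in the quotient group -/
def cls (x : ZMod m) : (ZMod m → ℤ) ⧸ (relS χ ψ) := QuotientAddGroup.mk (cnt {x})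

omit [NeZero m] in
theorem cls_sum (a : Multiset (ZMod m)) :
    (a.map (cls χ ψ)).sum = QuotientAddGroup.mk (s := relS χ ψ) (cnt a) := by
  induction a using Multiset.induction_on with
  | empty => simp [cnt_zero]
  | cons x a ih =>
    rw [Multiset.map_cons, Multiset.sum_cons, ih, ← Multiset.singleton_add, cnt_add]
    rfl

omit [NeZero m] in
theorem cls_sum_eq_zero {a : Multiset (ZMod m)} (h : Alg χ ψ a) : (a.map (cls χ ψ)).sum = 0 := by
  rw [cls_sum, QuotientAddGroup.eq_zero_iff]
  exact AddSubgroup.subset_closure (Or.inl ⟨a, h, rfl⟩)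

include hχ hψ in
theorem alg_of_cls {a : Multiset (ZMod m)} (ha : a ≠ 0) (h0 : 0 ∉ a)
    (h : (a.map (cls χ ψ)).sum = 0) : Alg χ ψ a := by
  rw [cls_sum, QuotientAddGroup.eq_zero_iff] at h
  exact alg_of_mem hχ hψ ha h0 h

omit [NeZero m] in
theorem cls_zero : cls χ ψ (0 : ZMod m) = 0 := by
  unfold cls
  rw [QuotientAddGroup.eq_zero_iff]
  exact AddSubgroup.subset_closure (Or.inr rfl)

omit [NeZero m] in
theorem cls_neg (x : ZMod m) : cls χ ψ (-x) = -cls χ ψ x := by
  rcases eq_or_ne x 0 with rfl | hx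
  · rw [neg_zero, cls_zero, neg_zero]
  · have := cls_sum_eq_zero (Alg.pair (χ := χ) (ψ := ψ) x hx)
    simp only [Multiset.insert_eq_cons, Multiset.map_cons, Multiset.map_singleton,
      Multiset.sum_cons, Multiset.sum_singleton] at this
    rw [eq_neg_iff_add_eq_zero, add_comm]
    exact this

omit [NeZero m] in
theorem cls_curves {x y z x' y' z' : ZMod m} (hx : x ≠ 0) (hy : y ≠ 0) (hz : z ≠ 0)
    (hx' : x' ≠ 0) (hy' : y' ≠ 0) (hz' : z' ≠ 0) (hs : x + y + z = 0) (hs' : x' + y' + z' = 0)
    (hp : Pure χ ψ (({x, y, z} : Multiset (ZMod m)) + {x', y', z'})) :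
    (cls χ ψ x + cls χ ψ y + cls χ ψ z) + (cls χ ψ x' + cls χ ψ y' + cls χ ψ z') = 0 := by
  have h1 : TateChar χ ψ (({x, y, z} : Multiset (ZMod m)) + {x', y', z'}) := by
    rw [tateChar_iff_pure]
    · exact hp
    · intro h
      have := congrArg Multiset.card h
      simp at this
    · exact ⟨3, by simp⟩
  have h2 := cls_sum_eq_zero (Alg.curves (χ := χ) (ψ := ψ) {x, y, z} {x', y', z'} (by simp) (by simp)
    (by simp [hx.symm, hy.symm, hz.symm]) (by simp [hx'.symm, hy'.symm, hz'.symm])
    (by simp [← hs, add_assoc]) (by simp [← hs', add_assoc]) h1)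
  simp only [Multiset.insert_eq_cons, Multiset.map_cons, Multiset.map_singleton,
      Multiset.sum_cons, Multiset.sum_singleton, Multiset.map_add, Multiset.sum_add] at h2
  rw [← h2]
  abel

omit [NeZero m] in
theorem cls_dist {d : ℕ} (hd : d.Prime) (hdm : d ∣ m) (c : ZMod m) (hc : (d : ZMod m) * c ≠ 0) :
    cls χ ψ ((d : ZMod m) * c) = (((Multiset.range d).map
      (fun i : ℕ => c + (i : ZMod m) * ((m / d : ℕ) : ZMod m))).map (cls χ ψ)).sum +
      (if d = 2 then cls χ ψ ((m / 2 : ℕ) : ZMod m) else 0) := by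
  have h := cls_sum_eq_zero (Alg.dist (χ := χ) (ψ := ψ) d c hd hdm hc)
  unfold stdChar at h
  rw [Multiset.map_cons, Multiset.sum_cons, Multiset.map_add, Multiset.sum_add, cls_neg,
    neg_add_eq_zero] at h
  rw [h]
  congr 1
  split_ifs <;> simp

end mem

end Fermat950
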