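import Mathlib

open Finset

namespace Fermat950

section
variable {m : ℕ} {W : Type} [AddCommGroup W] (e : ZMod m → W)

/-- generation, supersingular case -/
theorem comb_supersingular (he0 : e 0 = 0) (hneg : ∀ x, e (-x) = - e x)
    (hcur : ∀ x y x' y' : ZMod m, x ≠ 0 → y ≠ 0 → x + y ≠ 0 → x' ≠ 0 → y' ≠ 0 → x' + y' ≠ 0 →
      (e x + e y - e (x + y)) + (e x' + e y' - e (x' + y')) = 0)
    (a : Multiset (ZMod m)) (h0 : 0 ∉ a) (hs : a.sum = 0) (hev : Even (Multiset.card a)) :
    (a.map e).sum = 0 := by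
  classical
  obtain ⟨τ, hτ, hT⟩ : ∃ τ : W, τ + τ = 0 ∧ ∀ x y : ZMod m, x ≠ 0 → y ≠ 0 → x + y ≠ 0 →
      e x + e y - e (x + y) = τ := by
    by_cases h : ∃ x y : ZMod m, x ≠ 0 ∧ y ≠ 0 ∧ x + y ≠ 0
    · obtain ⟨x, y, hx, hy, hxy⟩ := h
      refine ⟨e x + e y - e (x + y), hcur x y x y hx hy hxy hx hy hxy, ?_⟩
      intro x' y' hx' hy' hxy'
      have h1 := hcur x' y' x y hx' hy' hxy' hx hy hxy
      have h2 := hcur x y x y hx hy hxy hx hy hxy
      rw [← h2] at h1
      exact add_right_cancel h1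
    · push Not at h
      exact ⟨0, by simp, fun x y hx hy hxy => absurd (h x y hx hy) hxy⟩
  let f : ZMod m → W := fun x => if x = 0 then 0 else e x - τ
  have hf0 : f 0 = 0 := by simp [f]
  have hf : ∀ x, x ≠ 0 → f x = e x - τ := fun x hx => by simp [f, hx]
  have hadd : ∀ x y, f (x + y) = f x + f y := by
    intro x y
    rcases eq_or_ne x 0 with rfl | hx
    · simp [hf0]
    rcases eq_or_ne y 0 with rfl | hy
    · simp [hf0]
    rcases eq_or_ne (x + y) 0 with hxy | hxy
    · have hy' : y = -x := by rw [eq_neg_iff_add_eq_zero, add_comm]; exact hxy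
      rw [hxy, hf0, hf x hx, hf y hy, hy', hneg]
      calc (0 : W) = -(τ + τ) := by rw [hτ, neg_zero]
        _ = _ := by abel
    · rw [hf _ hxy, hf x hx, hf y hy]
      have h3 := hT x y hx hy hxy
      calc e (x + y) - τ = e x + e y - (e x + e y - e (x + y)) - τ := by abel
        _ = e x - τ + (e y - τ) := by rw [h3]; abel
  have hsum : ∀ b : Multiset (ZMod m), (b.map f).sum = f b.sum := by
    intro b
    induction b using Multiset.induction_on with
    | empty => simp [hf0]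
    | cons x b ih => simp [ih, hadd]
  have h4 : ∀ b : Multiset (ZMod m), 0 ∉ b →
      (b.map e).sum = (b.map f).sum + (Multiset.card b) • τ := by
    intro b
    induction b using Multiset.induction_on with
    | empty => intro _; simp
    | cons x b ih =>
      intro hb
      have hx : x ≠ 0 := fun h => hb (by simp [h])
      have hb' : 0 ∉ b := fun h => hb (by simp [h])
      rw [Multiset.map_cons, Multiset.sum_cons, Multiset.map_cons, Multiset.sum_cons,
        Multiset.card_cons, ih hb', hf x hx, add_smul, one_smul]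
      abel
  rw [h4 a h0, hsum, hs, hf0, zero_add]
  obtain ⟨r, hr⟩ := hev
  rw [hr, ← two_mul, mul_comm, mul_smul, two_smul, hτ, smul_zero]

variable (P : (ZMod m)ˣ) (n : ℕ)

theorem cyc_sum (hPn : P ^ n = 1) (F : (ZMod m)ˣ → ℤ) (u : (ZMod m)ˣ) (j : ℕ) :
    ∑ i ∈ range n, F (P ^ i * (P ^ j * u)) = ∑ i ∈ range n, F (P ^ i * u) := by
  induction j with
  | zero => simp
  | succ j ih =>
    rw [← ih]
    have h1 : ∀ i, P ^ i * (P ^ (j + 1) * u) = P ^ (i + 1) * (P ^ j * u) := by
      intro i; rw [pow_succ, pow_succ]; simp only [mul_assoc, mul_left_comm, mul_comm]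
    simp only [h1]
    have h2 := Finset.sum_range_succ (fun i => F (P ^ i * (P ^ j * u))) n
    have h3 := Finset.sum_range_succ' (fun i => F (P ^ i * (P ^ j * u))) n
    rw [h2] at h3
    rw [hPn, pow_zero] at h3
    exact (add_right_cancel h3).symm

theorem cyc_sum_inv (hPn : P ^ n = 1) (F : (ZMod m)ˣ → ℤ) (u : (ZMod m)ˣ) (j : ℕ) :
    ∑ i ∈ range n, F (P ^ i * ((P ^ j)⁻¹ * u)) = ∑ i ∈ range n, F (P ^ i * u) := by
  rw [← cyc_sum P n hPn F ((P ^ j)⁻¹ * u) j]
  simp

/-- the balance function of a multiset of units -/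
def bal (ν : Multiset (ZMod m)ˣ) (u : (ZMod m)ˣ) : ℤ :=
  ∑ i ∈ range n, ((ν.count (P ^ i * u) : ℤ) - ν.count (-(P ^ i * u)))

theorem bal_cons (x : (ZMod m)ˣ) (ν : Multiset (ZMod m)ˣ) (u : (ZMod m)ˣ) :
    bal P n (x ::ₘ ν) u = bal P n ν u +
      ∑ i ∈ range n, ((if P ^ i * u = x then (1 : ℤ) else 0) -
        (if -(P ^ i * u) = x then 1 else 0)) := by
  unfold bal
  rw [← Finset.sum_add_distrib]
  refine Finset.sum_congr rfl fun i _ => ?_
  rw [Multiset.count_cons, Multiset.count_cons]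
  push_cast
  ring

theorem bal_pair (hPn : P ^ n = 1) (x : (ZMod m)ˣ) (j : ℕ) (ν : Multiset (ZMod m)ˣ)
    (u : (ZMod m)ˣ) : bal P n (x ::ₘ (-(P ^ j * x)) ::ₘ ν) u = bal P n ν u := by
  rw [bal_cons, bal_cons, add_assoc, ← Finset.sum_add_distrib]
  simp only [Finset.sum_sub_distrib, Finset.sum_add_distrib]
  have h1 : ∑ i ∈ range n, (if P ^ i * u = -(P ^ j * x) then (1 : ℤ) else 0) =
      ∑ i ∈ range n, (if -(P ^ i * u) = x then (1 : ℤ) else 0) := by
    rw [← cyc_sum_inv P n hPn (fun v => if -v = x then (1 : ℤ) else 0) u j]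
    refine Finset.sum_congr rfl fun i _ => ?_
    have : (P ^ i * u = -(P ^ j * x)) ↔ (-(P ^ i * ((P ^ j)⁻¹ * u)) = x) := by
      constructor
      · intro h
        rw [mul_left_comm, h]; simp
      · intro h
        rw [← h, neg_mul_eq_mul_neg, neg_neg, mul_left_comm (P ^ j) (P ^ i)]; simp
    simp only [this]
  have h2 : ∑ i ∈ range n, (if -(P ^ i * u) = -(P ^ j * x) then (1 : ℤ) else 0) =
      ∑ i ∈ range n, (if P ^ i * u = x then (1 : ℤ) else 0) := by
    rw [← cyc_sum_inv P n hPn (fun v => if v = x then (1 : ℤ) else 0) u j]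
    refine Finset.sum_congr rfl fun i _ => ?_
    have : (-(P ^ i * u) = -(P ^ j * x)) ↔ (P ^ i * ((P ^ j)⁻¹ * u) = x) := by
      constructor
      · intro h
        rw [mul_left_comm, neg_injective h]; simp
      · intro h
        rw [← h, mul_left_comm (P ^ j) (P ^ i)]; simp
    simp only [this]
  rw [h1, h2]
  ring

theorem geom_D (he : ∀ x y, (e (x + y) - e (P * (x + y))) = (e x - e (P * x)) + (e y - e (P * y)))
    (x : ZMod m) (j : ℕ) : ∃ z : ZMod m, e x - e ((P : ZMod m) ^ j * x) = e z - e (P * z) ∧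
      (1 - (P : ZMod m)) * z = x - (P : ZMod m) ^ j * x := by
  induction j with
  | zero =>
    refine ⟨0, ?_, by simp⟩
    have := he 0 0
    simp only [add_zero, mul_zero, sub_self, pow_zero, one_mul]
  | succ j ih =>
    obtain ⟨z, hz1, hz2⟩ := ih
    refine ⟨z + (P : ZMod m) ^ j * x, ?_, ?_⟩
    · rw [he, ← hz1, pow_succ', mul_assoc]
      abel
    · rw [mul_add, hz2]
      ring

/-- generation, case `-1 ∉ <p>` -/
theorem comb_ordinary (hn : 0 < n) (hPn : P ^ n = 1) (hP : ∀ i : ℕ, P ^ i ≠ -1)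
    (he0 : e 0 = 0) (hneg : ∀ x, e (-x) = - e x)
    (hcur : ∀ x y z : ZMod m, x ≠ 0 → y ≠ 0 → z ≠ 0 → x + y + z = 0 →
      (e x + e y + e z) + (e (-(P * x)) + e (-(P * y)) + e (-(P * z))) = 0)
    (ν : Multiset (ZMod m)ˣ) (hbal : ∀ u, bal P n ν u = 0) :
    Even (Multiset.card ν) ∧ ∃ z : ZMod m,
      (ν.map fun u : (ZMod m)ˣ => e (u : ZMod m)).sum = e z - e (P * z) ∧
      (1 - (P : ZMod m)) * z = (ν.map fun u : (ZMod m)ˣ => (u : ZMod m)).sum := by
  classical
  have hD : ∀ x y, (e (x + y) - e (P * (x + y))) = (e x - e (P * x)) + (e y - e (P * y)) := by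
    intro x y
    rcases eq_or_ne x 0 with rfl | hx
    · simp [he0]
    rcases eq_or_ne y 0 with rfl | hy
    · simp [he0]
    rcases eq_or_ne (x + y) 0 with hxy | hxy
    · have hy' : y = -x := by rw [eq_neg_iff_add_eq_zero, add_comm]; exact hxy
      rw [hxy, hy', mul_neg, hneg, hneg]
      simp [he0]
    · have h3 := hcur x y (-(x + y)) hx hy (neg_ne_zero.2 hxy) (by ring)
      rw [mul_neg, neg_neg, hneg, hneg, hneg] at h3
      rw [← sub_eq_zero, ← neg_eq_zero]
      rw [← h3]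
      abel
  induction hc : Multiset.card ν using Nat.strong_induction_on generalizing ν with
  | _ c ih =>
  rcases ν.empty_or_exists_mem with rfl | ⟨x, hx⟩
  · subst hc
    refine ⟨by simp, 0, ?_, by simp⟩
    simp
  · obtain ⟨ν1, rfl⟩ := Multiset.exists_cons_of_mem hx
    -- find the partner
    have h1 := hbal x
    unfold bal at h1
    rw [Finset.sum_sub_distrib, sub_eq_zero] at h1
    have h2 : (0 : ℤ) < ∑ i ∈ range n, ((x ::ₘ ν1).count (P ^ i * x) : ℤ) := by
      refine lt_of_lt_of_le ?_ (Finset.single_le_sum (f := fun i => ((x ::ₘ ν1).count (P ^ i * x) : ℤ))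
        (fun i _ => by positivity) (Finset.mem_range.2 hn))
      simp
    rw [h1] at h2
    obtain ⟨j, _, hj⟩ := Finset.exists_ne_zero_of_sum_ne_zero h2.ne'
    have hj' : -(P ^ j * x) ∈ x ::ₘ ν1 := by
      rw [← Multiset.count_ne_zero]
      exact_mod_cast hj
    have hne : -(P ^ j * x) ≠ x := by
      intro h
      apply hP j
      have : P ^ j * x = -1 * x := by rw [neg_one_mul]; exact neg_eq_iff_eq_neg.1 h
      exact mul_right_cancel this
    rw [Multiset.mem_cons] at hj'
    obtain ⟨ν2, rfl⟩ := Multiset.exists_cons_of_mem (hj'.resolve_left hne)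
    have hb2 : ∀ u, bal P n ν2 u = 0 := fun u => by rw [← bal_pair P n hPn x j ν2 u]; exact hbal u
    obtain ⟨hev, z, hz1, hz2⟩ := ih (Multiset.card ν2) (by rw [← hc]; simp) ν2 hb2 rfl
    obtain ⟨w, hw1, hw2⟩ := geom_D e P hD (x : ZMod m) j
    refine ⟨?_, w + z, ?_, ?_⟩
    · subst hc
      simp only [Multiset.card_cons]
      obtain ⟨r, hr⟩ := hev
      exact ⟨r + 1, by omega⟩
    · rw [hD, ← hw1, ← hz1]
      simp only [Multiset.map_cons, Multiset.sum_cons, Units.val_neg, Units.val_mul, Units.val_pow_eq_pow_val, hneg]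
      abel
    · rw [mul_add, hw2, hz2]
      simp only [Multiset.map_cons, Multiset.sum_cons, Units.val_neg, Units.val_mul, Units.val_pow_eq_pow_val]
      ring

end

end Fermat950
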