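import Mathlib

/-! `L(1,χ)` for odd Dirichlet characters in terms of the cotangent (Fermat varieties, helper12). -/

open Finset Filter Topology

namespace Fermat950

namespace Cot

/-- The real terms. -/
noncomputable def u (a s : ℝ) (n : ℕ) : ℝ := (1 / ((n : ℝ) + a) ^ s - 1 / ((n : ℝ) + 1 - a) ^ s) / 2

lemma rpow_between {x s : ℝ} {n : ℕ} (hn : 1 ≤ n) (hx1 : (n : ℝ) ≤ x) (hx2 : x ≤ n + 1)
    (hs : 0 ≤ s) : 1 / ((n : ℝ) + 1) ^ s ≤ 1 / x ^ s ∧ 1 / x ^ s ≤ 1 / (n : ℝ) ^ s := by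
  have hn0 : (0 : ℝ) < n := by exact_mod_cast hn
  have hx0 : 0 < x := lt_of_lt_of_le hn0 hx1
  constructor
  · exact one_div_le_one_div_of_le (Real.rpow_pos_of_pos hx0 s)
      (Real.rpow_le_rpow hx0.le hx2 hs)
  · exact one_div_le_one_div_of_le (Real.rpow_pos_of_pos hn0 s)
      (Real.rpow_le_rpow hn0.le hx1 hs)

lemma gap {s : ℝ} {n : ℕ} (hn : 1 ≤ n) (hs1 : 1 ≤ s) (hs2 : s ≤ 2) :
    1 / (n : ℝ) ^ s - 1 / ((n : ℝ) + 1) ^ s ≤ 2 / (n : ℝ) ^ 2 := by
  have hn0 : (0 : ℝ) < n := by exact_mod_cast hn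
  have h1 : (n : ℝ) ≤ (n : ℝ) ^ s := by
    calc (n : ℝ) = (n : ℝ) ^ (1 : ℝ) := (Real.rpow_one _).symm
      _ ≤ (n : ℝ) ^ s := Real.rpow_le_rpow_of_exponent_le (by exact_mod_cast hn) hs1
  have hr0 : 0 < (n : ℝ) / (n + 1) := by positivity
  have hr1 : (n : ℝ) / (n + 1) ≤ 1 := by
    rw [div_le_one (by positivity)]; linarith
  have h2 : ((n : ℝ) / (n + 1)) ^ 2 ≤ ((n : ℝ) / (n + 1)) ^ s := by
    calc ((n : ℝ) / (n + 1)) ^ 2 = ((n : ℝ) / (n + 1)) ^ (2 : ℝ) := by norm_cast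
      _ ≤ ((n : ℝ) / (n + 1)) ^ s := Real.rpow_le_rpow_of_exponent_ge hr0 hr1 hs2
  have h3 : 1 / (n : ℝ) ^ s - 1 / ((n : ℝ) + 1) ^ s =
      (1 / (n : ℝ) ^ s) * (1 - ((n : ℝ) / (n + 1)) ^ s) := by
    rw [Real.div_rpow hn0.le (by positivity)]
    have := Real.rpow_pos_of_pos hn0 s
    field_simp
  have h4 : 1 - ((n : ℝ) / (n + 1)) ^ 2 ≤ 2 / n := by
    have : 1 - ((n : ℝ) / (n + 1)) ^ 2 = (2 * n + 1) / (n + 1) ^ 2 := by
      field_simp; ring
    rw [this, div_le_div_iff₀ (by positivity) hn0]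
    nlinarith
  have h5 : 0 ≤ 1 - ((n : ℝ) / (n + 1)) ^ s := by
    have := Real.rpow_le_one hr0.le hr1 (by linarith : (0 : ℝ) ≤ s)
    linarith
  rw [h3]
  calc (1 / (n : ℝ) ^ s) * (1 - ((n : ℝ) / (n + 1)) ^ s)
      ≤ (1 / n) * (2 / n) := by
        apply mul_le_mul _ (by linarith) h5 (by positivity)
        exact one_div_le_one_div_of_le hn0 h1
    _ = 2 / (n : ℝ) ^ 2 := by ring

/-- The dominating sequence. -/
noncomputable def bd (a : ℝ) (n : ℕ) : ℝ :=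
  if n = 0 then 1 / a ^ 2 + 1 / (1 - a) ^ 2 else 2 / (n : ℝ) ^ 2

lemma summable_bd (a : ℝ) : Summable (bd a) := by
  have h : Summable (fun n : ℕ => 2 / (n : ℝ) ^ 2) := by
    simpa [div_eq_mul_inv] using (Real.summable_nat_pow_inv.mpr one_lt_two).mul_left 2
  refine (summable_congr_cofinite ?_).mp h
  filter_upwards [(Set.finite_singleton (0 : ℕ)).compl_mem_cofinite] with n hn
  have : n ≠ 0 := by simpa using hn
  simp [bd, this]

lemma one_div_rpow_le {x s : ℝ} (hx0 : 0 < x) (hx1 : x < 1) (hs2 : s ≤ 2) :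
    1 / x ^ s ≤ 1 / x ^ 2 := by
  apply one_div_le_one_div_of_le (by positivity)
  calc x ^ 2 = x ^ (2 : ℝ) := by norm_cast
    _ ≤ x ^ s := Real.rpow_le_rpow_of_exponent_ge hx0 hx1.le hs2

lemma norm_u_le {a s : ℝ} (ha0 : 0 < a) (ha1 : a < 1) (hs1 : 1 ≤ s) (hs2 : s ≤ 2) (n : ℕ) :
    ‖u a s n‖ ≤ bd a n := by
  rw [Real.norm_eq_abs]
  unfold u bd
  split_ifs with hn
  · subst hn
    have h1 := one_div_rpow_le ha0 ha1 hs2
    have h2 := one_div_rpow_le (x := 1 - a) (by linarith) (by linarith) hs2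
    have h3 : 0 < 1 / a ^ s := by positivity
    have h4 : 0 < 1 / (1 - a) ^ s := by
      have : 0 < 1 - a := by linarith
      positivity
    rw [abs_le]
    simp only [Nat.cast_zero, zero_add]
    constructor <;> linarith
  · have hn1 : 1 ≤ n := Nat.one_le_iff_ne_zero.mpr hn
    have h1 := rpow_between (x := (n : ℝ) + a) hn1 (by linarith) (by linarith)
      (by linarith : (0 : ℝ) ≤ s)
    have h2 := rpow_between (x := (n : ℝ) + 1 - a) hn1 (by linarith) (by linarith)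
      (by linarith : (0 : ℝ) ≤ s)
    have h3 := gap hn1 hs1 hs2
    have h4 : (0 : ℝ) ≤ 2 / (n : ℝ) ^ 2 := by positivity
    rw [abs_le]
    constructor <;> linarith [h1.1, h1.2, h2.1, h2.2]

lemma tendsto_u {a : ℝ} (ha0 : 0 < a) (ha1 : a < 1) (n : ℕ) :
    Tendsto (fun s : ℝ => u a s n) (𝓝[>] 1) (𝓝 (u a 1 n)) := by
  have hx : (0 : ℝ) < (n : ℝ) + a := by positivity
  have hy : (0 : ℝ) < (n : ℝ) + 1 - a := by
    have : (0 : ℝ) ≤ n := Nat.cast_nonneg n
    linarith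
  have hc : ContinuousAt (fun s : ℝ => u a s n) 1 := by
    unfold u
    have h1 : ContinuousAt (fun s : ℝ => ((n : ℝ) + a) ^ s) 1 :=
      Real.continuousAt_const_rpow hx.ne'
    have h2 : ContinuousAt (fun s : ℝ => ((n : ℝ) + 1 - a) ^ s) 1 :=
      Real.continuousAt_const_rpow hy.ne'
    have h3 : ((n : ℝ) + a) ^ (1 : ℝ) ≠ 0 := (Real.rpow_pos_of_pos hx 1).ne'
    have h4 : ((n : ℝ) + 1 - a) ^ (1 : ℝ) ≠ 0 := (Real.rpow_pos_of_pos hy 1).ne'
    exact ((continuousAt_const.div h1 h3).sub (continuousAt_const.div h2 h4)).div_const 2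
  exact hc.tendsto.mono_left nhdsWithin_le_nhds

lemma tsum_eq {a : ℝ} (ha0 : 0 < a) (ha1 : a < 1) :
    HurwitzZeta.hurwitzZetaOdd (a : UnitAddCircle) 1 = ((∑' n, u a 1 n : ℝ) : ℂ) := by
  have h1 : Tendsto (fun s : ℝ => ∑' n, u a s n) (𝓝[>] 1) (𝓝 (∑' n, u a 1 n)) := by
    refine tendsto_tsum_of_dominated_convergence (summable_bd a) (fun n => tendsto_u ha0 ha1 n) ?_
    have : ∀ᶠ s : ℝ in 𝓝[>] 1, s ∈ Set.Ioo (1 : ℝ) 2 := Ioo_mem_nhdsGT (by norm_num)
    filter_upwards [this] with s hs n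
    exact norm_u_le ha0 ha1 hs.1.le hs.2.le n
  have h2 : Tendsto (fun s : ℝ => HurwitzZeta.hurwitzZetaOdd (a : UnitAddCircle) (s : ℂ))
      (𝓝[>] 1) (𝓝 (HurwitzZeta.hurwitzZetaOdd (a : UnitAddCircle) 1)) := by
    have hc : ContinuousAt (fun s : ℝ => HurwitzZeta.hurwitzZetaOdd (a : UnitAddCircle) (s : ℂ)) 1 :=
      ((HurwitzZeta.differentiable_hurwitzZetaOdd (a : UnitAddCircle)).continuous.comp
        Complex.continuous_ofReal).continuousAt
    have := hc.tendsto.mono_left (nhdsWithin_le_nhds (s := Set.Ioi (1 : ℝ)))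
    simpa using this
  have h3 : ∀ᶠ s : ℝ in 𝓝[>] 1,
      HurwitzZeta.hurwitzZetaOdd (a : UnitAddCircle) (s : ℂ) = ((∑' n, u a s n : ℝ) : ℂ) := by
    filter_upwards [self_mem_nhdsWithin] with s hs
    have hs' : 1 < (s : ℂ).re := by simpa using hs
    rw [← (HurwitzZeta.hasSum_nat_hurwitzZetaOdd_of_mem_Icc ⟨ha0.le, ha1.le⟩ hs').tsum_eq,
      Complex.ofReal_tsum]
    refine tsum_congr fun n => ?_
    have hx : (0 : ℝ) ≤ (n : ℝ) + a := by positivity
    have hy : (0 : ℝ) ≤ (n : ℝ) + 1 - a := by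
      have : (0 : ℝ) ≤ n := Nat.cast_nonneg n
      linarith
    unfold u
    push_cast
    rw [Complex.ofReal_cpow hx, Complex.ofReal_cpow hy]
    push_cast
    rfl
  have h4 : Tendsto (fun s : ℝ => ((∑' n, u a s n : ℝ) : ℂ)) (𝓝[>] 1)
      (𝓝 ((∑' n, u a 1 n : ℝ) : ℂ)) := (Complex.continuous_ofReal.tendsto _).comp h1
  exact tendsto_nhds_unique (h2.congr' h3) h4

lemma partial_sum {a : ℝ} (M : ℕ) :
    (∑ n ∈ range M, (2 * u a 1 n)) + 1 / ((M : ℝ) + a) =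
      1 / a + ∑ n ∈ range M, (1 / (a - (n + 1)) + 1 / (a + (n + 1))) := by
  induction M with
  | zero => simp
  | succ M ih =>
    rw [sum_range_succ, sum_range_succ]
    have h1 : 2 * u a 1 M = 1 / ((M : ℝ) + a) - 1 / ((M : ℝ) + 1 - a) := by
      unfold u
      rw [Real.rpow_one, Real.rpow_one]
      ring
    have h2 : (a - (M + 1)) = -((M : ℝ) + 1 - a) := by ring
    have h3 : 1 / (a - ((M : ℝ) + 1)) = -(1 / ((M : ℝ) + 1 - a)) := by
      rw [h2, one_div, one_div, inv_neg]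
    rw [h1, h3]
    push_cast
    have h4 : (M : ℝ) + 1 + a = a + (M + 1) := by ring
    rw [h4]
    linarith

lemma not_int {a : ℝ} (ha0 : 0 < a) (ha1 : a < 1) : (a : ℂ) ∈ Complex.integerComplement := by
  rw [Complex.integerComplement, Set.mem_compl_iff]
  rintro ⟨m, hm⟩
  have : (m : ℝ) = a := by exact_mod_cast hm
  have h1 : (0 : ℝ) < m := by rw [this]; exact ha0
  have h2 : (m : ℝ) < 1 := by rw [this]; exact ha1
  have h3 : 0 < m := by exact_mod_cast h1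
  have h4 : m < 1 := by exact_mod_cast h2
  omega

lemma summable_u {a : ℝ} (ha0 : 0 < a) (ha1 : a < 1) : Summable (u a 1) :=
  Summable.of_norm_bounded (summable_bd a) (norm_u_le ha0 ha1 le_rfl (by norm_num))

theorem hurwitzZetaOdd_one {a : ℝ} (ha0 : 0 < a) (ha1 : a < 1) :
    HurwitzZeta.hurwitzZetaOdd (a : UnitAddCircle) 1 =
      (Real.pi : ℂ) / 2 * Complex.cot (Real.pi * a) := by
  rw [tsum_eq ha0 ha1]
  have hc := cot_series_rep' (not_int ha0 ha1)
  have hs := (summable_cotTerm (not_int ha0 ha1)).hasSum.tendsto_sum_nat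
  rw [← hc] at hs
  have hu : Tendsto (fun M : ℕ => ((∑ n ∈ range M, (2 * u a 1 n) + 1 / ((M : ℝ) + a) : ℝ) : ℂ))
      atTop (𝓝 (((2 * ∑' n, u a 1 n) + 0 : ℝ) : ℂ)) := by
    refine (Complex.continuous_ofReal.tendsto _).comp (Tendsto.add ?_ ?_)
    · exact ((summable_u ha0 ha1).hasSum.mul_left 2).tendsto_sum_nat
    · have h1 : Tendsto (fun M : ℕ => (M : ℝ) + a) atTop atTop :=
        tendsto_atTop_add_const_right _ _ tendsto_natCast_atTop_atTop
      simp only [one_div]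
      exact h1.inv_tendsto_atTop
  have hv : Tendsto (fun M : ℕ => ((∑ n ∈ range M, (2 * u a 1 n) + 1 / ((M : ℝ) + a) : ℝ) : ℂ))
      atTop (𝓝 (1 / (a : ℂ) + (Real.pi * Complex.cot (Real.pi * a) - 1 / a))) := by
    refine (tendsto_const_nhds.add hs).congr fun M => ?_
    rw [partial_sum]
    push_cast
    rfl
  have h := tendsto_nhds_unique hu hv
  push_cast at h
  have h' : (2 : ℂ) * ((∑' n, u a 1 n : ℝ) : ℂ) = Real.pi * Complex.cot (Real.pi * a) := by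
    rw [Complex.ofReal_tsum]
    linear_combination h
  linear_combination h' / 2

end Cot

theorem LFunction_one_eq_cot {N : ℕ} [NeZero N] (hN : 1 < N) (χ : DirichletCharacter ℂ N)
    (hodd : χ.Odd) :
    DirichletCharacter.LFunction χ 1 =
      (Real.pi : ℂ) / (2 * N) * ∑ j : ZMod N, χ j * Complex.cot (Real.pi * (j.val : ℂ) / N) := by
  have hN0 : (N : ℂ) ≠ 0 := by exact_mod_cast NeZero.ne N
  have hNR : (0 : ℝ) < N := by exact_mod_cast NeZero.pos N
  rw [DirichletCharacter.LFunction, ZMod.LFunction_def_odd hodd.to_fun, Complex.cpow_neg_one,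
    mul_sum, mul_sum]
  refine sum_congr rfl fun j _ => ?_
  by_cases hj : j = 0
  · subst hj
    have h0 : χ (0 : ZMod N) = 0 := by
      apply χ.map_nonunit
      rw [isUnit_zero_iff]
      intro h
      have : Fact (1 < N) := ⟨hN⟩
      exact zero_ne_one h
    rw [h0]
    simp
  · have hv0 : 0 < j.val := Nat.pos_of_ne_zero (by rwa [Ne, ZMod.val_eq_zero])
    have hvN : j.val < N := ZMod.val_lt j
    have ha0 : (0 : ℝ) < (j.val : ℝ) / N := by positivity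
    have ha1 : (j.val : ℝ) / N < 1 := by
      rw [div_lt_one hNR]
      exact_mod_cast hvN
    rw [ZMod.toAddCircle_apply, Cot.hurwitzZetaOdd_one ha0 ha1]
    push_cast
    rw [mul_div_assoc]
    field_simp

end Fermat950
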