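import Mathlib

/-!
# Digit sums and multiplication by powers of `p` (module `Digits`)
-/

open Finset

namespace Fermat950

theorem digits_legendre (p : ℕ) (hp : p.Prime) (n j : ℕ) (hj : j < p ^ n) :
    (p - 1) * ∑ i ∈ range n, j / p ^ (i + 1) + (Nat.digits p j).sum = j := by
  have hrec : ∀ m : ℕ, (Nat.digits p m).sum = m % p + (Nat.digits p (m / p)).sum := by
    intro m
    rcases Nat.eq_zero_or_pos m with rfl | hm
    · simp
    · rw [Nat.digits_def' hp.one_lt hm, List.sum_cons]
  induction n generalizing j with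
  | zero =>
    have : j = 0 := by simpa using hj
    subst this
    simp
  | succ n ih =>
    have hj' : j / p < p ^ n := Nat.div_lt_of_lt_mul (by rwa [← pow_succ'])
    have h1 := ih (j / p) hj'
    have h2 : ∀ i, j / p ^ (i + 1) = j / p / p ^ i := by
      intro i
      rw [Nat.div_div_eq_div_mul, pow_succ']
    have h3 : ∑ i ∈ range (n + 1), j / p ^ (i + 1)
        = j / p + ∑ i ∈ range n, j / p / p ^ (i + 1) := by
      rw [sum_range_succ', add_comm]
      congr 1
      · simp
      · exact Finset.sum_congr rfl fun i _ => h2 (i + 1)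
    rw [h3, hrec j, mul_add]
    have h4 := Nat.div_add_mod j p
    have h5 : ∀ x : ℕ, p * x = (p - 1) * x + x := by
      intro x
      have : p = (p - 1) + 1 := (Nat.sub_add_cancel hp.one_lt.le).symm
      calc p * x = ((p - 1) + 1) * x := by rw [← this]
        _ = _ := by ring
    have h6 := h5 (j / p)
    omega

theorem digits_rot_div (p n : ℕ) (hp : p.Prime) (j i : ℕ) (hj : j < p ^ n - 1) (hi : i < n) :
    (p ^ i * j) / (p ^ n - 1) = j / p ^ (n - i) := by
  have hpn : p ^ n = p ^ i * p ^ (n - i) := by rw [← pow_add]; congr 1; omega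
  have hi0 : 0 < p ^ i := pow_pos hp.pos i
  have hb0 : 0 < p ^ (n - i) := pow_pos hp.pos _
  set A := p ^ i with hA
  set B := p ^ (n - i) with hB
  have hN : p ^ n = A * B := hpn
  have h1 := Nat.div_add_mod j B
  have h2 : j % B < B := Nat.mod_lt _ hb0
  set a := j / B with ha
  set b := j % B with hb
  have h3 : a < A := by
    rw [ha]
    apply Nat.div_lt_of_lt_mul
    rw [mul_comm, ← hN]
    omega
  rw [hN] at hj ⊢
  have h4 : a + b * A < A * B - 1 := by
    have e1 : a + 1 ≤ A := h3
    have e2 : b + 1 ≤ B := h2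
    have e3 : (b + 1) * A ≤ B * A := Nat.mul_le_mul_right A e2
    have e4 : b * A + A ≤ A * B := by
      calc b * A + A = (b + 1) * A := by ring
        _ ≤ B * A := e3
        _ = A * B := mul_comm _ _
    rcases Nat.lt_or_ge (a + 1) A with h | h
    · omega
    · have e5 : a + 1 = A := le_antisymm e1 h
      rcases Nat.lt_or_ge (b + 1) B with h' | h'
      · have e6 : (b + 2) * A ≤ B * A := Nat.mul_le_mul_right A h'
        have e7 : b * A + 2 * A ≤ A * B := by
          calc b * A + 2 * A = (b + 2) * A := by ring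
            _ ≤ B * A := e6
            _ = A * B := mul_comm _ _
        omega
      · exfalso
        have e8 : b + 1 = B := le_antisymm e2 h'
        have e9 : A * B = B * a + b + 1 := by
          rw [← e5, add_mul, one_mul, mul_comm B a]
          omega
        omega
  have h5 : A * j = (A * B - 1) * a + (a + b * A) := by
    have e0 : 1 ≤ A * B := Nat.mul_pos hi0 hb0
    have e1 : A * B * a = (A * B - 1) * a + a := by
      obtain ⟨c, hc⟩ := Nat.exists_eq_add_of_le e0
      rw [hc]
      simp only [Nat.add_sub_cancel_left]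
      ring
    calc A * j = A * (B * a + b) := by rw [h1]
      _ = A * B * a + b * A := by ring
      _ = _ := by rw [e1]; ring
  rw [h5, Nat.mul_add_div (by omega), Nat.div_eq_of_lt h4, add_zero]

theorem digits_sum_eq (p n : ℕ) (hp : p.Prime) (_hn : 0 < n) (j : ℕ) (hj : j < p ^ n - 1) :
    (p - 1) * ∑ i ∈ range n, (p ^ i * j) % (p ^ n - 1) = (p ^ n - 1) * (Nat.digits p j).sum := by
  have h1 := digits_legendre p hp n j (by omega)
  have h2 : ∑ i ∈ range n, j / p ^ (i + 1) = ∑ i ∈ range n, (p ^ i * j) / (p ^ n - 1) := by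
    rw [← sum_range_reflect]
    refine Finset.sum_congr rfl fun i hi => ?_
    have hi' := mem_range.1 hi
    rw [digits_rot_div p n hp j i hj hi']
    congr 2
    omega
  rw [h2] at h1
  have h3 : (p - 1) * ∑ i ∈ range n, p ^ i * j = (p ^ n - 1) * j := by
    rw [← sum_mul, ← mul_assoc]
    congr 1
    have h4 := Nat.geomSum_eq hp.two_le n
    have h5 : (p - 1) ∣ p ^ n - 1 := by
      have := Nat.sub_dvd_pow_sub_pow p 1 n
      rwa [one_pow] at this
    rw [h4, Nat.mul_div_cancel' h5]
  have h6 : ∑ i ∈ range n, p ^ i * j = (p ^ n - 1) * ∑ i ∈ range n, (p ^ i * j) / (p ^ n - 1)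
      + ∑ i ∈ range n, (p ^ i * j) % (p ^ n - 1) := by
    rw [mul_sum, ← sum_add_distrib]
    exact Finset.sum_congr rfl fun i _ => (Nat.div_add_mod _ _).symm
  rw [h6, mul_add] at h3
  have h7 : (p ^ n - 1) * j = (p ^ n - 1) * ((p - 1) * ∑ i ∈ range n, (p ^ i * j) / (p ^ n - 1))
      + (p ^ n - 1) * (Nat.digits p j).sum := by
    rw [← mul_add, h1]
  rw [h7] at h3
  have h8 : (p - 1) * ((p ^ n - 1) * ∑ i ∈ range n, (p ^ i * j) / (p ^ n - 1))
      = (p ^ n - 1) * ((p - 1) * ∑ i ∈ range n, (p ^ i * j) / (p ^ n - 1)) := by ring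
  omega

end Fermat950
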