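import Pool.Agent.Lib.MP_950c68_ag.F.Glue

/-!
Module `Fourier`: from the relation for all translates to the balance of `ν`
(orthogonality of Dirichlet characters).
-/

open Finset

namespace Fermat950

private lemma f38_geom {z : ℂ} {n : ℕ} (hz : z ^ n = 1) :
    ∑ i ∈ range n, z ^ i = ∑ i ∈ range n, (z⁻¹) ^ i := by
  by_cases h1 : z = 1
  · rw [h1, inv_one]
  · have h2 : z⁻¹ ≠ 1 := fun h => h1 (inv_eq_one.1 h)
    rw [geom_sum_eq h1, geom_sum_eq h2, inv_pow, hz, inv_one, sub_self, zero_div, zero_div]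

theorem balanced_of_stick_gen (N : ℕ) [NeZero N] (P : (ZMod N)ˣ) (n : ℕ)
    (hP : P ^ n = 1) (ν : Multiset (ZMod N)ˣ)
    (hB : ∀ χ : DirichletCharacter ℂ N, χ.Odd → χ (P : ZMod N) = 1 →
      ∑ j : ZMod N, χ j * (j.val : ℂ) ≠ 0)
    (h : ∀ t : (ZMod N)ˣ,
      2 * ∑ i ∈ range n, (ν.map fun u => ((t * P ^ i * u : (ZMod N)ˣ) : ZMod N).val).sum
        = N * n * Multiset.card ν) :
    ∀ u : (ZMod N)ˣ,
      ∑ i ∈ range n, ν.count (P ^ i * u) = ∑ i ∈ range n, ν.count (-(P ^ i * u)) := by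
  classical
  -- sums over units
  have hunits : ∀ χ : DirichletCharacter ℂ N,
      ∑ s : (ZMod N)ˣ, χ (s : ZMod N) * ((s : ZMod N).val : ℂ) = ∑ j : ZMod N, χ j * (j.val : ℂ) := by
    intro χ
    have h1 : ∑ j : ZMod N, χ j * (j.val : ℂ) =
        ∑ j ∈ (univ : Finset (ZMod N)).filter IsUnit, χ j * (j.val : ℂ) := by
      symm
      apply Finset.sum_filter_of_ne
      intro j _ hj
      by_contra hju
      apply hj
      rw [χ.map_nonunit hju, zero_mul]
    rw [h1]
    apply Finset.sum_bij (fun (s : (ZMod N)ˣ) _ => (s : ZMod N))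
    · intro s _
      exact Finset.mem_filter.2 ⟨Finset.mem_univ _, s.isUnit⟩
    · intro s _ t _ hst
      exact Units.ext hst
    · intro j hj
      obtain ⟨s, hs⟩ := (Finset.mem_filter.1 hj).2
      exact ⟨s, Finset.mem_univ _, hs⟩
    · intro s _
      rfl
  -- multiset sums
  have hms : ∀ f : (ZMod N)ˣ → ℂ, (ν.map f).sum = ∑ v : (ZMod N)ˣ, (ν.count v : ℂ) * f v := by
    intro f
    rw [Finset.sum_multiset_map_count]
    rw [← Finset.sum_subset (Finset.subset_univ ν.toFinset)]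
    · refine Finset.sum_congr rfl fun v _ => ?_
      rw [nsmul_eq_mul]
    · intro v _ hv
      rw [Multiset.mem_toFinset] at hv
      rw [Multiset.count_eq_zero_of_notMem hv, Nat.cast_zero, zero_mul]
  -- the relation for odd characters
  have hodd : ∀ χ : DirichletCharacter ℂ N, χ.Odd →
      (∑ i ∈ range n, (χ (P : ZMod N)) ^ i) * ∑ v : (ZMod N)ˣ, (ν.count v : ℂ) * χ (v : ZMod N) = 0 := by
    intro χ hχ
    by_cases hP1 : χ (P : ZMod N) = 1
    swap
    · have hz : (χ (P : ZMod N)) ^ n = 1 := by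
        rw [← map_pow, ← Units.val_pow_eq_pow_val, hP, Units.val_one, map_one]
      rw [geom_sum_eq hP1, hz, sub_self, zero_div, zero_mul]
    have hP1' : χ⁻¹ (P : ZMod N) = 1 := by
      rw [MulChar.inv_apply_eq_inv, hP1, Ring.inverse_one]
    have hχi : (χ⁻¹).Odd := by
      have h1 : χ (-1) = -1 := hχ
      show χ⁻¹ (-1) = -1
      rw [MulChar.inv_apply_eq_inv, h1, Ring.inverse_eq_inv, inv_neg, inv_one]
    have hχ1 : χ⁻¹ ≠ 1 := by
      intro h0
      unfold DirichletCharacter.Odd at hχi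
      rw [h0, MulChar.one_apply (isUnit_one.neg)] at hχi
      norm_num at hχi
    have hsum0 : ∑ t : (ZMod N)ˣ, χ⁻¹ (t : ZMod N) = 0 := by
      have h1 := MulChar.sum_eq_zero_of_ne_one hχ1
      rw [← h1]
      have h2 : ∑ j : ZMod N, χ⁻¹ j = ∑ j ∈ (univ : Finset (ZMod N)).filter IsUnit, χ⁻¹ j := by
        symm
        apply Finset.sum_filter_of_ne
        intro j _ hj
        by_contra hju
        exact hj ((χ⁻¹).map_nonunit hju)
      rw [h2]
      apply Finset.sum_bij (fun (s : (ZMod N)ˣ) _ => (s : ZMod N))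
      · intro s _
        exact Finset.mem_filter.2 ⟨Finset.mem_univ _, s.isUnit⟩
      · intro s _ t _ hst
        exact Units.ext hst
      · intro j hj
        obtain ⟨s, hs⟩ := (Finset.mem_filter.1 hj).2
        exact ⟨s, Finset.mem_univ _, hs⟩
      · intro s _
        rfl
    -- translate of the weighted sum
    have htr : ∀ w : (ZMod N)ˣ, ∑ t : (ZMod N)ˣ, χ⁻¹ (t : ZMod N) *
        (((t * w : (ZMod N)ˣ) : ZMod N).val : ℂ) =
        χ (w : ZMod N) * ∑ s : (ZMod N)ˣ, χ⁻¹ (s : ZMod N) * ((s : ZMod N).val : ℂ) := by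
      intro w
      rw [Finset.mul_sum]
      apply Fintype.sum_equiv (Equiv.mulRight w)
      intro t
      simp only [Equiv.coe_mulRight]
      rw [← mul_assoc]
      congr 1
      rw [Units.val_mul, map_mul]
      have h1 : χ (w : ZMod N) * χ⁻¹ (w : ZMod N) = 1 := by
        rw [← MulChar.mul_apply, mul_inv_cancel, MulChar.one_apply w.isUnit]
      linear_combination (-(χ⁻¹ (t : ZMod N))) * h1
    set B := ∑ s : (ZMod N)ˣ, χ⁻¹ (s : ZMod N) * ((s : ZMod N).val : ℂ) with hBdef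
    have hB0 : B ≠ 0 := by
      rw [hBdef, hunits]
      exact hB _ hχi hP1'
    have key : ∑ t : (ZMod N)ˣ, χ⁻¹ (t : ZMod N) *
        (((2 * ∑ i ∈ range n, (ν.map fun u =>
          ((t * P ^ i * u : (ZMod N)ˣ) : ZMod N).val).sum : ℕ) : ℂ)) = 0 := by
      have h1 : ∀ t : (ZMod N)ˣ, χ⁻¹ (t : ZMod N) *
        (((2 * ∑ i ∈ range n, (ν.map fun u =>
          ((t * P ^ i * u : (ZMod N)ˣ) : ZMod N).val).sum : ℕ) : ℂ)) =
          χ⁻¹ (t : ZMod N) * ((N * n * Multiset.card ν : ℕ) : ℂ) := by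
        intro t
        rw [h t]
      rw [Finset.sum_congr rfl (fun t _ => h1 t), ← Finset.sum_mul, hsum0, zero_mul]
    have key2 : ∑ t : (ZMod N)ˣ, χ⁻¹ (t : ZMod N) *
        (((2 * ∑ i ∈ range n, (ν.map fun u =>
          ((t * P ^ i * u : (ZMod N)ˣ) : ZMod N).val).sum : ℕ) : ℂ)) =
        2 * (∑ i ∈ range n, (χ (P : ZMod N)) ^ i) *
          (∑ v : (ZMod N)ˣ, (ν.count v : ℂ) * χ (v : ZMod N)) * B := by
      have h1 : ∀ t : (ZMod N)ˣ, χ⁻¹ (t : ZMod N) *
        (((2 * ∑ i ∈ range n, (ν.map fun u =>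
          ((t * P ^ i * u : (ZMod N)ˣ) : ZMod N).val).sum : ℕ) : ℂ)) =
          ∑ i ∈ range n, ∑ v : (ZMod N)ˣ, 2 * (ν.count v : ℂ) *
            (χ⁻¹ (t : ZMod N) * (((t * (P ^ i * v) : (ZMod N)ˣ) : ZMod N).val : ℂ)) := by
        intro t
        have h2 : ∀ i ∈ range n, (((ν.map fun u =>
          ((t * P ^ i * u : (ZMod N)ˣ) : ZMod N).val).sum : ℕ) : ℂ) =
            ∑ v : (ZMod N)ˣ, (ν.count v : ℂ) * (((t * (P ^ i * v) : (ZMod N)ˣ) : ZMod N).val : ℂ) := by
          intro i _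
          rw [← hms]
          rw [Nat.cast_multiset_sum, Multiset.map_map]
          congr 1
          refine Multiset.map_congr rfl fun u _ => ?_
          rw [← mul_assoc]
          rfl
        rw [Nat.cast_mul, Nat.cast_sum, Finset.sum_congr rfl h2, Finset.mul_sum, Finset.mul_sum]
        refine Finset.sum_congr rfl fun i _ => ?_
        rw [Finset.mul_sum, Finset.mul_sum]
        refine Finset.sum_congr rfl fun v _ => ?_
        ring
      rw [Finset.sum_congr rfl (fun t _ => h1 t), Finset.sum_comm]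
      rw [mul_assoc, mul_assoc, Finset.sum_mul, Finset.mul_sum]
      refine Finset.sum_congr rfl fun i _ => ?_
      rw [Finset.sum_comm, Finset.sum_mul, Finset.mul_sum, Finset.mul_sum]
      refine Finset.sum_congr rfl fun v _ => ?_
      rw [← Finset.mul_sum, htr, Units.val_mul, map_mul, Units.val_pow_eq_pow_val, map_pow]
      ring
    rw [key2] at key
    rcases mul_eq_zero.1 key with h1 | h1
    · have h2 : (2 : ℂ) ≠ 0 := by norm_num
      rw [mul_assoc] at h1
      exact (mul_eq_zero.1 h1).resolve_left h2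
    · exact absurd h1 hB0
  -- the function
  set c : (ZMod N)ˣ → ℂ := fun u => ((∑ i ∈ range n, ν.count (P ^ i * u) : ℕ) : ℂ) with hc
  have hcsum : ∀ χ : DirichletCharacter ℂ N, ∑ u : (ZMod N)ˣ, c u * χ (u : ZMod N) =
      (∑ i ∈ range n, ((χ (P : ZMod N))⁻¹) ^ i) *
        ∑ v : (ZMod N)ˣ, (ν.count v : ℂ) * χ (v : ZMod N) := by
    intro χ
    have h1 : ∀ u : (ZMod N)ˣ, c u * χ (u : ZMod N) =
        ∑ i ∈ range n, (ν.count (P ^ i * u) : ℂ) * χ (u : ZMod N) := by
      intro u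
      rw [hc]
      push_cast
      rw [Finset.sum_mul]
    rw [Finset.sum_congr rfl (fun u _ => h1 u), Finset.sum_comm, Finset.sum_mul]
    refine Finset.sum_congr rfl fun i _ => ?_
    rw [Finset.mul_sum]
    apply Fintype.sum_equiv (Equiv.mulLeft (P ^ i))
    intro u
    simp only [Equiv.coe_mulLeft]
    rw [Units.val_mul, map_mul, Units.val_pow_eq_pow_val, map_pow]
    have hne : χ (P : ZMod N) ≠ 0 := (P.isUnit.map χ).ne_zero
    rw [inv_pow]
    field_simp
  have hD : ∀ χ : DirichletCharacter ℂ N, ∑ u : (ZMod N)ˣ, (c u - c (-u)) * χ (u : ZMod N) = 0 := by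
    intro χ
    have h1 : ∑ u : (ZMod N)ˣ, c (-u) * χ (u : ZMod N) =
        χ (-1) * ∑ u : (ZMod N)ˣ, c u * χ (u : ZMod N) := by
      rw [Finset.mul_sum]
      apply Fintype.sum_equiv (Equiv.neg (ZMod N)ˣ)
      intro u
      simp only [Equiv.neg_apply]
      rw [Units.val_neg, show (-(u : ZMod N)) = (-1) * (u : ZMod N) by ring, map_mul]
      have h2 : χ (-1 : ZMod N) * χ (-1) = 1 := by
        rw [← map_mul]; simp
      linear_combination (-(c (-u) * χ (u : ZMod N))) * h2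
    have h2 : ∑ u : (ZMod N)ˣ, (c u - c (-u)) * χ (u : ZMod N) =
        (1 - χ (-1)) * ∑ u : (ZMod N)ˣ, c u * χ (u : ZMod N) := by
      simp only [sub_mul]
      rw [Finset.sum_sub_distrib, h1]
      ring
    rw [h2]
    rcases χ.even_or_odd with h3 | h3
    · unfold DirichletCharacter.Even at h3
      rw [h3]; ring
    · rw [hcsum, ← f38_geom, hodd χ h3, mul_zero]
      rw [← map_pow, ← Units.val_pow_eq_pow_val, hP, Units.val_one, map_one]
  have hzero : ∀ u : (ZMod N)ˣ, c u - c (-u) = 0 := by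
    intro a
    have h1 : ∑ χ : DirichletCharacter ℂ N, χ ((a : ZMod N)⁻¹) *
        ∑ b : (ZMod N)ˣ, (c b - c (-b)) * χ (b : ZMod N) = 0 := by
      refine Finset.sum_eq_zero fun χ _ => ?_
      rw [hD χ, mul_zero]
    have h2 : ∑ χ : DirichletCharacter ℂ N, χ ((a : ZMod N)⁻¹) *
        ∑ b : (ZMod N)ˣ, (c b - c (-b)) * χ (b : ZMod N) =
        ∑ b : (ZMod N)ˣ, (c b - c (-b)) *
          ∑ χ : DirichletCharacter ℂ N, χ ((a : ZMod N)⁻¹) * χ (b : ZMod N) := by
      simp only [Finset.mul_sum]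
      rw [Finset.sum_comm]
      refine Finset.sum_congr rfl fun b _ => Finset.sum_congr rfl fun χ _ => ?_
      ring
    rw [h2] at h1
    have h3 : ∀ b : (ZMod N)ˣ, (c b - c (-b)) *
          ∑ χ : DirichletCharacter ℂ N, χ ((a : ZMod N)⁻¹) * χ (b : ZMod N) =
        if a = b then (c b - c (-b)) * (N.totient : ℂ) else 0 := by
      intro b
      rw [DirichletCharacter.sum_char_inv_mul_char_eq ℂ a.isUnit]
      by_cases hab : a = b
      · rw [if_pos hab, if_pos (by rw [hab])]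
      · rw [if_neg hab, if_neg (fun h => hab (Units.ext h)), mul_zero]
    rw [Finset.sum_congr rfl (fun b _ => h3 b), Finset.sum_ite_eq] at h1
    rw [if_pos (Finset.mem_univ a)] at h1
    have h4 : (N.totient : ℂ) ≠ 0 := by
      have : 0 < N.totient := Nat.totient_pos.2 (Nat.pos_of_ne_zero (NeZero.ne N))
      exact_mod_cast this.ne'
    exact (mul_eq_zero.1 h1).resolve_right h4
  intro u
  have h1 := hzero u
  have h2 : c u = c (-u) := sub_eq_zero.1 h1
  simp only [hc] at h2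
  have h3 : ∑ i ∈ range n, ν.count (P ^ i * u) = ∑ i ∈ range n, ν.count (P ^ i * -u) := by
    exact_mod_cast h2
  rw [h3]
  refine Finset.sum_congr rfl fun i _ => ?_
  rw [mul_neg]

theorem balanced_of_stick_aux (l e : ℕ) [Fact l.Prime] (P : (ZMod (l ^ e))ˣ) (n : ℕ)
    (hP : P ^ n = 1) (ν : Multiset (ZMod (l ^ e))ˣ)
    (hB : ∀ χ : DirichletCharacter ℂ (l ^ e), χ.Odd →
      ∑ j : ZMod (l ^ e), χ j * (j.val : ℂ) ≠ 0)
    (h : ∀ t : (ZMod (l ^ e))ˣ,
      2 * ∑ i ∈ range n, (ν.map fun u => ((t * P ^ i * u : (ZMod (l ^ e))ˣ) : ZMod (l ^ e)).val).sum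
        = l ^ e * n * Multiset.card ν) :
    ∀ u : (ZMod (l ^ e))ˣ,
      ∑ i ∈ range n, ν.count (P ^ i * u) = ∑ i ∈ range n, ν.count (-(P ^ i * u)) := by
  have : NeZero (l ^ e) := ⟨pow_ne_zero _ (Fact.out : l.Prime).ne_zero⟩
  exact balanced_of_stick_gen (l ^ e) P n hP ν (fun χ hχ _ => hB χ hχ) h

theorem balanced_of_stick (l e : ℕ) [Fact l.Prime] (he : 0 < e) (P : (ZMod (l ^ e))ˣ) (n : ℕ)
    (_hn : 0 < n) (hP : P ^ n = 1) (ν : Multiset (ZMod (l ^ e))ˣ)
    (h : ∀ t : (ZMod (l ^ e))ˣ,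
      2 * ∑ i ∈ range n, (ν.map fun u => ((t * P ^ i * u : (ZMod (l ^ e))ˣ) : ZMod (l ^ e)).val).sum
        = l ^ e * n * Multiset.card ν) :
    ∀ u : (ZMod (l ^ e))ˣ,
      ∑ i ∈ range n, ν.count (P ^ i * u) = ∑ i ∈ range n, ν.count (-(P ^ i * u)) :=
  balanced_of_stick_aux l e P n hP ν (fun χ hχ => sum_val_ne_zero_pow l e he χ hχ) h

end Fermat950
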