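import Mathlib

/-!
# Stickelberger's theorem: the absolute values of Gauss sums (module `Stick`)
-/

open Finset

namespace Fermat950

section aux

variable {p : ℕ} [Fact p.Prime]

theorem stick_norm_p : ‖(p : PadicAlgCl p)‖ = (p : ℝ)⁻¹ := by
  rw [← map_natCast (algebraMap ℚ_[p] (PadicAlgCl p)), PadicAlgCl.norm_extends, Padic.norm_p]

theorem stick_norm_one_of_pow {x : PadicAlgCl p} {n : ℕ} (hn : n ≠ 0) (h : x ^ n = 1) : ‖x‖ = 1 := by
  have h1 : ‖x‖ ^ n = 1 := by rw [← norm_pow, h, norm_one]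
  exact (pow_eq_one_iff_of_nonneg (norm_nonneg x) hn).1 h1

theorem stick_norm_pow_sub_one_le {x : PadicAlgCl p} (hx : ‖x‖ ≤ 1) (m : ℕ) :
    ‖x ^ m - 1‖ ≤ ‖x - 1‖ := by
  rw [← geom_sum_mul, norm_mul]
  have h1 : ‖∑ i ∈ range m, x ^ i‖ ≤ 1 := by
    apply IsUltrametricDist.norm_sum_le_of_forall_le_of_nonneg zero_le_one
    intro i _
    rw [norm_pow]
    exact pow_le_one₀ (norm_nonneg x) hx
  exact mul_le_of_le_one_left (norm_nonneg _) h1

theorem stick_norm_pow_sub_one {ζ : PadicAlgCl p} (hζ : IsPrimitiveRoot ζ p) {m : ℕ} (hm0 : 0 < m)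
    (hm : m < p) : ‖ζ ^ m - 1‖ = ‖ζ - 1‖ := by
  have hp : p.Prime := Fact.out
  have hz : ‖ζ‖ ≤ 1 := (stick_norm_one_of_pow hp.ne_zero hζ.pow_eq_one).le
  apply le_antisymm (stick_norm_pow_sub_one_le hz m)
  have hco : Nat.Coprime m p :=
    (Nat.coprime_comm.1 ((Nat.Prime.coprime_iff_not_dvd hp).2 fun h =>
      absurd (Nat.le_of_dvd hm0 h) (not_le.2 hm)))
  obtain ⟨m', -, hm'⟩ := Nat.exists_mul_mod_eq_one_of_coprime hco hp.one_lt
  have h1 : ζ = (ζ ^ m) ^ m' := by
    rw [← pow_mul, ← pow_mod_orderOf, ← hζ.eq_orderOf, hm', pow_one]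
  have hz' : ‖ζ ^ m‖ ≤ 1 := by
    rw [norm_pow]
    exact pow_le_one₀ (norm_nonneg _) hz
  calc ‖ζ - 1‖ = ‖(ζ ^ m) ^ m' - 1‖ := by rw [← h1]
    _ ≤ ‖ζ ^ m - 1‖ := stick_norm_pow_sub_one_le hz' m'

theorem stick_norm_pi_pow {ζ : PadicAlgCl p} (hζ : IsPrimitiveRoot ζ p) :
    ‖ζ - 1‖ ^ (p - 1) = (p : ℝ)⁻¹ := by
  have hp : p.Prime := Fact.out
  have h1 : IsPrimitiveRoot ζ ((p - 1) + 1) := by
    rw [Nat.sub_add_cancel hp.one_lt.le]; exact hζ
  have h2 := h1.prod_one_sub_pow_eq_order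
  have h3 : ((p - 1 : ℕ) : PadicAlgCl p) + 1 = (p : PadicAlgCl p) := by
    rw [← Nat.cast_add_one, Nat.sub_add_cancel hp.one_lt.le]
  rw [h3] at h2
  rw [← stick_norm_p, ← h2, norm_prod]
  rw [Finset.prod_congr rfl (g := fun _ => ‖ζ - 1‖)]
  · rw [prod_const, card_range]
  · intro k hk
    rw [norm_sub_rev]
    exact stick_norm_pow_sub_one hζ (Nat.succ_pos k) (by have := mem_range.1 hk; omega)

theorem stick_norm_pi_lt {ζ : PadicAlgCl p} (hζ : IsPrimitiveRoot ζ p) : ‖ζ - 1‖ < 1 := by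
  have hp : p.Prime := Fact.out
  by_contra hc
  push Not at hc
  have h1 := one_le_pow₀ (n := p - 1) hc
  rw [stick_norm_pi_pow hζ] at h1
  have h2 : (1 : ℝ) < p := by exact_mod_cast hp.one_lt
  exact absurd h1 (not_le.2 (inv_lt_one_of_one_lt₀ h2))

theorem stick_norm_pi_pos {ζ : PadicAlgCl p} (hζ : IsPrimitiveRoot ζ p) : 0 < ‖ζ - 1‖ := by
  have hp : p.Prime := Fact.out
  rw [norm_pos_iff, sub_ne_zero]
  exact hζ.ne_one hp.one_lt

theorem stick_expand {ζ : PadicAlgCl p} (hζ : IsPrimitiveRoot ζ p) (t : ℕ) :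
    ‖ζ ^ t - 1 - t * (ζ - 1)‖ ≤ ‖ζ - 1‖ ^ 2 := by
  have hp : p.Prime := Fact.out
  have hz : ‖ζ‖ ≤ 1 := (stick_norm_one_of_pow hp.ne_zero hζ.pow_eq_one).le
  induction t with
  | zero => simp
  | succ t ih =>
    have h1 : ζ ^ (t + 1) - 1 - ((t + 1 : ℕ) : PadicAlgCl p) * (ζ - 1)
        = (ζ ^ t - 1 - t * (ζ - 1)) + (ζ - 1) * (ζ ^ t - 1) := by
      push_cast; ring
    rw [h1]
    refine (IsUltrametricDist.norm_add_le_max _ _).trans (max_le ih ?_)
    rw [norm_mul, sq]
    exact mul_le_mul_of_nonneg_left (stick_norm_pow_sub_one_le hz t) (norm_nonneg _)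

/-- Digit sums of complementary numbers. -/
theorem stick_digits_compl (n j : ℕ) (hj : j ≤ p ^ n - 1) :
    (Nat.digits p j).sum + (Nat.digits p (p ^ n - 1 - j)).sum = n * (p - 1) := by
  have hp : p.Prime := Fact.out
  have hrec : ∀ m : ℕ, (Nat.digits p m).sum = m % p + (Nat.digits p (m / p)).sum := by
    intro m
    rcases Nat.eq_zero_or_pos m with rfl | hm
    · simp
    · rw [Nat.digits_def' hp.one_lt hm, List.sum_cons]
  induction n generalizing j with
  | zero =>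
    have : j = 0 := by simpa using hj
    subst this
    simp
  | succ n ih =>
    have hpn : 0 < p ^ n := pow_pos hp.pos n
    have hjlt : j < p ^ n * p := by
      rw [← pow_succ]
      have : 0 < p ^ (n + 1) := pow_pos hp.pos _
      omega
    have hd : j % p < p := Nat.mod_lt _ hp.pos
    have hj' : j / p < p ^ n := Nat.div_lt_of_lt_mul (by rwa [mul_comm])
    have hdiv := Nat.div_add_mod j p
    have hcomp : p ^ (n + 1) - 1 - j = p * (p ^ n - 1 - j / p) + (p - 1 - j % p) := by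
      have e1 : p ^ (n + 1) = p * p ^ n := by rw [pow_succ, mul_comm]
      have e2 : p ^ n = (p ^ n - 1 - j / p) + (j / p + 1) := by omega
      have e3 : p * p ^ n = p * (p ^ n - 1 - j / p) + p * (j / p) + p := by
        conv_lhs => rw [e2]
        ring
      omega
    have hmod : (p ^ (n + 1) - 1 - j) % p = p - 1 - j % p := by
      rw [hcomp, Nat.mul_add_mod, Nat.mod_eq_of_lt (by omega)]
    have hdv : (p ^ (n + 1) - 1 - j) / p = p ^ n - 1 - j / p := by
      have h0 : (p - 1 - j % p) / p = 0 := Nat.div_eq_of_lt (by omega)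
      rw [hcomp, Nat.mul_add_div hp.pos, h0, add_zero]
    rw [hrec j, hrec (p ^ (n + 1) - 1 - j), hmod, hdv]
    have := ih (j / p) (by omega)
    have h4 : (n + 1) * (p - 1) = n * (p - 1) + (p - 1) := by ring
    omega

variable {k : Type} [Field k] [Fintype k]

theorem stick_norm_mulChar (χ : MulChar k (PadicAlgCl p)) {x : k} (hx : x ≠ 0) : ‖χ x‖ = 1 := by
  have h1 : χ x ^ (Fintype.card k - 1) = 1 := by
    rw [← map_pow, FiniteField.pow_card_sub_one_eq_one x hx, map_one]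
  refine stick_norm_one_of_pow ?_ h1
  have := Fintype.one_lt_card (α := k)
  omega

theorem stick_norm_mulChar_le (χ : MulChar k (PadicAlgCl p)) (x : k) : ‖χ x‖ ≤ 1 := by
  by_cases hx : x = 0
  · subst hx
    rw [MulChar.map_zero]; simp
  · exact (stick_norm_mulChar χ hx).le

variable [Algebra (ZMod p) k]

theorem stick_norm_addChar (ψ : AddChar k (PadicAlgCl p)) (x : k) : ‖ψ x‖ = 1 := by
  have hp : p.Prime := Fact.out
  have h1 : ψ x ^ p = 1 := by
    rw [← AddChar.map_nsmul_eq_pow]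
    have : p • x = 0 := by
      have : CharP k p := charP_of_injective_algebraMap (algebraMap (ZMod p) k).injective p
      rw [nsmul_eq_mul, CharP.cast_eq_zero, zero_mul]
    rw [this, AddChar.map_zero_eq_one]
  exact stick_norm_one_of_pow hp.ne_zero h1

theorem stick_norm_gauss_le (χ : MulChar k (PadicAlgCl p)) (ψ : AddChar k (PadicAlgCl p)) :
    ‖gaussSum χ ψ‖ ≤ 1 := by
  unfold gaussSum
  apply IsUltrametricDist.norm_sum_le_of_forall_le_of_nonneg zero_le_one
  intro x _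
  rw [norm_mul, stick_norm_addChar, mul_one]
  exact stick_norm_mulChar_le χ x

theorem stick_norm_jacobi_le (χ φ : MulChar k (PadicAlgCl p)) : ‖jacobiSum χ φ‖ ≤ 1 := by
  unfold jacobiSum
  apply IsUltrametricDist.norm_sum_le_of_forall_le_of_nonneg zero_le_one
  intro x _
  rw [norm_mul]
  exact mul_le_one₀ (stick_norm_mulChar_le χ x) (norm_nonneg _) (stick_norm_mulChar_le φ _)

theorem stick_gauss_mul (χ φ : MulChar k (PadicAlgCl p)) {ψ : AddChar k (PadicAlgCl p)}
    (hψ : ψ ≠ 1) : ‖gaussSum χ ψ‖ * ‖gaussSum φ ψ‖ ≤ ‖gaussSum (χ * φ) ψ‖ := by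
  by_cases h : χ * φ = 1
  · rw [h, gaussSum_one_left hψ, norm_neg, norm_one]
    exact mul_le_one₀ (stick_norm_gauss_le χ ψ) (norm_nonneg _) (stick_norm_gauss_le φ ψ)
  · rw [← norm_mul, ← jacobiSum_mul_nontrivial h, norm_mul]
    exact mul_le_of_le_one_right (norm_nonneg _) (stick_norm_jacobi_le χ φ)

theorem stick_gauss_pow (χ : MulChar k (PadicAlgCl p)) {ψ : AddChar k (PadicAlgCl p)}
    (hψ : ψ ≠ 1) (d : ℕ) : ‖gaussSum χ ψ‖ ^ d ≤ ‖gaussSum (χ ^ d) ψ‖ := by
  induction d with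
  | zero => rw [pow_zero, pow_zero, gaussSum_one_left hψ, norm_neg, norm_one]
  | succ d ih =>
    rw [pow_succ, pow_succ]
    exact (mul_le_mul_of_nonneg_right ih (norm_nonneg _)).trans (stick_gauss_mul _ _ hψ)

theorem stick_gauss_inv {χ : MulChar k (PadicAlgCl p)} (hχ : χ ≠ 1)
    {ψ : AddChar k (PadicAlgCl p)} (hψ : ψ ≠ 1) :
    ‖gaussSum χ ψ‖ * ‖gaussSum χ⁻¹ ψ‖ = ‖(Fintype.card k : PadicAlgCl p)‖ := by
  have h1 := gaussSum_mul_gaussSum_eq_card hχ (AddChar.IsPrimitive.of_ne_one hψ)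
  have h2 := mul_gaussSum_inv_eq_gaussSum χ⁻¹ ψ
  rw [← h1, norm_mul, ← h2, norm_mul, stick_norm_mulChar _ (neg_ne_zero.2 one_ne_zero), one_mul]

/-- The standard additive character. -/
noncomputable def stickChar (k : Type) [Field k] [Fintype k] [Algebra (ZMod p) k]
    {ζ : PadicAlgCl p} (hζ : ζ ^ p = 1) : AddChar k (PadicAlgCl p) :=
  (AddChar.zmodChar p hζ).compAddMonoidHom (Algebra.trace (ZMod p) k).toAddMonoidHom

theorem stickChar_apply {ζ : PadicAlgCl p} (hζ : ζ ^ p = 1) (x : k) :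
    stickChar k hζ x = ζ ^ (Algebra.trace (ZMod p) k x).val := by
  simp [stickChar, AddChar.zmodChar_apply]

theorem stickChar_ne_one {ζ : PadicAlgCl p} (hζ : IsPrimitiveRoot ζ p) :
    stickChar k hζ.pow_eq_one ≠ 1 := by
  have hp : p.Prime := Fact.out
  obtain ⟨x, hx⟩ := Algebra.trace_surjective (ZMod p) k 1
  intro h
  have h1 : stickChar k hζ.pow_eq_one x = 1 := by rw [h, AddChar.one_apply]
  rw [stickChar_apply, hx, ZMod.val_one_eq_one_mod, Nat.mod_eq_of_lt hp.one_lt, pow_one] at h1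
  exact hζ.ne_one hp.one_lt h1

theorem stickChar_frob {ζ : PadicAlgCl p} (hζ : ζ ^ p = 1) (x : k) :
    stickChar k hζ (x ^ p) = stickChar k hζ x := by
  rw [stickChar_apply, stickChar_apply]
  have h1 := Algebra.trace_eq_of_algEquiv (FiniteField.frobeniusAlgEquivOfAlgebraic (ZMod p) k) x
  rw [FiniteField.coe_frobeniusAlgEquivOfAlgebraic] at h1
  simp only [ZMod.card] at h1
  rw [h1]

theorem stick_gauss_frob (χ : MulChar k (PadicAlgCl p)) {ζ : PadicAlgCl p} (hζ : ζ ^ p = 1) :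
    gaussSum (χ ^ p) (stickChar k hζ) = gaussSum χ (stickChar k hζ) := by
  have hp : p.Prime := Fact.out
  unfold gaussSum
  have h0 := Equiv.sum_comp (FiniteField.frobeniusAlgEquivOfAlgebraic (ZMod p) k).toEquiv
    (fun x => χ x * stickChar k hζ x)
  rw [← h0]
  refine Finset.sum_congr rfl fun x _ => ?_
  have h1 : (FiniteField.frobeniusAlgEquivOfAlgebraic (ZMod p) k).toEquiv x = x ^ p := by
    have := congrFun (FiniteField.coe_frobeniusAlgEquivOfAlgebraic (ZMod p) k) x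
    simp only [ZMod.card] at this
    exact this
  rw [h1, stickChar_frob, MulChar.pow_apply' χ hp.ne_zero, map_pow]

/-- Every nontrivial additive character is a shift of the standard one. -/
theorem stick_exists_mulShift {ψ₀ ψ : AddChar k (PadicAlgCl p)} (h0 : ψ₀ ≠ 1) (hψ : ψ ≠ 1) :
    ∃ a : k, a ≠ 0 ∧ ψ = ψ₀.mulShift a := by
  have hinj := AddChar.to_mulShift_inj_of_isPrimitive (AddChar.IsPrimitive.of_ne_one h0)
  by_contra hc
  push Not at hc
  have hne : ∀ a : k, ψ ≠ ψ₀.mulShift a := by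
    intro a
    by_cases ha : a = 0
    · subst ha
      rw [AddChar.mulShift_zero]
      exact hψ
    · exact hc a ha
  let f : Option k → (Multiplicative k →* PadicAlgCl p) := fun o =>
    match o with
    | none => ψ.toMonoidHom
    | some a => (ψ₀.mulShift a).toMonoidHom
  have htm : ∀ a b : AddChar k (PadicAlgCl p), a.toMonoidHom = b.toMonoidHom → a = b :=
    fun a b h => AddChar.toMonoidHomEquiv.injective h
  have hf : Function.Injective f := by
    intro a b hab
    rcases a with _ | a <;> rcases b with _ | b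
    · rfl
    · exact absurd (htm _ _ hab) (hne b)
    · exact absurd (htm _ _ hab).symm (hne a)
    · exact congrArg some (hinj (htm _ _ hab))
  have hli := (linearIndependent_monoidHom (Multiplicative k) (PadicAlgCl p)).comp f hf
  have hcard := hli.fintype_card_le_finrank
  rw [Module.finrank_fintype_fun_eq_card, Fintype.card_option, Fintype.card_multiplicative] at hcard
  omega

end aux

/-- Stickelberger's theorem from a Teichmueller character. -/
theorem norm_gaussSum_of_teich (p n : ℕ) [Fact p.Prime] (k : Type) [Field k]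
    [Fintype k] [Algebra (ZMod p) k] (hq : Fintype.card k = p ^ n)
    (ω : MulChar k (PadicAlgCl p)) (hord : orderOf ω = p ^ n - 1)
    (htr : ‖∑ x : k, ω x * ((Algebra.trace (ZMod p) k x).val : PadicAlgCl p)‖ = 1) :
    ∀ ψ : AddChar k (PadicAlgCl p), ψ ≠ 1 → ∀ j : ℕ, j < p ^ n - 1 →
        ‖gaussSum (ω ^ j) ψ‖ ^ (p - 1) = ((p : ℝ)⁻¹) ^ (Nat.digits p j).sum := by
  have hp : p.Prime := Fact.out
  obtain ⟨ζ, hζ⟩ := HasEnoughRootsOfUnity.exists_primitiveRoot (PadicAlgCl p) p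
  have hz1 := hζ.pow_eq_one
  set π := ζ - 1 with hπ
  have hππ : ‖π‖ ^ (p - 1) = (p : ℝ)⁻¹ := stick_norm_pi_pow hζ
  have hπ1 : ‖π‖ < 1 := stick_norm_pi_lt hζ
  have hπ0 : 0 < ‖π‖ := stick_norm_pi_pos hζ
  set ψ₀ := stickChar k hz1 with hψ₀
  have hψ₀1 : ψ₀ ≠ 1 := stickChar_ne_one hζ
  -- lower bounds for the standard character
  have hlow1 : 1 < p ^ n - 1 → ‖gaussSum ω ψ₀‖ = ‖π‖ := by
    intro hlt
    have hω : ω ≠ 1 := by
      intro h
      rw [h, orderOf_one] at hord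
      omega
    have hsum : gaussSum ω ψ₀ = π * ∑ x : k, ω x * ((Algebra.trace (ZMod p) k x).val : PadicAlgCl p)
        + ∑ x : k, ω x * (ζ ^ (Algebra.trace (ZMod p) k x).val - 1
          - ((Algebra.trace (ZMod p) k x).val : PadicAlgCl p) * π) := by
      have h1 : ∑ x : k, ω x = 0 := MulChar.sum_eq_zero_of_ne_one hω
      have h2 : gaussSum ω ψ₀ = ∑ x : k, ω x * ζ ^ (Algebra.trace (ZMod p) k x).val := by
        unfold gaussSum
        exact Finset.sum_congr rfl fun x _ => by rw [hψ₀, stickChar_apply]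
      rw [h2, mul_sum, ← sum_add_distrib, ← sub_zero (∑ x : k, ω x * ζ ^ _), ← h1,
        ← sum_sub_distrib]
      exact Finset.sum_congr rfl fun x _ => by ring
    have hA : ‖π * ∑ x : k, ω x * ((Algebra.trace (ZMod p) k x).val : PadicAlgCl p)‖ = ‖π‖ := by
      rw [norm_mul, htr, mul_one]
    have hB : ‖∑ x : k, ω x * (ζ ^ (Algebra.trace (ZMod p) k x).val - 1
          - ((Algebra.trace (ZMod p) k x).val : PadicAlgCl p) * π)‖ ≤ ‖π‖ ^ 2 := by
      apply IsUltrametricDist.norm_sum_le_of_forall_le_of_nonneg (by positivity)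
      intro x _
      rw [norm_mul]
      exact (mul_le_of_le_one_left (norm_nonneg _) (stick_norm_mulChar_le ω x)).trans
        (stick_expand hζ _)
    have hB' : ‖∑ x : k, ω x * (ζ ^ (Algebra.trace (ZMod p) k x).val - 1
          - ((Algebra.trace (ZMod p) k x).val : PadicAlgCl p) * π)‖ < ‖π‖ := by
      refine hB.trans_lt ?_
      rw [sq]
      exact mul_lt_of_lt_one_left hπ0 hπ1
    rw [hsum]
    rw [IsUltrametricDist.norm_add_eq_max_of_norm_ne_norm]
    · rw [hA, max_eq_left hB'.le]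
    · rw [hA]
      exact hB'.ne'
  have hdig : ∀ m : ℕ, (Nat.digits p m).sum = m % p + (Nat.digits p (m / p)).sum := by
    intro m
    rcases Nat.eq_zero_or_pos m with rfl | hm
    · simp
    · rw [Nat.digits_def' hp.one_lt hm, List.sum_cons]
  have hlow : 1 < p ^ n - 1 → ∀ j : ℕ, ‖π‖ ^ (Nat.digits p j).sum ≤ ‖gaussSum (ω ^ j) ψ₀‖ := by
    intro hlt j
    induction j using Nat.strong_induction_on with
    | _ j ih =>
      rcases Nat.eq_zero_or_pos j with rfl | hj
      · rw [pow_zero, gaussSum_one_left hψ₀1, norm_neg, norm_one]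
        simp
      · have hlt' : j / p < j := Nat.div_lt_self hj hp.one_lt
        have h1 := ih _ hlt'
        have h2 : ω ^ j = ω ^ (j % p) * (ω ^ (j / p)) ^ p := by
          rw [← pow_mul, ← pow_add, mul_comm (j / p) p, Nat.mod_add_div]
        rw [hdig j, pow_add, h2]
        have h3 : ‖π‖ ^ (j % p) ≤ ‖gaussSum (ω ^ (j % p)) ψ₀‖ := by
          rw [← hlow1 hlt]
          exact stick_gauss_pow ω hψ₀1 _
        refine le_trans ?_ (stick_gauss_mul _ _ hψ₀1)
        rw [hψ₀, stick_gauss_frob]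
        exact mul_le_mul h3 h1 (by positivity) (norm_nonneg _)
  -- equality for the standard character
  have hmain : ∀ j : ℕ, j < p ^ n - 1 →
      ‖gaussSum (ω ^ j) ψ₀‖ = ‖π‖ ^ (Nat.digits p j).sum := by
    intro j hj
    rcases Nat.eq_zero_or_pos j with rfl | hj0
    · rw [pow_zero, gaussSum_one_left hψ₀1, norm_neg, norm_one]
      simp
    · have hlt : 1 < p ^ n - 1 := by omega
      have hne : ω ^ j ≠ 1 := by
        intro h
        have := orderOf_dvd_of_pow_eq_one h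
        rw [hord] at this
        exact absurd (Nat.le_of_dvd hj0 this) (by omega)
      have hinv : (ω ^ j)⁻¹ = ω ^ (p ^ n - 1 - j) := by
        rw [inv_eq_iff_mul_eq_one, ← pow_add, Nat.add_sub_cancel' hj.le, ← hord, pow_orderOf_eq_one]
      have h1 := stick_gauss_inv hne hψ₀1
      rw [hinv] at h1
      have h2 : ‖(Fintype.card k : PadicAlgCl p)‖ = ‖π‖ ^ (Nat.digits p j).sum *
          ‖π‖ ^ (Nat.digits p (p ^ n - 1 - j)).sum := by
        rw [← pow_add, stick_digits_compl n j hj.le, mul_comm n, pow_mul, hππ, hq, Nat.cast_pow,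
          norm_pow, stick_norm_p]
      rw [h2] at h1
      have h3 := hlow hlt j
      have h4 := hlow hlt (p ^ n - 1 - j)
      have h5 : 0 < ‖π‖ ^ (Nat.digits p j).sum := by positivity
      have h6 : 0 < ‖π‖ ^ (Nat.digits p (p ^ n - 1 - j)).sum := by positivity
      apply le_antisymm _ h3
      by_contra hc
      push Not at hc
      have : ‖π‖ ^ (Nat.digits p j).sum * ‖π‖ ^ (Nat.digits p (p ^ n - 1 - j)).sum
          < ‖gaussSum (ω ^ j) ψ₀‖ * ‖gaussSum (ω ^ (p ^ n - 1 - j)) ψ₀‖ :=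
        mul_lt_mul hc h4 h6 (norm_nonneg _)
      exact absurd h1 this.ne'
  -- general additive character
  intro ψ hψ j hj
  obtain ⟨a, ha, rfl⟩ := stick_exists_mulShift hψ₀1 hψ
  have h1 := gaussSum_mulShift (ω ^ j) ψ₀ (Units.mk0 a ha)
  have h2 : ‖gaussSum (ω ^ j) (ψ₀.mulShift a)‖ = ‖gaussSum (ω ^ j) ψ₀‖ := by
    rw [← h1, norm_mul, Units.val_mk0, stick_norm_mulChar _ ha, one_mul]
  rw [h2, hmain j hj, ← pow_mul, mul_comm, pow_mul, hππ]

/-- Stickelberger's theorem, with the statement of `exists_teich` as a hypothesis. -/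
theorem norm_gaussSum_of (p n : ℕ) [Fact p.Prime] (k : Type) [Field k] [Fintype k]
    [Algebra (ZMod p) k] (hq : Fintype.card k = p ^ n)
    (hT : ∃ ω : MulChar k (PadicAlgCl p), orderOf ω = p ^ n - 1 ∧
      ‖∑ x : k, ω x * ((Algebra.trace (ZMod p) k x).val : PadicAlgCl p)‖ = 1) :
    ∃ ω : MulChar k (PadicAlgCl p), orderOf ω = p ^ n - 1 ∧
      ∀ ψ : AddChar k (PadicAlgCl p), ψ ≠ 1 → ∀ j : ℕ, j < p ^ n - 1 →
        ‖gaussSum (ω ^ j) ψ‖ ^ (p - 1) = ((p : ℝ)⁻¹) ^ (Nat.digits p j).sum := by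
  obtain ⟨ω, h1, h2⟩ := hT
  exact ⟨ω, h1, norm_gaussSum_of_teich p n k hq ω h1 h2⟩

end Fermat950
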