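import Mathlib
import Pool.Agent.Lib.MP_950c68_ag.F.Defs

/-!
# The Teichmueller character with values in the algebraic closure of `ℚ_p`
-/

open Finset

namespace Fermat950

section Teich

open Polynomial

variable (p : ℕ) [Fact p.Prime]

/-- The closed unit ball of `PadicAlgCl p`. -/
private noncomputable abbrev TeichO : ValuationSubring (PadicAlgCl p) :=
  (NormedField.valuation (K := PadicAlgCl p)).valuationSubring

/-- Its residue field. -/
private noncomputable abbrev TeichK : Type := IsLocalRing.ResidueField (TeichO p)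

private lemma mem_teichO (x : PadicAlgCl p) : x ∈ TeichO p ↔ ‖x‖ ≤ 1 := by
  rw [Valuation.mem_valuationSubring_iff, NormedField.valuation_apply, ← NNReal.coe_le_coe]
  rfl

private lemma residue_zero_iff (x : TeichO p) :
    IsLocalRing.residue (TeichO p) x = 0 ↔ ‖(x : PadicAlgCl p)‖ < 1 := by
  rw [IsLocalRing.residue_eq_zero_iff, Valuation.mem_maximalIdeal_iff,
    NormedField.valuation_apply, ← NNReal.coe_lt_coe]
  rfl

private lemma teich_norm_natCast_p : ‖((p : ℕ) : PadicAlgCl p)‖ < 1 := by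
  rw [← map_natCast (algebraMap ℚ_[p] (PadicAlgCl p)), PadicAlgCl.norm_extends]
  exact Padic.norm_p_lt_one

private lemma teichK_charP : CharP (TeichK p) p := by
  have hp : p.Prime := Fact.out
  rw [CharP.charP_iff_prime_eq_zero hp, ← map_natCast (IsLocalRing.residue (TeichO p)),
    residue_zero_iff]
  simpa using teich_norm_natCast_p p

private lemma norm_root_one {x : PadicAlgCl p} {m : ℕ} (hm : 0 < m) (h : x ^ m = 1) :
    ‖x‖ = 1 := by
  have h1 : ‖x‖ ^ m = 1 := by rw [← norm_pow, h, norm_one]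
  exact (pow_eq_one_iff_of_nonneg (norm_nonneg x) hm.ne').1 h1

/-- `X^m - 1` factors in the residue field over the residues of the roots of unity -/
private lemma teich_factor (m : ℕ) (hm : 0 < m) :
    (X ^ m - 1 : (TeichK p)[X]) =
      ∏ ζ ∈ nthRootsFinset m (1 : TeichO p), (X - C (IsLocalRing.residue (TeichO p) ζ)) := by
  have hmne : NeZero (m : PadicAlgCl p) := ⟨by exact_mod_cast hm.ne'⟩
  obtain ⟨ζ, hζ⟩ := HasEnoughRootsOfUnity.exists_primitiveRoot (PadicAlgCl p) m
  have hζn : ‖ζ‖ ≤ 1 := (norm_root_one p hm hζ.pow_eq_one).le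
  have hζ' : IsPrimitiveRoot (⟨ζ, (mem_teichO p ζ).2 hζn⟩ : TeichO p) m :=
    IsPrimitiveRoot.of_map_of_injective (f := (TeichO p).subtype) hζ Subtype.val_injective
  have h := X_pow_sub_one_eq_prod hm hζ'
  have h2 := congrArg (Polynomial.map (IsLocalRing.residue (TeichO p))) h
  rw [Polynomial.map_prod] at h2
  simpa using h2

private lemma teich_splits (q : ℕ) (hq : 1 < q) :
    Splits (X ^ q - X : (TeichK p)[X]) := by
  have h1 : (X ^ q - X : (TeichK p)[X]) = X * (X ^ (q - 1) - 1) := by
    rw [mul_sub, mul_one, ← pow_succ', Nat.sub_add_cancel hq.le]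
  rw [h1, teich_factor p (q - 1) (by omega)]
  exact Splits.X.mul (Splits.prod fun ζ _ => Splits.X_sub_C _)

private lemma teich_sum_pow (k : Type) [Field k] [Fintype k] (n : ℕ) (hn : 0 < n)
    (hq : Fintype.card k = p ^ n) :
    ∑ x : k, x⁻¹ * ∑ i ∈ range n, x ^ (p ^ i) = -1 := by
  classical
  have hp : p.Prime := Fact.out
  simp_rw [Finset.mul_sum]
  rw [Finset.sum_comm]
  have h0 : ∀ i ∈ range n, i ≠ 0 → ∑ x : k, x⁻¹ * x ^ (p ^ i) = 0 := by
    intro i hi hi0
    rw [mem_range] at hi
    have h1 : ∀ x : k, x⁻¹ * x ^ (p ^ i) = x ^ (p ^ i - 1) := by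
      intro x
      have hpi : 1 < p ^ i := Nat.one_lt_pow hi0 hp.one_lt
      rcases eq_or_ne x 0 with rfl | hx
      · rw [inv_zero, zero_mul, zero_pow (by omega)]
      · have : x ^ (p ^ i) = x * x ^ (p ^ i - 1) := by
          rw [← pow_succ', Nat.sub_add_cancel hpi.le]
        rw [this, inv_mul_cancel_left₀ hx]
    simp_rw [h1]
    apply FiniteField.sum_pow_lt_card_sub_one
    rw [hq]
    have h2 : p ^ i < p ^ n := Nat.pow_lt_pow_right hp.one_lt hi
    have h3 : 0 < p ^ i := pow_pos hp.pos _
    omega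
  rw [Finset.sum_eq_single_of_mem 0 (mem_range.2 hn) h0]
  have h4 : ∀ x : k, x⁻¹ * x ^ (p ^ 0) = if x = 0 then 0 else 1 := by
    intro x
    split_ifs with h
    · rw [h]; simp
    · rw [pow_zero, pow_one, inv_mul_cancel₀ h]
  simp_rw [h4]
  rw [Finset.sum_ite, Finset.sum_const_zero, zero_add, Finset.sum_const, nsmul_eq_mul, mul_one]
  have h5 : (univ.filter fun x : k => ¬ x = 0).card = Fintype.card k - 1 := by
    rw [Finset.filter_not, Finset.card_sdiff_of_subset (filter_subset _ _), Finset.card_univ]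
    congr 1
    rw [Finset.filter_eq' univ (0 : k), if_pos (mem_univ _), card_singleton]
  rw [h5, Nat.cast_sub Fintype.card_pos, Nat.cast_one, Nat.cast_card_eq_zero, zero_sub]

/-- The Teichmueller character. -/
theorem exists_teich (p n : ℕ) [Fact p.Prime] (hn : 0 < n) (k : Type) [Field k] [Fintype k]
    [Algebra (ZMod p) k] (hq : Fintype.card k = p ^ n) :
    ∃ ω : MulChar k (PadicAlgCl p), orderOf ω = p ^ n - 1 ∧
      ‖∑ x : k, ω x * ((Algebra.trace (ZMod p) k x).val : PadicAlgCl p)‖ = 1 := by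
  classical
  have hp : p.Prime := Fact.out
  have hq1 : 1 < p ^ n := Nat.one_lt_pow hn.ne' hp.one_lt
  set m := p ^ n - 1 with hm
  have hm0 : 0 < m := by omega
  have hcp : CharP (TeichK p) p := teichK_charP p
  let _ : Algebra (ZMod p) (TeichK p) := ZMod.algebra (TeichK p) p
  -- the embedding of `k` in the residue field
  have hspl : Splits (((X ^ Fintype.card k - X : (ZMod p)[X])).map
      (algebraMap (ZMod p) (TeichK p))) := by
    have := teich_splits p (Fintype.card k) (by rw [hq]; exact hq1)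
    simpa using this
  let ι : k →ₐ[ZMod p] TeichK p :=
    IsSplittingField.lift k (X ^ Fintype.card k - X : (ZMod p)[X]) hspl
  have hιinj : Function.Injective ι := ι.toRingHom.injective
  -- a generator and its lift
  obtain ⟨θ, hθ⟩ := IsCyclic.exists_generator (α := kˣ)
  have hcard : Fintype.card kˣ = m := by rw [Fintype.card_units, hq]
  have hθord : orderOf θ = m := by
    rw [orderOf_eq_card_of_forall_mem_zpowers hθ, Nat.card_eq_fintype_card, hcard]
  have hθm : (θ : k) ^ m = 1 := by
    rw [← Units.val_pow_eq_pow_val, ← hθord, pow_orderOf_eq_one, Units.val_one]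
  obtain ⟨ξ, hξm, hξθ⟩ : ∃ ξ : TeichO p, ξ ^ m = 1 ∧
      IsLocalRing.residue (TeichO p) ξ = ι (θ : k) := by
    have h1 : eval (ι (θ : k)) (X ^ m - 1 : (TeichK p)[X]) = 0 := by
      simp only [eval_sub, eval_pow, eval_X, eval_one]
      rw [← map_pow, hθm, map_one, sub_self]
    rw [teich_factor p m hm0, eval_prod, Finset.prod_eq_zero_iff] at h1
    obtain ⟨ξ, hξ, h2⟩ := h1
    refine ⟨ξ, (mem_nthRootsFinset hm0 1).1 hξ, ?_⟩
    rw [eval_sub, eval_X, eval_C, sub_eq_zero] at h2
    exact h2.symm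
  have hξL : ((ξ : TeichO p) : PadicAlgCl p) ^ m = 1 := by
    have := congrArg (fun z : TeichO p => (z : PadicAlgCl p)) hξm
    simpa using this
  have hξ0 : ((ξ : TeichO p) : PadicAlgCl p) ≠ 0 := by
    intro h
    rw [h, zero_pow hm0.ne'] at hξL
    exact zero_ne_one hξL
  -- order of ξ
  have hord : orderOf ((ξ : TeichO p) : PadicAlgCl p) = m := by
    apply Nat.dvd_antisymm (orderOf_dvd_of_pow_eq_one hξL)
    rw [← hθord]
    apply orderOf_dvd_of_pow_eq_one
    have h1 : ξ ^ (orderOf ((ξ : TeichO p) : PadicAlgCl p)) = 1 := by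
      apply Subtype.ext
      push_cast
      exact pow_orderOf_eq_one _
    have h2 := congrArg (IsLocalRing.residue (TeichO p)) h1
    rw [map_pow, hξθ, map_one, ← map_pow, ← map_one ι] at h2
    have h3 := hιinj h2
    ext
    rw [Units.val_pow_eq_pow_val, h3, Units.val_one]
  let ξu : (PadicAlgCl p)ˣ := Units.mk0 _ hξ0
  have hξu : ξu ∈ rootsOfUnity (Fintype.card kˣ) (PadicAlgCl p) := by
    rw [mem_rootsOfUnity, hcard]
    ext
    rw [Units.val_pow_eq_pow_val, Units.val_mk0, hξL, Units.val_one]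
  let Ω : MulChar k (PadicAlgCl p) := MulChar.ofRootOfUnity hξu hθ
  have hΩθ : Ω θ = ξ := MulChar.ofRootOfUnity_spec hξu hθ
  -- Ω lifts ι
  have hlift : ∀ x : k, ∃ y : TeichO p, (y : PadicAlgCl p) = Ω x ∧
      IsLocalRing.residue (TeichO p) y = ι x := by
    intro x
    rcases eq_or_ne x 0 with rfl | hx
    · refine ⟨0, ?_, ?_⟩
      · rw [MulChar.map_zero]; simp
      · rw [map_zero, map_zero]
    · obtain ⟨i, hi⟩ := (mem_powers_iff_mem_zpowers).2 (hθ (Units.mk0 x hx))
      have hi' : (θ : k) ^ i = x := by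
        have := congrArg (fun u : kˣ => (u : k)) hi
        simpa using this
      refine ⟨ξ ^ i, ?_, ?_⟩
      · rw [← hi', map_pow, hΩθ]; push_cast; rfl
      · rw [map_pow, hξθ, ← map_pow, hi']
  have hΩord : orderOf Ω = m := by
    apply Nat.dvd_antisymm
    · have := MulChar.orderOf_dvd_card_sub_one (F := k) Ω
      rwa [hq] at this
    · rw [← hord]
      apply orderOf_dvd_of_pow_eq_one
      rw [← hΩθ, ← MulChar.pow_apply_coe, pow_orderOf_eq_one, MulChar.one_apply_coe]
  refine ⟨Ω⁻¹, ?_, ?_⟩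
  · rw [orderOf_inv, hΩord]
  · choose Y hY1 hY2 using hlift
    set S : TeichO p := ∑ x : k, Y x⁻¹ * ((Algebra.trace (ZMod p) k x).val : TeichO p) with hS
    have hScoe : (S : PadicAlgCl p) =
        ∑ x : k, Ω⁻¹ x * ((Algebra.trace (ZMod p) k x).val : PadicAlgCl p) := by
      rw [hS]
      push_cast
      refine Finset.sum_congr rfl fun x _ => ?_
      rw [MulChar.inv_apply', hY1]
    have hSres : IsLocalRing.residue (TeichO p) S = -1 := by
      rw [hS, map_sum]
      have h1 : ∀ x : k, IsLocalRing.residue (TeichO p)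
          (Y x⁻¹ * ((Algebra.trace (ZMod p) k x).val : TeichO p)) =
          ι (x⁻¹ * ∑ i ∈ range n, x ^ (p ^ i)) := by
        intro x
        rw [map_mul, hY2, map_natCast, map_mul]
        congr 1
        have hfin : Module.finrank (ZMod p) k = n := by
          have h2 := Module.card_eq_pow_finrank (K := ZMod p) (V := k)
          rw [hq, ZMod.card] at h2
          exact (Nat.pow_right_injective hp.two_le h2).symm
        have h3 := FiniteField.algebraMap_trace_eq_sum_pow (ZMod p) k x
        rw [hfin, Nat.card_eq_fintype_card, ZMod.card] at h3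
        rw [← h3, AlgHom.commutes]
        rw [← map_natCast (algebraMap (ZMod p) (TeichK p)), ZMod.natCast_zmod_val]
      simp_rw [h1]
      rw [← map_sum, teich_sum_pow p k n hn hq, map_neg, map_one]
    rw [← hScoe]
    apply le_antisymm ((mem_teichO p _).1 S.2)
    by_contra hlt
    rw [not_le] at hlt
    rw [← residue_zero_iff, hSres] at hlt
    exact one_ne_zero (neg_eq_zero.1 hlt)

end Teich

end Fermat950
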