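import Mathlib
import Pool.Agent.Lib.MP_950c68_ag.F.Teich
import Pool.Agent.Lib.MP_950c68_ag.F.Stick
import Pool.Agent.Lib.MP_950c68_ag.F.Digits
import Pool.Agent.Lib.MP_950c68_ag.F.Cot
import Pool.Agent.Lib.MP_950c68_ag.F.Bern
import Pool.Agent.Lib.MP_950c68_ag.F.BernPP

/-! # The stub statements of `Stick`, `Bern`, `BernPP`, glued -/

open Finset

namespace Fermat950

theorem norm_gaussSum (p n : ℕ) [Fact p.Prime] (hn : 0 < n) (k : Type) [Field k] [Fintype k]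
    [Algebra (ZMod p) k] (hq : Fintype.card k = p ^ n) :
    ∃ ω : MulChar k (PadicAlgCl p), orderOf ω = p ^ n - 1 ∧
      ∀ ψ : AddChar k (PadicAlgCl p), ψ ≠ 1 → ∀ j : ℕ, j < p ^ n - 1 →
        ‖gaussSum (ω ^ j) ψ‖ ^ (p - 1) = ((p : ℝ)⁻¹) ^ (Nat.digits p j).sum :=
  norm_gaussSum_of p n k hq (exists_teich p n hn k hq)

theorem sum_val_ne_zero {N : ℕ} [NeZero N] (χ : DirichletCharacter ℂ N) (hodd : χ.Odd)
    (hprim : χ.IsPrimitive) : ∑ j : ZMod N, χ j * (j.val : ℂ) ≠ 0 :=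
  sum_val_ne_zero_of_cot (fun N _ hN χ hodd => LFunction_one_eq_cot hN χ hodd) χ hodd hprim

theorem sum_val_ne_zero_pow (l e : ℕ) [Fact l.Prime] (he : 0 < e)
    (χ : DirichletCharacter ℂ (l ^ e)) (hodd : χ.Odd) :
    ∑ j : ZMod (l ^ e), χ j * (j.val : ℂ) ≠ 0 :=
  sum_val_ne_zero_pow_of (fun _ _ χ hodd hprim => sum_val_ne_zero χ hodd hprim) l e he χ hodd

end Fermat950
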