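import Mathlib
import Pool.Agent.Lib.MP_950c68_ag.F.Lift

open Finset

namespace Fermat950

section lift
variable {l e : ℕ} [Fact l.Prime] {W : Type} [AddCommGroup W]

theorem nonunit_eq_mul (he : 0 < e) (x : ZMod (l ^ e)) (hx : (l : ZMod (l ^ e)) ^ (e - 1) * x = 0) :
    ∃ c, x = (l : ZMod (l ^ e)) * c := by
  have hl : l.Prime := Fact.out
  have : NeZero (l ^ e) := ⟨(pow_pos hl.pos e).ne'⟩
  have h1 : ((l ^ (e - 1) * x.val : ℕ) : ZMod (l ^ e)) = 0 := by
    push_cast
    rw [ZMod.natCast_zmod_val]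
    exact hx
  rw [ZMod.natCast_eq_zero_iff] at h1
  have h2 : l ^ e = l ^ (e - 1) * l := by rw [← pow_succ]; congr 1; omega
  have h1' : l ^ (e - 1) * l ∣ l ^ (e - 1) * x.val := by rw [← h2]; exact h1
  have h3 : l ∣ x.val := Nat.dvd_of_mul_dvd_mul_left (pow_pos hl.pos _) h1'
  obtain ⟨c, hc⟩ := h3
  refine ⟨(c : ZMod (l ^ e)), ?_⟩
  rw [← Nat.cast_mul, ← hc, ZMod.natCast_zmod_val]

theorem isUnit_of (he : 0 < e) (x : ZMod (l ^ e)) (hx : (l : ZMod (l ^ e)) ^ (e - 1) * x ≠ 0) :
    IsUnit x := by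
  have hl : l.Prime := Fact.out
  have : NeZero (l ^ e) := ⟨(pow_pos hl.pos e).ne'⟩
  rw [← ZMod.natCast_zmod_val x, ZMod.isUnit_iff_coprime]
  apply Nat.Coprime.pow_right
  rw [Nat.coprime_comm, Nat.Prime.coprime_iff_not_dvd hl]
  rintro ⟨c, hc⟩
  apply hx
  rw [← ZMod.natCast_zmod_val x, hc]
  have h2 : l ^ e = l ^ (e - 1) * l := by rw [← pow_succ]; congr 1; omega
  have : ((l ^ (e - 1) * (l * c) : ℕ) : ZMod (l ^ e)) = 0 := by
    rw [ZMod.natCast_eq_zero_iff]
    exact ⟨c, by rw [h2]; ring⟩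
  rw [← this]; push_cast; ring

theorem map_sum_sum {α β A : Type} [AddCommMonoid A] (F : Finset α) (ν : α → Multiset β)
    (g : β → A) : ((∑ y ∈ F, ν y).map g).sum = ∑ y ∈ F, ((ν y).map g).sum := by
  classical
  induction F using Finset.induction_on with
  | empty => simp
  | insert a s ha ih => rw [Finset.sum_insert ha, Finset.sum_insert ha, Multiset.map_add,
      Multiset.sum_add, ih]

theorem card_sum_sum {α β : Type} (F : Finset α) (ν : α → Multiset β) :
    Multiset.card (∑ y ∈ F, ν y) = ∑ y ∈ F, Multiset.card (ν y) := by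
  classical
  induction F using Finset.induction_on with
  | empty => simp
  | insert a s ha ih => rw [Finset.sum_insert ha, Finset.sum_insert ha, Multiset.card_add, ih]

/-- the sum over a fibre -/
theorem fiber_sum (he : 0 < e) (h : ZMod (l ^ e))
    (hh : l = 2 → h = ((l ^ e / 2 : ℕ) : ZMod (l ^ e))) (c : ZMod (l ^ e)) :
    (l : ZMod (l ^ e)) * c = ((Multiset.range l).map
          (fun i : ℕ => c + (i : ZMod (l ^ e)) * ((l ^ e / l : ℕ) : ZMod (l ^ e)))).sum +
        (if l = 2 then h else 0) := by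
  have hl : l.Prime := Fact.out
  have h0 : ((Multiset.range l).map
          (fun i : ℕ => c + (i : ZMod (l ^ e)) * ((l ^ e / l : ℕ) : ZMod (l ^ e)))).sum =
      ∑ i ∈ range l, (c + (i : ZMod (l ^ e)) * ((l ^ e / l : ℕ) : ZMod (l ^ e))) := rfl
  obtain ⟨r, hr⟩ : l ∣ l ^ e := dvd_pow_self l he.ne'
  have hmd : l ^ e / l = r := by
    conv_lhs => rw [hr]
    exact Nat.mul_div_cancel_left r hl.pos
  rw [h0, Finset.sum_add_distrib, Finset.sum_const, card_range, ← Finset.sum_mul, hmd,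
    ← Nat.cast_sum, nsmul_eq_mul]
  have hlr : ((l * r : ℕ) : ZMod (l ^ e)) = 0 := by
    rw [ZMod.natCast_eq_zero_iff, ← hr]
  rcases hl.eq_two_or_odd with hl2 | hl2
  · rw [if_pos hl2, hh hl2]
    have h1 : l ^ e / 2 = r := by rw [← hmd, hl2]
    rw [h1]
    have h2 : (∑ i ∈ range l, i) = 1 := by rw [hl2]; rfl
    rw [h2]
    have h3 : (r : ZMod (l ^ e)) + r = 0 := by
      rw [← hlr, hl2]; push_cast; ring
    calc (l : ZMod (l ^ e)) * c = l * c + 0 := by ring
      _ = _ := by rw [← h3]; push_cast; ring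
  · rw [if_neg (by omega), add_zero]
    have h2 : (∑ i ∈ range l, i) = l * ((l - 1) / 2) := by
      have := Finset.sum_range_id_mul_two l
      have h4 : (l - 1) / 2 * 2 = l - 1 := by omega
      have h5 : (∑ i ∈ range l, i) * 2 = l * ((l - 1) / 2) * 2 := by
        rw [this, mul_assoc, h4]
      exact Nat.eq_of_mul_eq_mul_right two_pos h5
    have h3 : (((∑ i ∈ range l, i : ℕ) : ZMod (l ^ e))) * (r : ZMod (l ^ e)) = 0 := by
      rw [h2, ← Nat.cast_mul]
      have : l * ((l - 1) / 2) * r = (l * r) * ((l - 1) / 2) := by ring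
      rw [this, Nat.cast_mul, hlr, zero_mul]
    rw [h3, add_zero]

/-- the lifting of a character to units, by the distribution relations -/
theorem exists_lift (he : 0 < e) (f : ZMod (l ^ e) → W) (h : ZMod (l ^ e))
    (hh : l = 2 → h = ((l ^ e / 2 : ℕ) : ZMod (l ^ e)))
    (hdist : ∀ c : ZMod (l ^ e), (l : ZMod (l ^ e)) * c ≠ 0 →
      f ((l : ZMod (l ^ e)) * c) =
        (((Multiset.range l).map
          (fun i : ℕ => c + (i : ZMod (l ^ e)) * ((l ^ e / l : ℕ) : ZMod (l ^ e)))).map f).sum +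
          (if l = 2 then f h else 0))
    (x : ZMod (l ^ e)) (hx : x ≠ 0) :
    ∃ (ν : Multiset (ZMod (l ^ e))ˣ) (ε : ℕ), (l ≠ 2 → ε = 0) ∧
      f x = (ν.map (fun u : (ZMod (l ^ e))ˣ => f (u : ZMod (l ^ e)))).sum + ε • f h ∧
      x = (ν.map (fun u : (ZMod (l ^ e))ˣ => (u : ZMod (l ^ e)))).sum + ε • h ∧
      Odd (Multiset.card ν + ε) ∧
      ∀ t : (ZMod (l ^ e))ˣ,
        2 * (ν.map (fun u : (ZMod (l ^ e))ˣ => ((t : ZMod (l ^ e)) * u).val)).sum + l ^ e =
          2 * ((t : ZMod (l ^ e)) * x).val + l ^ e * Multiset.card ν := by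
  classical
  have hl : l.Prime := Fact.out
  have : NeZero (l ^ e) := ⟨(pow_pos hl.pos e).ne'⟩
  -- induction on the valuation
  suffices H : ∀ j : ℕ, ∀ x : ZMod (l ^ e), (l : ZMod (l ^ e)) ^ (e - 1 - j) * x ≠ 0 →
      ∃ (ν : Multiset (ZMod (l ^ e))ˣ) (ε : ℕ), (l ≠ 2 → ε = 0) ∧
      f x = (ν.map (fun u : (ZMod (l ^ e))ˣ => f (u : ZMod (l ^ e)))).sum + ε • f h ∧
      x = (ν.map (fun u : (ZMod (l ^ e))ˣ => (u : ZMod (l ^ e)))).sum + ε • h ∧
      Odd (Multiset.card ν + ε) ∧
      ∀ t : (ZMod (l ^ e))ˣ,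
        2 * (ν.map (fun u : (ZMod (l ^ e))ˣ => ((t : ZMod (l ^ e)) * u).val)).sum + l ^ e =
          2 * ((t : ZMod (l ^ e)) * x).val + l ^ e * Multiset.card ν by
    exact H (e - 1) x (by simpa using hx)
  clear hx x
  intro j
  induction j with
  | zero =>
    intro x hx
    obtain ⟨u, rfl⟩ := isUnit_of he x (by simpa using hx)
    exact ⟨{u}, 0, fun _ => rfl, by simp, by simp, by simp, fun t => by simp⟩
  | succ j ih =>
    intro x hx
    by_cases hj : e - 1 - (j + 1) = e - 1 - j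
    · exact ih x (by rwa [hj] at hx)
    by_cases hx' : (l : ZMod (l ^ e)) ^ (e - 1 - j) * x = 0
    swap
    · exact ih x hx'
    have hj2 : e - 1 - j = (e - 1 - (j + 1)) + 1 := by omega
    obtain ⟨c, hc⟩ := nonunit_eq_mul he x (by
      have : e - 1 = j + (e - 1 - j) := by omega
      rw [this, pow_add, mul_assoc, hx', mul_zero])
    have hc0 : (l : ZMod (l ^ e)) * c ≠ 0 := by
      rw [← hc]; intro h0; apply hx; rw [h0, mul_zero]
    -- the fibre
    let F : Finset (ZMod (l ^ e)) :=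
      univ.filter (fun y : ZMod (l ^ e) => (l : ZMod (l ^ e)) * y = (l : ZMod (l ^ e)) * c)
    have hF := fiber_eq (m := l ^ e) (d := l) (dvd_pow_self l he.ne') c
    have hmem : ∀ y ∈ F, (l : ZMod (l ^ e)) ^ (e - 1 - j) * y ≠ 0 := by
      intro y hy
      simp only [F, mem_filter, mem_univ, true_and] at hy
      rw [hj2, pow_succ, mul_assoc, hy, ← hc]
      exact hx
    choose! ν ε h1 h2 h3 h4 h5 using fun y hy => ih y (hmem y hy)
    have hcardF : F.card = l := by
      have := congrArg Multiset.card hF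
      rw [Multiset.card_map, Multiset.card_range] at this
      exact this.symm
    refine ⟨∑ y ∈ F, ν y, ∑ y ∈ F, ε y + (if l = 2 then 1 else 0), ?_, ?_, ?_, ?_, ?_⟩
    · intro hl2
      rw [if_neg hl2, add_zero]
      exact Finset.sum_eq_zero fun y hy => h1 y hy hl2
    · rw [hc, hdist c hc0, hF]
      have hs1 : (F.val.map f).sum = ∑ y ∈ F, f y := rfl
      rw [hs1, map_sum_sum, Finset.sum_congr rfl h2, Finset.sum_add_distrib, add_smul,
        Finset.sum_smul, add_assoc]
      congr 2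
      split_ifs <;> simp
    · rw [map_sum_sum]
      have hs1 := fiber_sum he h hh c
      have hs2 : F.val.sum = ∑ y ∈ F, y := by
        show _ = (F.val.map (fun y => y)).sum
        rw [Multiset.map_id']
      rw [hF] at hs1
      change (l : ZMod (l ^ e)) * c = F.val.sum + _ at hs1
      rw [hs2, Finset.sum_congr rfl h3, Finset.sum_add_distrib, ← hc] at hs1
      rw [add_smul, Finset.sum_smul, ← add_assoc]
      refine hs1.trans ?_
      congr 1
      split_ifs <;> simp
    · rw [card_sum_sum, ← add_assoc, ← Finset.sum_add_distrib]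
      choose! r hr using fun y hy => h4 y hy
      rw [Finset.sum_congr rfl hr, Finset.sum_add_distrib, Finset.sum_const, hcardF,
        ← Finset.mul_sum]
      rcases hl.eq_two_or_odd with hl2 | hl2
      · rw [if_pos hl2]
        exact ⟨∑ y ∈ F, r y + 1, by simp only [smul_eq_mul, mul_one]; omega⟩
      · rw [if_neg (by omega)]
        exact ⟨∑ y ∈ F, r y + (l - 1) / 2, by simp; omega⟩
    · intro t
      rw [map_sum_sum, card_sum_sum]
      have hs1 : ∑ y ∈ F, (2 * ((ν y).map (fun u : (ZMod (l ^ e))ˣ =>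
          ((t : ZMod (l ^ e)) * u).val)).sum + l ^ e) =
          ∑ y ∈ F, (2 * ((t : ZMod (l ^ e)) * y).val + l ^ e * Multiset.card (ν y)) :=
        Finset.sum_congr rfl fun y hy => h5 y hy t
      rw [Finset.sum_add_distrib, Finset.sum_add_distrib, Finset.sum_const, hcardF,
        ← Finset.mul_sum, ← Finset.mul_sum, ← Finset.mul_sum, smul_eq_mul] at hs1
      have hs2 := fiber_val_sum (m := l ^ e) (d := l) (dvd_pow_self l he.ne') ((t : ZMod (l ^ e)) * c)
      have hs3 := fiber_mul (m := l ^ e) (d := l) c t (fun y => y.val)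
      rw [← hs3] at hs2
      have hs4 : (l : ZMod (l ^ e)) * ((t : ZMod (l ^ e)) * c) = (t : ZMod (l ^ e)) * x := by
        rw [hc]; ring
      rw [hs4] at hs2
      have hs5 : l * l ^ e = l ^ e * l := mul_comm _ _
      change 2 * ∑ y ∈ F, ((t : ZMod (l ^ e)) * y).val + l ^ e = _ at hs2
      omega

/-- the lifting of a multiset -/
theorem exists_lift_multiset (he : 0 < e) (f : ZMod (l ^ e) → W) (h : ZMod (l ^ e))
    (hh : l = 2 → h = ((l ^ e / 2 : ℕ) : ZMod (l ^ e)))
    (hdist : ∀ c : ZMod (l ^ e), (l : ZMod (l ^ e)) * c ≠ 0 →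
      f ((l : ZMod (l ^ e)) * c) =
        (((Multiset.range l).map
          (fun i : ℕ => c + (i : ZMod (l ^ e)) * ((l ^ e / l : ℕ) : ZMod (l ^ e)))).map f).sum +
          (if l = 2 then f h else 0))
    (a : Multiset (ZMod (l ^ e))) (ha : 0 ∉ a) :
    ∃ (ν : Multiset (ZMod (l ^ e))ˣ) (ε : ℕ), (l ≠ 2 → ε = 0) ∧
      (a.map f).sum = (ν.map (fun u : (ZMod (l ^ e))ˣ => f (u : ZMod (l ^ e)))).sum + ε • f h ∧
      a.sum = (ν.map (fun u : (ZMod (l ^ e))ˣ => (u : ZMod (l ^ e)))).sum + ε • h ∧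
      Even (Multiset.card ν + ε + Multiset.card a) ∧
      ∀ t : (ZMod (l ^ e))ˣ,
        2 * (ν.map (fun u : (ZMod (l ^ e))ˣ => ((t : ZMod (l ^ e)) * u).val)).sum +
            l ^ e * Multiset.card a =
          2 * (a.map (fun x => ((t : ZMod (l ^ e)) * x).val)).sum + l ^ e * Multiset.card ν := by
  induction a using Multiset.induction_on with
  | empty => exact ⟨0, 0, fun _ => rfl, by simp, by simp, by simp, fun t => by simp⟩
  | cons x a ih =>
    have hx : x ≠ 0 := fun h => ha (by simp [h])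
    have ha' : 0 ∉ a := fun h => ha (by simp [h])
    obtain ⟨ν, ε, h1, h2, h3, h4, h5⟩ := ih ha'
    obtain ⟨μ, δ, g1, g2, g3, g4, g5⟩ := exists_lift he f h hh hdist x hx
    refine ⟨μ + ν, δ + ε, fun hl2 => by rw [g1 hl2, h1 hl2], ?_, ?_, ?_, ?_⟩
    · rw [Multiset.map_cons, Multiset.sum_cons, Multiset.map_add, Multiset.sum_add, h2, g2,
        add_smul]
      abel
    · rw [Multiset.sum_cons, Multiset.map_add, Multiset.sum_add, h3, add_smul]
      nth_rewrite 1 [g3]
      abel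
    · obtain ⟨r, hr⟩ := h4
      obtain ⟨s, hs⟩ := g4
      rw [Multiset.card_add, Multiset.card_cons]
      exact ⟨r + s + 1, by omega⟩
    · intro t
      have e1 := h5 t
      have e2 := g5 t
      rw [Multiset.map_add, Multiset.sum_add, Multiset.card_add, Multiset.card_cons,
        Multiset.map_cons, Multiset.sum_cons]
      rw [mul_add, mul_add, mul_add, mul_add, mul_one]
      omega

end lift

end Fermat950
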