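import Mathlib
import Pool.Agent.Lib.MP_950c68_ag.F.Defs

/-!
# Transfer of multiplicative relations between Gauss sums (MP_950c68_ag)
-/

open Finset Polynomial

namespace Fermat950

theorem transfer_prim {k : Type} [Field k] [Fintype k] {R : Type} [Field R] {θ : kˣ}
    (hθ : ∀ x, x ∈ Subgroup.zpowers θ) (χ : MulChar k R) :
    IsPrimitiveRoot (χ (θ : k)) (orderOf χ) := by
  refine ⟨?_, fun n hn => ?_⟩
  · rw [← MulChar.pow_apply_coe, pow_orderOf_eq_one, MulChar.one_apply_coe]
  · apply orderOf_dvd_of_pow_eq_one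
    rw [MulChar.eq_iff hθ, MulChar.pow_apply_coe, hn, MulChar.one_apply_coe]

theorem transfer_gaussSum {k : Type} [Field k] [Fintype k] {R R' : Type} [CommRing R]
    [CommRing R'] (f : R →+* R') (χ : MulChar k R) (ψ : AddChar k R) :
    gaussSum (χ.ringHomComp f) ((f : R →* R').compAddChar ψ) = f (gaussSum χ ψ) := by
  simp [gaussSum, map_sum, map_mul]

theorem transfer_gaussProd {k : Type} [Field k] [Fintype k] {m : ℕ} {R R' : Type} [CommRing R]
    [CommRing R'] (f : R →+* R') (χ : MulChar k R) (ψ : AddChar k R) (a : Multiset (ZMod m)) :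
    gaussProd (χ.ringHomComp f) ((f : R →* R').compAddChar ψ) a = f (gaussProd χ ψ a) := by
  unfold gaussProd
  rw [map_multiset_prod, Multiset.map_map]
  congr 1
  refine Multiset.map_congr rfl fun x _ => ?_
  rw [MulChar.ringHomComp_pow, transfer_gaussSum]
  rfl

/-- Multiplicative relations between Gauss sums transfer from `ℂ` to any algebraically closed field
of characteristic `0` and any character of the same order. -/
theorem transfer {k : Type} [Field k] [Fintype k] (L : Type) [Field L] [IsAlgClosed L] [CharZero L]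
    (m : ℕ) (hm : 0 < m) (χ : MulChar k ℂ) (hχ : orderOf χ = m) (χ' : MulChar k L)
    (hχ' : orderOf χ' = m) (ψ : AddChar k ℂ) (hψ : ψ ≠ 1) :
    ∃ ψ' : AddChar k L, ψ' ≠ 1 ∧ ∀ (a : Multiset (ZMod m)) (N M Q : ℕ),
      gaussProd χ ψ a ^ N = (Q : ℂ) ^ M → gaussProd χ' ψ' a ^ N = (Q : L) ^ M := by
  classical
  obtain ⟨θ, hθ⟩ := IsCyclic.exists_generator (α := kˣ)
  have hp : IsPrimitiveRoot (χ (θ : k)) m := hχ ▸ transfer_prim hθ χ
  have hp' : IsPrimitiveRoot (χ' (θ : k)) m := hχ' ▸ transfer_prim hθ χ'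
  let _ : Algebra ℚ L := DivisionRing.toRatAlgebra
  -- the field of algebraic numbers
  let E := algebraicClosure ℚ ℂ
  have hint : ∀ z : ℂ, z ∈ E ↔ IsIntegral ℚ z := fun z => mem_algebraicClosure_iff'
  have hroot : ∀ (z : ℂ) (n : ℕ), 0 < n → z ^ n = 1 → z ∈ E := by
    intro z n hn hz
    rw [hint]
    refine IsIntegral.of_pow hn ?_
    rw [hz]
    exact isIntegral_one
  have hζE : χ (θ : k) ∈ E := hroot _ m hm hp.pow_eq_one
  let ζ : E := ⟨χ (θ : k), hζE⟩
  have hζ0 : ζ ≠ 0 := by
    intro h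
    have h1 : χ (θ : k) = 0 := congrArg Subtype.val h
    exact hp.ne_zero hm.ne' h1
  have hcard : (χ (θ : k)) ^ Fintype.card kˣ = 1 := by
    rw [← map_pow, ← Units.val_pow_eq_pow_val, pow_card_eq_one, Units.val_one, map_one]
  have hζcard : ζ ^ Fintype.card kˣ = 1 := by
    apply Subtype.ext
    simpa [ζ] using hcard
  let ζu : Eˣ := Units.mk0 ζ hζ0
  have hζu : ζu ∈ rootsOfUnity (Fintype.card kˣ) E := by
    rw [mem_rootsOfUnity]
    apply Units.ext
    simpa [ζu] using hζcard
  let χE : MulChar k E := MulChar.ofRootOfUnity hζu hθ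
  have hχE : χE (θ : k) = ζ := by
    have := MulChar.ofRootOfUnity_spec hζu hθ
    simpa [χE, ζu] using this
  -- the additive character
  have hψE : ∀ x : k, ψ x ∈ E := by
    intro x
    obtain ⟨p, hpc⟩ := CharP.exists k
    have hp0 : p ≠ 0 := by
      intro h0
      subst h0
      have := CharP.charP_to_charZero k
      exact (not_finite k)
    refine hroot _ p (Nat.pos_of_ne_zero hp0) ?_
    rw [← AddChar.map_nsmul_eq_pow, nsmul_eq_mul, CharP.cast_eq_zero, zero_mul,
      AddChar.map_zero_eq_one]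
  let ψE : AddChar k E :=
    { toFun := fun x => ⟨ψ x, hψE x⟩
      map_zero_eq_one' := Subtype.ext (AddChar.map_zero_eq_one ψ)
      map_add_eq_mul' := fun x y => Subtype.ext (AddChar.map_add_eq_mul ψ x y) }
  -- the two embeddings
  let ι : E →+* ℂ := algebraMap E ℂ
  obtain ⟨σ, hσ⟩ : ∃ σ : E →ₐ[ℚ] L, σ ζ = χ' (θ : k) := by
    refine IntermediateField.exists_algHom_of_splits_of_aeval (F := ℚ) (E := E) (K := L) ?_ ?_
    · intro s
      exact ⟨(isIntegral_algHom_iff E.val E.val.injective).1 ((hint _).1 s.2),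
        IsAlgClosed.splits _⟩
    · have h1 : minpoly ℚ ζ = minpoly ℚ (χ (θ : k)) :=
        (minpoly.algebraMap_eq (B := E) (B' := ℂ) (algebraMap E ℂ).injective ζ).symm
      rw [h1, ← cyclotomic_eq_minpoly_rat hp hm, cyclotomic_eq_minpoly_rat hp' hm]
      exact minpoly.aeval _ _
  have hχι : χE.ringHomComp ι = χ := by
    rw [MulChar.eq_iff hθ, MulChar.ringHomComp_apply, hχE]
    rfl
  have hχσ : χE.ringHomComp (σ : E →+* L) = χ' := by
    rw [MulChar.eq_iff hθ, MulChar.ringHomComp_apply, hχE]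
    exact hσ
  have hψι : (ι : E →* ℂ).compAddChar ψE = ψ := by
    ext x
    rfl
  refine ⟨((σ : E →+* L) : E →* L).compAddChar ψE, ?_, ?_⟩
  · intro h
    apply hψ
    ext x
    have h1 : (((σ : E →+* L) : E →* L).compAddChar ψE) x = 1 := by rw [h]; rfl
    have h2 : (σ : E →+* L) (ψE x) = (σ : E →+* L) 1 := by
      rw [map_one]; exact h1
    have h3 : ψE x = 1 := (σ : E →+* L).injective h2
    have h4 : ψ x = 1 := congrArg Subtype.val h3
    rw [h4]
    rfl
  · intro a N M Q h
    rw [← hχι, ← hψι, transfer_gaussProd, ← map_pow] at h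
    have h5 : ι (gaussProd χE ψE a ^ N) = ι ((Q : E) ^ M) := by
      rw [h, map_pow, map_natCast]
    have h6 := ι.injective h5
    rw [← hχσ, transfer_gaussProd, ← map_pow, h6, map_pow, map_natCast]

end Fermat950
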