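import Mathlib
import Pool.Agent.Lib.MP_950c68_ag.F.Easy
import Pool.Agent.Lib.MP_950c68_ag.F.Transfer
import Pool.Agent.Lib.MP_950c68_ag.F.Glue

open Finset

namespace Fermat950

/-- Stickelberger: the valuations of a pure product of Gauss sums. -/
theorem stick_sum {m : ℕ} (hm : 0 < m) (p n : ℕ) [Fact p.Prime] (hn : 0 < n) (k : Type) [Field k]
    [Fintype k] [Algebra (ZMod p) k] (hq : Fintype.card k = p ^ n) (hmq : m ∣ p ^ n - 1)
    (χ : MulChar k ℂ) (hχ : orderOf χ = m) (ψ : AddChar k ℂ) (hψ : ψ ≠ 1)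
    (a : Multiset (ZMod m)) (ha : Pure χ ψ a) (t : (ZMod m)ˣ) :
    2 * ∑ i ∈ range n, (a.map fun x : ZMod m => ((p : ZMod m) ^ i * ((t : ZMod m) * x)).val).sum =
      m * n * Multiset.card a := by
  have hp : p.Prime := Fact.out
  have : NeZero m := ⟨hm.ne'⟩
  obtain ⟨s, hs⟩ := hmq
  have hq1 : 0 < p ^ n - 1 := by
    have : 1 < p ^ n := Nat.one_lt_pow hn.ne' hp.one_lt
    omega
  have hs0 : 0 < s := by
    rcases Nat.eq_zero_or_pos s with h | h
    · rw [h, mul_zero] at hs; omega
    · exact h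
  obtain ⟨ω, hω, hnorm⟩ := norm_gaussSum p n hn k hq
  have hcop : Nat.Coprime (t : ZMod m).val m := ZMod.val_coe_unit_coprime t
  set χ' : MulChar k (PadicAlgCl p) := ω ^ (s * (t : ZMod m).val) with hχ'def
  have hχ' : orderOf χ' = m := by
    rw [hχ'def, orderOf_pow, hω, hs, mul_comm m s, Nat.gcd_mul_left, hcop.symm.gcd_eq_one, mul_one,
      Nat.mul_div_cancel_left m hs0]
  obtain ⟨ψ', hψ', htr⟩ := transfer (PadicAlgCl p) m hm χ hχ χ' hχ' ψ hψ
  obtain ⟨N, hN, hN2⟩ := ha
  have h1 := htr a (2 * N) (N * Multiset.card a) (Fintype.card k) hN2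
  -- the exponents
  let j : ZMod m → ℕ := fun x => s * ((t : ZMod m) * x).val
  have hj : ∀ x, j x < p ^ n - 1 := by
    intro x
    show s * _ < _
    rw [hs, mul_comm m s]
    exact Nat.mul_lt_mul_of_pos_left (ZMod.val_lt _) hs0
  have hpow : ∀ x : ZMod m, χ' ^ x.val = ω ^ (j x) := by
    intro x
    rw [hχ'def, ← pow_mul]
    have e1 : s * (t : ZMod m).val * x.val = s * ((t : ZMod m).val * x.val) := by ring
    have e2 := Nat.mod_add_div ((t : ZMod m).val * x.val) m
    rw [e1, ← e2, mul_add, pow_add, ← ZMod.val_mul]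
    have e3 : ω ^ (s * (m * ((t : ZMod m).val * x.val / m))) = 1 := by
      have : s * (m * ((t : ZMod m).val * x.val / m)) =
          (p ^ n - 1) * ((t : ZMod m).val * x.val / m) := by rw [hs]; ring
      rw [this, ← hω, pow_mul, pow_orderOf_eq_one, one_pow]
    rw [e3, mul_one]
  have hprod : ‖gaussProd χ' ψ' a‖ ^ (p - 1) =
      ((p : ℝ)⁻¹) ^ ((a.map fun x : ZMod m => (Nat.digits p (j x)).sum).sum) := by
    clear h1 hN2
    induction a using Multiset.induction_on with
    | empty => simp [gaussProd_zero]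
    | cons x a ih =>
      rw [gaussProd_cons, norm_mul, mul_pow, ih, hpow, hnorm ψ' hψ' _ (hj x), Multiset.map_cons,
        Multiset.sum_cons, pow_add]
  have hpn : ‖(Fintype.card k : PadicAlgCl p)‖ = ((p : ℝ)⁻¹) ^ n := by
    rw [hq, Nat.cast_pow, norm_pow, stick_norm_p]
  have h2 : ((p : ℝ)⁻¹) ^ (((a.map fun x : ZMod m => (Nat.digits p (j x)).sum).sum) * (2 * N)) =
      ((p : ℝ)⁻¹) ^ (n * (N * Multiset.card a) * (p - 1)) := by
    have h3 := congrArg (fun z => ‖z‖ ^ (p - 1)) h1
    simp only [norm_pow] at h3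
    rw [hpn] at h3
    rw [pow_mul, ← hprod, ← pow_mul, mul_comm (p - 1) (2 * N), pow_mul, h3]
    ring
  have hp0 : (0 : ℝ) < (p : ℝ)⁻¹ := inv_pos.2 (by exact_mod_cast hp.pos)
  have hp1 : (p : ℝ)⁻¹ < 1 := inv_lt_one_of_one_lt₀ (by exact_mod_cast hp.one_lt)
  have h4 := pow_right_injective₀ hp0 hp1.ne h2
  have h5 : 2 * (a.map fun x : ZMod m => (Nat.digits p (j x)).sum).sum =
      n * Multiset.card a * (p - 1) := by
    have : N * (2 * (a.map fun x : ZMod m => (Nat.digits p (j x)).sum).sum) =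
        N * (n * Multiset.card a * (p - 1)) := by
      have h4' : (a.map fun x : ZMod m => (Nat.digits p (j x)).sum).sum * (2 * N) =
        n * (N * Multiset.card a) * (p - 1) := h4
      calc _ = (a.map fun x : ZMod m => (Nat.digits p (j x)).sum).sum * (2 * N) := by ring
        _ = _ := by rw [h4']; ring
    exact Nat.eq_of_mul_eq_mul_left hN this
  -- the digit sums
  have h6 : ∀ x : ZMod m, (p - 1) * (s * ∑ i ∈ range n, ((p : ZMod m) ^ i * ((t : ZMod m) * x)).val) =
      (m * s) * (Nat.digits p (j x)).sum := by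
    intro x
    have h7 := digits_sum_eq p n hp hn (j x) (hj x)
    rw [hs] at h7
    rw [← h7, Finset.mul_sum]
    congr 1
    refine Finset.sum_congr rfl fun i _ => ?_
    show _ = (p ^ i * (s * ((t : ZMod m) * x).val)) % (m * s)
    have e1 : p ^ i * (s * ((t : ZMod m) * x).val) = (p ^ i * ((t : ZMod m) * x).val) * s := by ring
    rw [e1, Nat.mul_mod_mul_right, mul_comm s]
    congr 1
    rw [ZMod.val_mul]
    have e2 : ((p : ZMod m) ^ i).val = p ^ i % m := by
      rw [← Nat.cast_pow, ZMod.val_natCast]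
    rw [e2, Nat.mod_mul_mod]
  have h8 : (p - 1) * (s * ∑ i ∈ range n,
      (a.map fun x : ZMod m => ((p : ZMod m) ^ i * ((t : ZMod m) * x)).val).sum) =
      (m * s) * (a.map fun x : ZMod m => (Nat.digits p (j x)).sum).sum := by
    clear h1 h2 h4 h5 hN2 hprod
    induction a using Multiset.induction_on with
    | empty => simp
    | cons x a ih =>
      simp only [Multiset.map_cons, Multiset.sum_cons, Finset.sum_add_distrib, mul_add]
      rw [ih, h6]
  have h9 : (p - 1) * s * (2 * ∑ i ∈ range n,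
      (a.map fun x : ZMod m => ((p : ZMod m) ^ i * ((t : ZMod m) * x)).val).sum) =
      (p - 1) * s * (m * n * Multiset.card a) := by
    calc _ = 2 * ((p - 1) * (s * ∑ i ∈ range n,
      (a.map fun x : ZMod m => ((p : ZMod m) ^ i * ((t : ZMod m) * x)).val).sum)) := by ring
      _ = (m * s) * (2 * (a.map fun x : ZMod m => (Nat.digits p (j x)).sum).sum) := by
          rw [h8]; ring
      _ = _ := by rw [h5]; ring
  have hp2 : 0 < p - 1 := by have := hp.two_le; omega
  exact Nat.eq_of_mul_eq_mul_left (Nat.mul_pos hp2 hs0) h9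

end Fermat950
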