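import Mathlib
import Pool.Agent.Lib.MP_950c68_ag.F.Close
import Pool.Agent.Lib.MP_950c68_ag.F.Comb
import Pool.Agent.Lib.MP_950c68_ag.F.Lift2
import Pool.Agent.Lib.MP_950c68_ag.F.StickSum
import Pool.Agent.Lib.MP_950c68_ag.F.Fourier

open Finset

namespace Fermat950

theorem pure_of_single {k : Type} [Field k] [Fintype k] {m : ℕ} {χ : MulChar k ℂ}
    {ψ : AddChar k ℂ} (h : ∀ x : ZMod m, x ≠ 0 → Pure χ ψ {x}) (a : Multiset (ZMod m))
    (h0 : 0 ∉ a) : Pure χ ψ a := by
  induction a using Multiset.induction_on with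
  | empty => exact Pure.zero
  | cons x a ih =>
    have hx : x ≠ 0 := fun h => h0 (by simp [h])
    have ha' : 0 ∉ a := fun h => h0 (by simp [h])
    rw [← Multiset.singleton_add]
    exact (h x hx).add (ih ha')

/-- The generation theorem: characters of prime power degree. -/
theorem alg_of_pure (l e : ℕ) [Fact l.Prime] (he : 0 < e) (k : Type) [Field k] [Fintype k]
    (χ : MulChar k ℂ) (hχ : orderOf χ = l ^ e) (ψ : AddChar k ℂ) (hψ : ψ ≠ 1)
    (a : Multiset (ZMod (l ^ e))) (ha : a ≠ 0) (h0 : 0 ∉ a) (hs : a.sum = 0)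
    (hev : Even (Multiset.card a)) (hT : Pure χ ψ a) : Alg χ ψ a := by
  classical
  have hl : l.Prime := Fact.out
  have hne : NeZero (l ^ e) := ⟨(pow_pos hl.pos e).ne'⟩
  -- the characteristic
  obtain ⟨p, hpchar⟩ := CharP.exists k
  have hpp : p.Prime := (CharP.char_is_prime_or_zero k p).resolve_right
    (CharP.char_ne_zero_of_finite k p)
  have hpf : Fact p.Prime := ⟨hpp⟩
  let _ : Algebra (ZMod p) k := ZMod.algebra k p
  obtain ⟨n, hn0, hq⟩ : ∃ n : ℕ, 0 < n ∧ Fintype.card k = p ^ n := by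
    obtain ⟨n, _, hn⟩ := FiniteField.card k p
    exact ⟨n, n.pos, hn⟩
  -- l ^ e divides q - 1
  have hmq : l ^ e ∣ p ^ n - 1 := by
    rw [← hχ]
    apply orderOf_dvd_of_pow_eq_one
    ext u
    have h1 : (u : kˣ) ^ (p ^ n - 1) = 1 := by
      have := FiniteField.pow_card_sub_one_eq_one (u : k) u.ne_zero
      rw [hq] at this
      ext; push_cast; exact this
    rw [MulChar.pow_apply_coe, MulChar.one_apply_coe, ← map_pow, ← Units.val_pow_eq_pow_val, h1]
    simp
  have hpn1 : 1 ≤ p ^ n := Nat.one_le_iff_ne_zero.2 (pow_pos hpp.pos n).ne'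
  -- the unit P
  have hPpow : (p : ZMod (l ^ e)) ^ n = 1 := by
    have h2 : ((p ^ n - 1 : ℕ) : ZMod (l ^ e)) = 0 := by
      rw [ZMod.natCast_eq_zero_iff]; exact hmq
    rw [Nat.cast_sub hpn1] at h2
    push_cast at h2
    exact sub_eq_zero.1 h2
  let P : (ZMod (l ^ e))ˣ := Units.ofPowEqOne (p : ZMod (l ^ e)) n hPpow hn0.ne'
  have hPval : (P : ZMod (l ^ e)) = (p : ZMod (l ^ e)) := rfl
  have hPn : P ^ n = 1 := by
    ext; rw [Units.val_pow_eq_pow_val, hPval, hPpow]; rfl
  apply alg_of_cls hχ hψ ha h0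
  by_cases hcase : ∃ i : ℕ, P ^ i = -1
  · -- supersingular case
    obtain ⟨i, hi⟩ := hcase
    have hi' : (p : ZMod (l ^ e)) ^ i = -1 := by
      rw [← hPval, ← Units.val_pow_eq_pow_val, hi]; simp
    have hsing : ∀ x : ZMod (l ^ e), x ≠ 0 → Pure χ ψ {x} := fun x hx =>
      pure_single hχ hψ p i hi' hx
    apply comb_supersingular (cls χ ψ) cls_zero cls_neg ?_ a h0 hs hev
    intro x y x' y' hx hy hxy hx' hy' hxy'
    have hz := neg_ne_zero.2 hxy
    have hz' := neg_ne_zero.2 hxy'
    have h3 := cls_curves (χ := χ) (ψ := ψ) hx hy hz hx' hy' hz'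
      (by ring) (by ring) (pure_of_single hsing _ (by
        simp only [Multiset.insert_eq_cons, Multiset.mem_add, Multiset.mem_cons,
          Multiset.mem_singleton, hx.symm, hy.symm, hz.symm, hx'.symm, hy'.symm, hz'.symm,
          or_self, not_false_eq_true]))
    rw [cls_neg, cls_neg] at h3
    rw [← h3]; abel
  · -- general case
    push Not at hcase
    set h : ZMod (l ^ e) := ((l ^ e / 2 : ℕ) : ZMod (l ^ e)) with hh
    obtain ⟨ν, ε, h1, h2, h3, h4, h5⟩ := exists_lift_multiset he (cls χ ψ) h (fun _ => hh)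
      (fun c hc => cls_dist hl (dvd_pow_self l he.ne') c hc) a h0
    -- Stickelberger for ν
    have hst : ∀ t : (ZMod (l ^ e))ˣ,
        2 * ∑ i ∈ range n,
          (ν.map fun u => ((t * P ^ i * u : (ZMod (l ^ e))ˣ) : ZMod (l ^ e)).val).sum =
          l ^ e * n * Multiset.card ν := by
      intro t
      have h6 := stick_sum (NeZero.pos (l ^ e)) p n hn0 k hq hmq χ hχ ψ hψ a hT t
      have h7 : ∀ i, 2 * (ν.map fun u => ((t * P ^ i * u : (ZMod (l ^ e))ˣ) : ZMod (l ^ e)).val).sum +
          l ^ e * Multiset.card a =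
          2 * (a.map fun x : ZMod (l ^ e) =>
            ((p : ZMod (l ^ e)) ^ i * ((t : ZMod (l ^ e)) * x)).val).sum +
          l ^ e * Multiset.card ν := by
        intro i
        have h5i := h5 (t * P ^ i)
        have g1 : (ν.map fun u => ((t * P ^ i * u : (ZMod (l ^ e))ˣ) : ZMod (l ^ e)).val) =
            ν.map (fun u : (ZMod (l ^ e))ˣ =>
              (((t * P ^ i : (ZMod (l ^ e))ˣ) : ZMod (l ^ e)) * u).val) :=
          Multiset.map_congr rfl fun u _ => by rw [Units.val_mul (t * P ^ i) u]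
        have g2 : (a.map fun x : ZMod (l ^ e) =>
            ((p : ZMod (l ^ e)) ^ i * ((t : ZMod (l ^ e)) * x)).val) =
            a.map (fun x => (((t * P ^ i : (ZMod (l ^ e))ˣ) : ZMod (l ^ e)) * x).val) :=
          Multiset.map_congr rfl fun x _ => by
            rw [Units.val_mul, Units.val_pow_eq_pow_val, hPval]; congr 1; ring
        rw [g1, g2]
        exact h5i
      have h8 : ∑ i ∈ range n, (2 * (ν.map fun u =>
          ((t * P ^ i * u : (ZMod (l ^ e))ˣ) : ZMod (l ^ e)).val).sum + l ^ e * Multiset.card a) =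
          ∑ i ∈ range n, (2 * (a.map fun x : ZMod (l ^ e) =>
            ((p : ZMod (l ^ e)) ^ i * ((t : ZMod (l ^ e)) * x)).val).sum +
          l ^ e * Multiset.card ν) := Finset.sum_congr rfl fun i _ => h7 i
      rw [Finset.sum_add_distrib, Finset.sum_add_distrib, Finset.sum_const, Finset.sum_const,
        card_range, smul_eq_mul, smul_eq_mul, ← Finset.mul_sum, ← Finset.mul_sum, h6] at h8
      have h9 : n * (l ^ e * Multiset.card a) = l ^ e * n * Multiset.card a := by ring
      have h10 : n * (l ^ e * Multiset.card ν) = l ^ e * n * Multiset.card ν := by ring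
      rw [h9, h10] at h8
      omega
    have hb := balanced_of_stick l e he P n hn0 hPn ν hst
    have hbal : ∀ u, bal P n ν u = 0 := by
      intro u
      unfold bal
      rw [Finset.sum_sub_distrib, sub_eq_zero]
      exact_mod_cast hb u
    obtain ⟨hνev, z, hz1, hz2⟩ := comb_ordinary (cls χ ψ) P n hn0 hPn hcase cls_zero cls_neg
      (fun x y z hx hy hz hxyz => by
        refine cls_curves hx hy hz ?_ ?_ ?_ hxyz ?_ ?_
        · exact neg_ne_zero.2 (fun h => hx (by simpa using h))
        · exact neg_ne_zero.2 (fun h => hy (by simpa using h))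
        · exact neg_ne_zero.2 (fun h => hz (by simpa using h))
        · rw [← neg_add, ← neg_add, ← mul_add, ← mul_add, hxyz, mul_zero, neg_zero]
        · have e1 := pure_pair (χ := χ) (ψ := ψ) hχ hψ p 1 hx
          have e2 := pure_pair (χ := χ) (ψ := ψ) hχ hψ p 1 hy
          have e3 := pure_pair (χ := χ) (ψ := ψ) hχ hψ p 1 hz
          rw [pow_one] at e1 e2 e3
          have e4 := (e1.add e2).add e3
          rw [hPval]
          convert e4 using 1
          simp only [Multiset.insert_eq_cons, ← Multiset.singleton_add]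
          abel) ν hbal
    have hεev : Even ε := by
      have := hev
      obtain ⟨r1, hr1⟩ := h4
      obtain ⟨r2, hr2⟩ := hνev
      obtain ⟨r3, hr3⟩ := hev
      exact ⟨r1 - r2 - r3, by omega⟩
    have hε : ε • h = 0 ∧ ε • cls χ ψ h = 0 := by
      by_cases hl2 : l = 2
      · have h2m : 2 ∣ l ^ e := hl2 ▸ dvd_pow_self l he.ne'
        have hneg : -h = h := half_neg h2m
        have e1 : h + h = 0 := by
          nth_rewrite 1 [← hneg]; simp
        have e2 : cls χ ψ h + cls χ ψ h = 0 := by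
          nth_rewrite 1 [← hneg]; rw [cls_neg]; simp
        obtain ⟨r, hr⟩ := hεev
        rw [hr, ← two_mul, mul_comm]
        rw [mul_smul, mul_smul, two_smul, two_smul, e1, e2]
        simp
      · rw [h1 hl2]; simp
    rw [h2, hε.2, add_zero, hz1]
    rw [hs, hε.1, add_zero] at h3
    rw [← h3] at hz2
    have hz3 : (P : ZMod (l ^ e)) * z = z := by
      have : z - P * z = 0 := by rw [← hz2]; ring
      exact (sub_eq_zero.1 this).symm
    rw [hz3, sub_self]

/-- Main theorem. -/
theorem main (l e : ℕ) [Fact l.Prime] (he : 0 < e) (k : Type) [Field k] [Fintype k]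
    (χ : MulChar k ℂ) (hχ : orderOf χ = l ^ e) (ψ : AddChar k ℂ) (hψ : ψ ≠ 1)
    (a : Multiset (ZMod (l ^ e))) (ha : a ≠ 0) (h0 : 0 ∉ a) (hs : a.sum = 0)
    (hev : Even (Multiset.card a)) (hT : TateChar χ ψ a) : Alg χ ψ a :=
  alg_of_pure l e he k χ hχ ψ hψ a ha h0 hs hev ((tateChar_iff_pure ha hev).1 hT)

end Fermat950
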